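import Pool.Agent.Lib.MP_2f17d2_lc.Mg.G002
import Pool.Agent.Lib.MP_2f17d2_lc.SO.Fx
import Pool.Agent.Lib.MP_2f17d2_lc.SO.FmD

section

/-!
# Task Vs: the edges of the drawing
-/

set_option autoImplicit false

namespace Pool.Agent.SO

variable {S : Fam}

private theorem Vs_fwd (g : ℝ → Pt) (z : Pt) (x : ℝ × Option (ℕ × Bool)) :
    ∀ l : List (ℝ × Option (ℕ × Bool)), l.getLast? = some x →
      segs (l.map fun p => (g p.1, p.2)) z =
        ((l.zip l.tail).map fun p => (⟨g p.1.1, g p.2.1, p.1.2⟩ : Seg)) ++ [⟨g x.1, z, x.2⟩] := by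
  intro l
  induction l with
  | nil => intro h; simp at h
  | cons a l ih =>
    intro h
    cases l with
    | nil =>
      simp only [List.getLast?_singleton, Option.some.injEq] at h
      subst h
      rfl
    | cons b l =>
      rw [List.getLast?_cons_cons] at h
      have ih' := ih h
      simp only [List.map_cons, segs, List.tail_cons, List.zip_cons_cons, List.cons_append]
      rw [List.map_cons, List.tail_cons] at ih'
      rw [ih']

private theorem Vs_bwd (g : ℝ → Pt) (x : ℝ × Option (ℕ × Bool)) :
    ∀ (l : List (ℝ × Option (ℕ × Bool))) (z : Pt), l.head? = some x →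
      segs (l.map fun p => (g p.1, p.2)).reverse z =
        ((l.zip l.tail).map fun p => (⟨g p.2.1, g p.1.1, p.2.2⟩ : Seg)).reverse ++
          [⟨g x.1, z, x.2⟩] := by
  intro l
  induction l generalizing x with
  | nil => intro z h; simp at h
  | cons a l ih =>
    intro z h
    simp only [List.head?_cons, Option.some.injEq] at h
    subst h
    cases l with
    | nil => rfl
    | cons b l =>
      have ih' := ih b (g a.1) rfl
      rw [List.map_cons, List.reverse_cons, segs_append (by simp)]
      have e1 : hd [((g a.1, a.2) : Pt × Option (ℕ × Bool))] = g a.1 := rfl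
      rw [e1, ih']
      simp only [List.tail_cons, List.zip_cons_cons, List.map_cons, List.reverse_cons]
      rfl

/-- Proof: `inner` is made of the pairs of neighbours; induction on the list, `zip`, `tail`; the last vertex is `(2, none)` or `(-2, none)` (`xs_head`, `xs_last`). -/
theorem Fam.segs_strand (S : Fam) (i : ℕ) (τ : Bool) (z : Pt) :
    segs (S.strand i τ) z = S.inner i τ ++ [⟨S.P i τ (if τ then 2 else -2), z, none⟩] := by
  cases τ with
  | true => exact Vs_fwd (S.P i true) z (2, none) (S.xs i true) (S.xs_last i true)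
  | false => exact Vs_bwd (S.P i false) (-2, none) (S.xs i false) z (S.xs_head i false)

theorem Fam.hd_strand (S : Fam) (i : ℕ) (τ : Bool) :
    hd (S.strand i τ) = S.P i τ (if τ then -2 else 2) ∧ S.strand i τ ≠ [] := by
  have key : ∀ (l : Poly) (v : Pt × Option (ℕ × Bool)), l.head? = some v → hd l = v.1 ∧ l ≠ [] := by
    intro l v h
    cases l with
    | nil => simp at h
    | cons a l =>
      simp only [List.head?_cons, Option.some.injEq] at h
      subst h
      exact ⟨rfl, by simp⟩
  cases τ with
  | true =>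
    refine key (S.strand i true) (S.P i true (-2), none) ?_
    show ((S.xs i true).map fun p => (S.P i true p.1, p.2)).head? = _
    rw [List.head?_map, S.xs_head i true]
    rfl
  | false =>
    refine key (S.strand i false) (S.P i false 2, none) ?_
    show ((S.xs i false).map fun p => (S.P i false p.1, p.2)).reverse.head? = _
    rw [List.head?_reverse, List.getLast?_map, S.xs_last i false]
    rfl

private theorem Vs_hd_append {A B : Poly} (hA : A ≠ []) : hd (A ++ B) = hd A := by
  cases A with
  | nil => exact absurd rfl hA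
  | cons a A => rfl

private theorem Vs_conn (S : Fam) (i : ℕ) (τ : Bool) (z : Pt) (h : (S.conn i τ).q = z) :
    (⟨S.P i τ (if τ then 2 else -2), z, none⟩ : Seg) = S.conn i τ := by
  subst h
  cases τ <;> rfl

private theorem Vs_conn_next (S : Fam) (i : ℕ) (τ : Bool) (h : i + 1 < S.n) :
    (S.conn i τ).q = S.P (i + 1) (!τ) (if (!τ) = true then -2 else 2) := by
  cases τ with
  | true =>
    show ((2 : ℝ), if i + 1 < S.n then S.F (i + 1) false 2 else -S.H) = _
    rw [if_pos h]
    rfl
  | false =>
    show ((-2 : ℝ), if i + 1 < S.n then S.F (i + 1) true (-2) else S.H) = _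
    rw [if_pos h]
    rfl

private theorem Vs_round (S : Fam) (f : ℕ → Bool) (hf : ∀ i, f (i + 1) = !f i) (z : Pt)
    (hz : ∀ i, i + 1 = S.n → (S.conn i (f i)).q = z) (k : ℕ) :
    ∀ a, a + k = S.n → segs ((List.range' a k).flatMap fun i => S.strand i (f i)) z =
      (List.range' a k).flatMap fun i => S.inner i (f i) ++ [S.conn i (f i)] := by
  induction k with
  | zero => intro a _; rfl
  | succ k ih =>
    intro a ha
    rw [List.range'_succ, List.flatMap_cons, List.flatMap_cons]
    rcases Nat.eq_zero_or_pos k with h0 | h0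
    · subst h0
      simp only [List.range'_zero, List.flatMap_nil, List.append_nil]
      rw [S.segs_strand, Vs_conn S a (f a) z (hz a (by omega))]
    · obtain ⟨m, rfl⟩ : ∃ m, k = m + 1 := ⟨k - 1, by omega⟩
      have ih' := ih (a + 1) (by omega)
      have hh := S.hd_strand (a + 1) (f (a + 1))
      have hB : ((List.range' (a + 1) (m + 1)).flatMap fun i => S.strand i (f i)) ≠ [] := by
        rw [List.range'_succ, List.flatMap_cons]
        intro h
        exact hh.2 (List.append_eq_nil_iff.mp h).1
      have hhd : hd ((List.range' (a + 1) (m + 1)).flatMap fun i => S.strand i (f i)) =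
          (S.conn a (f a)).q := by
        rw [List.range'_succ, List.flatMap_cons, Vs_hd_append hh.2, hh.1, hf a,
          Vs_conn_next S a (f a) (by omega)]
      rw [segs_append hB, ih', hhd, S.segs_strand, Vs_conn S a (f a) _ rfl]

/-- The edges of a round with the types `f i` alternating. Proof: `segs_append` and induction on the number of strands (e.g. for `(List.range k).flatMap ..` followed by `z`, then for the full statement; or induction on a list of consecutive numbers). The
connector after the strand `i` leads to the start of the strand `i + 1` of the other type, or to `z` for the last one. -/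
theorem Fam.segs_round (S : Fam) (f : ℕ → Bool) (hf : ∀ i, f (i + 1) = !f i) (z : Pt)
    (hz : ∀ i, i + 1 = S.n → (S.conn i (f i)).q = z) :
    segs ((List.range S.n).flatMap fun i => S.strand i (f i)) z =
      (List.range S.n).flatMap fun i => S.inner i (f i) ++ [S.conn i (f i)] := by
  rw [List.range_eq_range']
  exact Vs_round S f hf z hz S.n 0 (by omega)

private theorem Vs_hd_round (S : Fam) (f : ℕ → Bool) (hn : 0 < S.n) :
    hd ((List.range S.n).flatMap fun i => S.strand i (f i)) = S.P 0 (f 0) (if f 0 then -2 else 2) ∧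
      ((List.range S.n).flatMap fun i => S.strand i (f i)) ≠ [] := by
  obtain ⟨m, hm⟩ : ∃ m, S.n = m + 1 := ⟨S.n - 1, by omega⟩
  have hh := S.hd_strand 0 (f 0)
  rw [List.range_eq_range', hm, List.range'_succ, List.flatMap_cons]
  refine ⟨by rw [Vs_hd_append hh.2, hh.1], fun h => hh.2 (List.append_eq_nil_iff.mp h).1⟩

/-- All the edges. Proof: `segs_append`, `segs_round` with `z = (-2, H)` (the last strand of the first round is lower, `n` is even) and `z = (2, -H)`. -/
theorem Fam.segs_V (hn : 0 < S.n) (he : S.n % 2 = 0) :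
    segs S.V (hd S.V) =
      ((List.range S.n).flatMap fun i => S.inner i (decide (i % 2 = 0)) ++ [S.conn i (decide (i % 2 = 0))]) ++
      (S.fr1 ++ (((List.range S.n).flatMap fun i =>
        S.inner i (decide (i % 2 = 1)) ++ [S.conn i (decide (i % 2 = 1))]) ++ S.fr2)) := by
  have h1 := Vs_hd_round S (fun i => decide (i % 2 = 0)) hn
  have h2 := Vs_hd_round S (fun i => decide (i % 2 = 1)) hn
  have hV : hd S.V = S.P 0 true (-2) := by
    show hd (S.round1 ++ (S.frame1 ++ (S.round2 ++ S.frame2))) = _
    rw [Fam.round1, Vs_hd_append h1.2, h1.1]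
    simp
  have hf1 : ∀ i, decide ((i + 1) % 2 = 0) = !decide (i % 2 = 0) := by
    intro i
    rcases Nat.mod_two_eq_zero_or_one i with h | h
    · have h' : (i + 1) % 2 = 1 := by omega
      simp [h, h']
    · have h' : (i + 1) % 2 = 0 := by omega
      simp [h, h']
  have hf2 : ∀ i, decide ((i + 1) % 2 = 1) = !decide (i % 2 = 1) := by
    intro i
    rcases Nat.mod_two_eq_zero_or_one i with h | h
    · have h' : (i + 1) % 2 = 1 := by omega
      simp [h, h']
    · have h' : (i + 1) % 2 = 0 := by omega
      simp [h, h']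
  have hr1 := S.segs_round (fun i => decide (i % 2 = 0)) hf1 (-2, S.H) (by
    intro i hi
    have h : i % 2 = 1 := by omega
    have h' : decide (i % 2 = 0) = false := by simp [h]
    show (S.conn i (decide (i % 2 = 0))).q = _
    rw [h']
    show ((-2 : ℝ), if i + 1 < S.n then S.F (i + 1) true (-2) else S.H) = _
    rw [if_neg (by omega)])
  have hr2 := S.segs_round (fun i => decide (i % 2 = 1)) hf2 (2, -S.H) (by
    intro i hi
    have h : i % 2 = 1 := by omega
    have h' : decide (i % 2 = 1) = true := by simp [h]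
    show (S.conn i (decide (i % 2 = 1))).q = _
    rw [h']
    show ((2 : ℝ), if i + 1 < S.n then S.F (i + 1) false 2 else -S.H) = _
    rw [if_neg (by omega)])
  have hne2 : S.round2 ++ S.frame2 ≠ [] := fun h => h2.2 (List.append_eq_nil_iff.mp h).1
  have hd2 : hd (S.round2 ++ S.frame2) = S.P 0 false 2 := by
    rw [Fam.round2, Vs_hd_append h2.2, h2.1]
    simp
  have hne1 : S.frame1 ++ (S.round2 ++ S.frame2) ≠ [] := by simp [Fam.frame1]
  have hd1 : hd (S.frame1 ++ (S.round2 ++ S.frame2)) = (-2, S.H) := rfl
  have hnef : S.frame2 ≠ [] := by simp [Fam.frame2]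
  have hdf : hd S.frame2 = (2, -S.H) := rfl
  rw [hV]
  show segs (S.round1 ++ (S.frame1 ++ (S.round2 ++ S.frame2))) (S.P 0 true (-2)) = _
  rw [segs_append hne1, segs_append hne2, segs_append hnef, hd1, hd2, hdf, Fam.round1, Fam.round2,
    hr1, hr2]
  rfl

end Pool.Agent.SO
end

section

/-!
# Task Ph: the profile of a lens
-/

set_option autoImplicit false

namespace Pool.Agent.SO

/-- The profile: `1` on `[-1, 1]`, falling with slope `4` outside for upper strands, `-1` for lower strands. -/
noncomputable def phi (τ : Bool) (x : ℝ) : ℝ := if τ then min 1 (5 - 4 * |x|) else -1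

/-- `1` for upper strands, `-1` for lower strands. -/
noncomputable def sg (τ : Bool) : ℝ := if τ then 1 else -1

private theorem phi_t (x : ℝ) : phi true x = min 1 (5 - 4 * |x|) := by simp [phi]

private theorem phi_f (x : ℝ) : phi false x = -1 := by simp [phi]

theorem phi_eq {x : ℝ} (h0 : -1 ≤ x) (h1 : x ≤ 1) (τ : Bool) : phi τ x = sg τ := by
  have h : |x| ≤ 1 := abs_le.mpr ⟨h0, h1⟩
  cases τ with
  | false => simp [phi, sg]
  | true =>
    have h2 : phi true x = 1 := by
      rw [phi_t]
      exact min_eq_left (by linarith)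
    rw [h2]
    simp [sg]

theorem phi_bd {x : ℝ} (h0 : -2 ≤ x) (h1 : x ≤ 2) (τ : Bool) : -3 ≤ phi τ x ∧ phi τ x ≤ 1 := by
  have h : |x| ≤ 2 := abs_le.mpr ⟨h0, h1⟩
  cases τ with
  | false =>
    rw [phi_f]
    constructor <;> norm_num
  | true =>
    rw [phi_t]
    exact ⟨le_min (by norm_num) (by linarith), min_le_left _ _⟩

theorem phi_in {x : ℝ} (h0 : -3 / 2 < x) (h1 : x < 3 / 2) : phi false x < phi true x := by
  have h : |x| < 3 / 2 := abs_lt.mpr ⟨by linarith, h1⟩
  rw [phi_f, phi_t]
  exact lt_min (by norm_num) (by linarith)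

theorem phi_left {x : ℝ} (h1 : x < -3 / 2) : phi true x < phi false x := by
  have h : 3 / 2 < |x| := by
    have := neg_le_abs x
    linarith
  rw [phi_f, phi_t]
  exact lt_of_le_of_lt (min_le_right _ _) (by linarith)

theorem phi_right {x : ℝ} (h1 : 3 / 2 < x) : phi true x < phi false x := by
  have h : 3 / 2 < |x| := lt_of_lt_of_le h1 (le_abs_self x)
  rw [phi_f, phi_t]
  exact lt_of_le_of_lt (min_le_right _ _) (by linarith)

theorem phi_A : phi true (-3 / 2) = phi false (-3 / 2) := by
  have h : |(-3 / 2 : ℝ)| = 3 / 2 := by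
    rw [abs_of_neg (by norm_num)]
    norm_num
  rw [phi_f, phi_t, h]
  norm_num

theorem phi_B : phi true (3 / 2) = phi false (3 / 2) := by
  have h : |(3 / 2 : ℝ)| = 3 / 2 := abs_of_pos (by norm_num)
  rw [phi_f, phi_t, h]
  norm_num

theorem phi_affine (τ : Bool) {a b : ℝ} (hab : a < b) (h1 : ¬ (a < -1 ∧ -1 < b)) (h2 : ¬ (a < 1 ∧ 1 < b)) :
    ∃ m c : ℝ, ∀ z, a ≤ z → z ≤ b → phi τ z = m * z + c := by
  cases τ with
  | false =>
    exact ⟨0, -1, fun z _ _ => by rw [phi_f]; ring⟩
  | true =>
    by_cases hb : b ≤ -1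
    · refine ⟨4, 5, fun z _ hz => ?_⟩
      have hz1 : z ≤ -1 := le_trans hz hb
      rw [phi_t, abs_of_neg (by linarith), min_eq_right (by linarith)]
      ring
    · have hb' : -1 < b := not_le.mp hb
      have ha : -1 ≤ a := by
        by_contra hc
        exact h1 ⟨not_le.mp hc, hb'⟩
      by_cases ha1 : 1 ≤ a
      · refine ⟨-4, 5, fun z hz _ => ?_⟩
        have hz1 : 1 ≤ z := le_trans ha1 hz
        rw [phi_t, abs_of_pos (by linarith), min_eq_right (by linarith)]
        ring
      · have hb1 : b ≤ 1 := by
          by_contra hc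
          exact h2 ⟨not_le.mp ha1, not_le.mp hc⟩
        refine ⟨0, 1, fun z hz hz' => ?_⟩
        have := phi_eq (x := z) (by linarith) (by linarith) true
        rw [this]
        simp [sg]

theorem phi_concave : ConcaveOn ℝ (Set.Icc (-2) 2) (phi true) := by
  refine ⟨convex_Icc _ _, ?_⟩
  intro x _ y _ a b ha hb hab
  simp only [smul_eq_mul]
  rw [phi_t, phi_t, phi_t]
  have hx1 := min_le_left (1 : ℝ) (5 - 4 * |x|)
  have hx2 := min_le_right (1 : ℝ) (5 - 4 * |x|)
  have hy1 := min_le_left (1 : ℝ) (5 - 4 * |y|)
  have hy2 := min_le_right (1 : ℝ) (5 - 4 * |y|)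
  have habs : |a * x + b * y| ≤ a * |x| + b * |y| := by
    calc |a * x + b * y| ≤ |a * x| + |b * y| := abs_add_le _ _
      _ = a * |x| + b * |y| := by rw [abs_mul, abs_mul, abs_of_nonneg ha, abs_of_nonneg hb]
  refine le_min ?_ ?_
  · have h1 := mul_le_mul_of_nonneg_left hx1 ha
    have h2 := mul_le_mul_of_nonneg_left hy1 hb
    linarith
  · have h1 := mul_le_mul_of_nonneg_left hx2 ha
    have h2 := mul_le_mul_of_nonneg_left hy2 hb
    have h3 : a * (5 - 4 * |x|) + b * (5 - 4 * |y|) = 5 * (a + b) - 4 * (a * |x| + b * |y|) := by ring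
    rw [hab] at h3
    linarith

end Pool.Agent.SO
end
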