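import Pool.Agent.Lib.MP_2f17d2_lc.SO.Fy
import Pool.Agent.Lib.MP_2f17d2_lc.Mg.G003

section

/-!
# Task Rs: edges of strands
-/

set_option autoImplicit false

namespace Pool.Agent.SO

variable {S : Fam}

theorem Dsj.symm {s s' : Seg} (h : Dsj s s') : Dsj s' s := by
  refine ⟨fun x y hx hx' hy hy' => ?_, fun x y hx hx' hy hy' => ?_⟩
  · exact (h.2 y x hy hy' hx hx').symm
  · exact (h.1 y x hy hy' hx hx').symm

private theorem Rs_cr_symm (u v : Pt) : cr v u = - cr u v := by
  unfold cr; ring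

/-- `cr u v = -cr v u`. -/
theorem Rel.symm {s s' : Seg} (h : Rel s s') : Rel s' s := by
  refine ⟨h.dsj.symm, ?_, ?_⟩
  · constructor
    · intro hp
      obtain ⟨a, b, b', h1, h2⟩ := h.start.mp hp.symm
      exact ⟨a, b', b, h2, h1⟩
    · rintro ⟨a, b, b', h1, h2⟩
      exact (h.start.mpr ⟨a, b', b, h2, h1⟩).symm
  · intro a b b' h1 h2
    obtain ⟨k0, k1, k2⟩ := h.sign a b' b h2 h1
    rw [Rs_cr_symm s.d s'.d]
    refine ⟨by simpa using k0, ?_, ?_⟩
    · rw [k2]; constructor <;> intro hh <;> linarith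
    · rw [k1]; constructor <;> intro hh <;> linarith

theorem Fam.mem_inner_true {i : ℕ} {s : Seg} : s ∈ S.inner i true ↔
    ∃ p q, S.Adj i true p q ∧ s = ⟨S.P i true p.1, S.P i true q.1, p.2⟩ := by
  unfold Fam.inner Fam.Adj
  simp only [if_true, List.mem_map, Prod.exists]
  constructor
  · rintro ⟨a, b, c, d, h, rfl⟩
    exact ⟨a, b, c, d, h, rfl⟩
  · rintro ⟨a, b, c, d, h, rfl⟩
    exact ⟨a, b, c, d, h, rfl⟩

theorem Fam.mem_inner_false {i : ℕ} {s : Seg} : s ∈ S.inner i false ↔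
    ∃ p q, S.Adj i false p q ∧ s = ⟨S.P i false q.1, S.P i false p.1, q.2⟩ := by
  unfold Fam.inner Fam.Adj
  simp only [Bool.false_eq_true, if_false, List.mem_reverse, List.mem_map, Prod.exists]
  constructor
  · rintro ⟨a, b, c, d, h, rfl⟩
    exact ⟨a, b, c, d, h, rfl⟩
  · rintro ⟨a, b, c, d, h, rfl⟩
    exact ⟨a, b, c, d, h, rfl⟩

/-- The point with parameter `t` of the segment between two points of an affine piece. -/
private theorem Rs_pt {i : ℕ} {τ : Bool} {lo hi' m c : ℝ}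
    (hF : ∀ z, lo ≤ z → z ≤ hi' → S.F i τ z = m * z + c) {u v : ℝ} (hu : lo ≤ u) (hu' : u ≤ hi')
    (hv : lo ≤ v) (hv' : v ≤ hi') {t : ℝ} (ht : 0 ≤ t) (ht' : t ≤ 1) :
    S.P i τ u + t • (S.P i τ v - S.P i τ u) = S.P i τ (u + t * (v - u)) := by
  have h1 : lo ≤ u + t * (v - u) := by nlinarith
  have h2 : u + t * (v - u) ≤ hi' := by nlinarith
  unfold Fam.P
  rw [hF u hu hu', hF v hv hv', hF _ h1 h2]
  ext
  · simp
  · simp only [Prod.snd_add, Prod.smul_snd, Prod.snd_sub, smul_eq_mul]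
    ring

/-- The points of an edge of a strand are points of the graph, with abscissa in the open interval between the end points for the parameters in `(0, 1)`. Proof: `adj_affine`. -/
theorem Fam.Ok.inner_point (h : S.Ok) {i : ℕ} (hi : i < S.n) {τ : Bool} {s : Seg} (hs : s ∈ S.inner i τ) :
    ∃ p q, S.Adj i τ p q ∧ ((s.p = S.P i τ p.1 ∧ s.q = S.P i τ q.1 ∧ s.m = p.2 ∧ τ = true) ∨
      (s.p = S.P i τ q.1 ∧ s.q = S.P i τ p.1 ∧ s.m = q.2 ∧ τ = false)) ∧
      (∀ t : ℝ, 0 ≤ t → t ≤ 1 → ∃ x, p.1 ≤ x ∧ x ≤ q.1 ∧ s.p + t • s.d = S.P i τ x) ∧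
      (∀ t : ℝ, 0 < t → t < 1 → ∃ x, p.1 < x ∧ x < q.1 ∧ s.p + t • s.d = S.P i τ x) := by
  cases τ with
  | true =>
    obtain ⟨p, q, hpq, rfl⟩ := Fam.mem_inner_true.mp hs
    obtain ⟨_, _, hlt, _, _, _⟩ := h.adj hi hpq
    obtain ⟨m, c, hF⟩ := h.adj_affine hi hpq
    refine ⟨p, q, hpq, Or.inl ⟨rfl, rfl, rfl, rfl⟩, ?_, ?_⟩
    · intro t ht ht'
      refine ⟨p.1 + t * (q.1 - p.1), by nlinarith, by nlinarith, ?_⟩
      exact Rs_pt hF le_rfl hlt.le hlt.le le_rfl ht ht'
    · intro t ht ht'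
      refine ⟨p.1 + t * (q.1 - p.1), by nlinarith, by nlinarith, ?_⟩
      exact Rs_pt hF le_rfl hlt.le hlt.le le_rfl ht.le ht'.le
  | false =>
    obtain ⟨p, q, hpq, rfl⟩ := Fam.mem_inner_false.mp hs
    obtain ⟨_, _, hlt, _, _, _⟩ := h.adj hi hpq
    obtain ⟨m, c, hF⟩ := h.adj_affine hi hpq
    refine ⟨p, q, hpq, Or.inr ⟨rfl, rfl, rfl, rfl⟩, ?_, ?_⟩
    · intro t ht ht'
      refine ⟨q.1 + t * (p.1 - q.1), by nlinarith, by nlinarith, ?_⟩
      exact Rs_pt hF hlt.le le_rfl le_rfl hlt.le ht ht'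
    · intro t ht ht'
      refine ⟨q.1 + t * (p.1 - q.1), by nlinarith, by nlinarith, ?_⟩
      exact Rs_pt hF hlt.le le_rfl le_rfl hlt.le ht.le ht'.le

/-- The start of an edge is a vertex of the strand. -/
private theorem Rs_start (h : S.Ok) {i : ℕ} (hi : i < S.n) {τ : Bool} {s : Seg} (hs : s ∈ S.inner i τ) :
    ∃ v, v ∈ S.xs i τ ∧ s.p = S.P i τ v.1 ∧ s.m = v.2 := by
  cases τ with
  | true =>
    obtain ⟨p, q, hpq, rfl⟩ := Fam.mem_inner_true.mp hs
    exact ⟨p, (h.adj hi hpq).1, rfl, rfl⟩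
  | false =>
    obtain ⟨p, q, hpq, rfl⟩ := Fam.mem_inner_false.mp hs
    exact ⟨q, (h.adj hi hpq).2.1, rfl, rfl⟩

/-- Around a marked start the strand is straight. -/
private theorem Rs_slope (h : S.Ok) {i : ℕ} (hi : i < S.n) {τ : Bool} {s : Seg} (hs : s ∈ S.inner i τ)
    (hm : s.m ≠ none) :
    ∃ v m c l δ : ℝ, (v, s.m) ∈ S.xs i τ ∧ s.p = S.P i τ v ∧ 0 < δ ∧
      (∀ z, v - δ ≤ z → z ≤ v + δ → S.F i τ z = m * z + c) ∧ s.d = (l, l * m) ∧
      (τ = true → 0 < l) ∧ (τ = false → l < 0) := by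
  cases τ with
  | true =>
    obtain ⟨v, q, hpq, rfl⟩ := Fam.mem_inner_true.mp hs
    obtain ⟨hv, hq, hlt, _, _, _⟩ := h.adj hi hpq
    obtain ⟨p0, r0, h1, h2⟩ := h.exists_adj hi hv hm
    obtain ⟨m, c, hF⟩ := h.adj_affine_marked hi h1 h2 hm
    have hp0 := h.adj hi h1
    have hr0 := h.adj hi h2
    have hqr : q.1 ≤ r0.1 := by
      by_contra hc
      push Not at hc
      exact (h.adj hi hpq).2.2.2.2.2 r0 hr0.2.1 ⟨hr0.2.2.1, hc⟩
    refine ⟨v.1, m, c, q.1 - v.1, min (v.1 - p0.1) (r0.1 - v.1), hv, rfl, ?_, ?_, ?_, ?_, ?_⟩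
    · exact lt_min (by linarith [hp0.2.2.1]) (by linarith [hr0.2.2.1])
    · intro z hz hz'
      apply hF
      · linarith [min_le_left (v.1 - p0.1) (r0.1 - v.1)]
      · linarith [min_le_right (v.1 - p0.1) (r0.1 - v.1)]
    · have e1 := hF v.1 hp0.2.2.1.le hr0.2.2.1.le
      have e2 := hF q.1 (by linarith [hp0.2.2.1]) hqr
      simp only [Seg.d, Fam.P, e1, e2]
      ext
      · simp
      · simp only [Prod.snd_sub]; ring
    · intro _; linarith
    · intro hc; exact absurd hc (by simp)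
  | false =>
    obtain ⟨q, v, hpq, rfl⟩ := Fam.mem_inner_false.mp hs
    obtain ⟨hq, hv, hlt, _, _, _⟩ := h.adj hi hpq
    obtain ⟨p0, r0, h1, h2⟩ := h.exists_adj hi hv hm
    obtain ⟨m, c, hF⟩ := h.adj_affine_marked hi h1 h2 hm
    have hp0 := h.adj hi h1
    have hr0 := h.adj hi h2
    have hqr : p0.1 ≤ q.1 := by
      by_contra hc
      push Not at hc
      exact (h.adj hi hpq).2.2.2.2.2 p0 hp0.1 ⟨hc, hp0.2.2.1⟩
    refine ⟨v.1, m, c, q.1 - v.1, min (v.1 - p0.1) (r0.1 - v.1), hv, rfl, ?_, ?_, ?_, ?_, ?_⟩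
    · exact lt_min (by linarith [hp0.2.2.1]) (by linarith [hr0.2.2.1])
    · intro z hz hz'
      apply hF
      · linarith [min_le_left (v.1 - p0.1) (r0.1 - v.1)]
      · linarith [min_le_right (v.1 - p0.1) (r0.1 - v.1)]
    · have e1 := hF v.1 hp0.2.2.1.le hr0.2.2.1.le
      have e2 := hF q.1 hqr (by linarith [hr0.2.2.1])
      simp only [Seg.d, Fam.P, e1, e2]
      ext
      · simp
      · simp only [Prod.snd_sub]; ring
    · intro hc; exact absurd hc (by simp)
    · intro _; linarith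

private theorem Rs_P_inj {i j : ℕ} {τ τ' : Bool} {x y : ℝ} (h : S.P i τ x = S.P j τ' y) :
    x = y ∧ S.F i τ x = S.F j τ' y := by
  unfold Fam.P at h
  exact Prod.mk.inj h

/-- Edges of different strands. Proof. `dsj`: a common point gives `x` with `F i τ x = F j τ' x`, so by `Fam.Ok.meet` `x` is the abscissa of a vertex of both strands; but in the open edge there is no vertex (`adj`).
`start`: if the starts coincide, `Fam.Ok.meet` gives vertices of both strands over `x` with the same label, which are the starts by `uniq`; conversely `same_label`.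
`sign`: let `x` be the abscissa of the common start. Both strands are affine around `x` (`exists_adj`, `adj_affine_marked`), with slopes `m`, `m'`; the directions of the two edges are `l • (1, m)` and `l' • (1, m')` with `l > 0` if
`τ = true` and `l < 0` if `τ = false`, in the same way `l'`. `cr s.d s'.d = l * l' * (m' - m)`. In the first case of `same_label`, `m' < m`, in the second case `m < m'`. -/
theorem Fam.Ok.rel_strands (h : S.Ok) {i j : ℕ} (hi : i < S.n) (hj : j < S.n) {τ τ' : Bool}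
    (hne : (i, τ) ≠ (j, τ')) {s s' : Seg} (hs : s ∈ S.inner i τ) (hs' : s' ∈ S.inner j τ') : Rel s s' := by
  refine ⟨⟨?_, ?_⟩, ?_, ?_⟩
  · intro x y hx hx' hy hy' he
    obtain ⟨p, q, hpq, -, -, h1⟩ := h.inner_point hi hs
    obtain ⟨p', q', hpq', -, h2, -⟩ := h.inner_point hj hs'
    obtain ⟨u, hu, hu', e1⟩ := h1 x hx hx'
    obtain ⟨u', hv, hv', e2⟩ := h2 y hy hy'
    rw [e1, e2] at he
    obtain ⟨rfl, hF⟩ := Rs_P_inj he
    obtain ⟨_, _, _, hb1, hb2, hno⟩ := h.adj hi hpq
    obtain ⟨a, b, b', m1, m2⟩ := h.meet hi hj hne (by linarith) (by linarith) hF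
    exact hno _ m1 ⟨hu, hu'⟩
  · intro x y hx hx' hy hy' he
    obtain ⟨p, q, hpq, -, h1, -⟩ := h.inner_point hi hs
    obtain ⟨p', q', hpq', -, -, h2⟩ := h.inner_point hj hs'
    obtain ⟨u, hu, hu', e1⟩ := h1 x hx hx'
    obtain ⟨u', hv, hv', e2⟩ := h2 y hy hy'
    rw [e1, e2] at he
    obtain ⟨rfl, hF⟩ := Rs_P_inj he
    obtain ⟨_, _, _, hb1, hb2, hno⟩ := h.adj hj hpq'
    obtain ⟨a, b, b', m1, m2⟩ := h.meet hi hj hne (by linarith) (by linarith) hF
    exact hno _ m2 ⟨hv, hv'⟩
  · obtain ⟨v, hv, e1, e2⟩ := Rs_start h hi hs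
    obtain ⟨v', hv', e1', e2'⟩ := Rs_start h hj hs'
    rw [e1, e1', e2, e2']
    constructor
    · intro he
      obtain ⟨hx, hF⟩ := Rs_P_inj he
      rw [← hx] at hF
      have hb := h.xs_bd hi τ hv
      obtain ⟨a, b, b', m1, m2⟩ := h.meet hi hj hne hb.1 hb.2 hF
      refine ⟨a, b, b', ?_, ?_⟩
      · have := h.uniq hi hv m1 rfl
        rw [this]
      · have := h.uniq hj hv' m2 hx.symm
        rw [this]
    · rintro ⟨a, b, b', m1, m2⟩
      have k1 : (v.1, some (a, b)) ∈ S.xs i τ := by rw [← m1]; exact hv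
      have k2 : (v'.1, some (a, b')) ∈ S.xs j τ' := by rw [← m2]; exact hv'
      obtain ⟨hx, hF, -⟩ := h.same_label hi hj hne k1 k2
      unfold Fam.P
      rw [hF, hx]
  · intro a b b' m1 m2
    obtain ⟨v, m, c, l, δ, hv, -, hδ, hF, hd, hl1, hl2⟩ := Rs_slope h hi hs (by rw [m1]; simp)
    obtain ⟨v', m', c', l', δ', hv', -, hδ', hF', hd', hl1', hl2'⟩ :=
      Rs_slope h hj hs' (by rw [m2]; simp)
    rw [m1] at hv
    rw [m2] at hv'
    obtain ⟨hx, hFv, hb, ε, hε, hcase⟩ := h.same_label hi hj hne hv hv'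
    subst hx
    have hcr : cr s.d s'.d = l * l' * (m' - m) := by
      rw [hd, hd']; unfold cr; simp only; ring
    have ev : m * v + c = m' * v + c' := by
      rw [← hF v (by linarith) (by linarith), ← hF' v (by linarith) (by linarith), hFv]
    -- slopes
    set η := min (min δ δ') (ε / 2) with hη
    have hη0 : 0 < η := lt_min (lt_min hδ hδ') (by linarith)
    have hη1 : η ≤ δ := le_trans (min_le_left _ _) (min_le_left _ _)
    have hη2 : η ≤ δ' := le_trans (min_le_left _ _) (min_le_right _ _)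
    have hη3 : η < ε := lt_of_le_of_lt (min_le_right _ _) (by linarith)
    have eF : S.F i τ (v + η) = m * (v + η) + c := hF _ (by linarith) (by linarith)
    have eF' : S.F j τ' (v + η) = m' * (v + η) + c' := hF' _ (by linarith) (by linarith)
    have hll : (τ = τ' ∧ 0 < l * l') ∨ (τ ≠ τ' ∧ l * l' < 0) := by
      cases τ <;> cases τ'
      · exact Or.inl ⟨rfl, mul_pos_of_neg_of_neg (hl2 rfl) (hl2' rfl)⟩
      · exact Or.inr ⟨by simp, mul_neg_of_neg_of_pos (hl2 rfl) (hl1' rfl)⟩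
      · exact Or.inr ⟨by simp, mul_neg_of_pos_of_neg (hl1 rfl) (hl2' rfl)⟩
      · exact Or.inl ⟨rfl, mul_pos (hl1 rfl) (hl1' rfl)⟩
    rw [hcr]
    rcases hcase with ⟨hbb, -, hgt⟩ | ⟨hbb, -, hgt⟩
    · have hmm : m' - m < 0 := by
        have := hgt (v + η) (by linarith) (by linarith)
        rw [eF, eF'] at this
        have h3 : (m' - m) * η < 0 := by nlinarith
        by_contra hc
        push Not at hc
        exact absurd h3 (not_lt.mpr (mul_nonneg hc hη0.le))
      rcases hll with ⟨ht, hpos⟩ | ⟨ht, hneg⟩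
      · have hb0 : b = false := by rw [hbb, ht]; simp
        have hc : l * l' * (m' - m) < 0 := mul_neg_of_pos_of_neg hpos hmm
        rw [hb, hb0]
        refine ⟨hc.ne, ?_, ?_⟩
        · constructor
          · intro hh; exact absurd hh (by simp)
          · intro hh; linarith
        · simp only [Bool.not_false, true_iff]; exact hc
      · have hb0 : b = true := by rw [hbb]; simpa using ht
        have hc : 0 < l * l' * (m' - m) := mul_pos_of_neg_of_neg hneg hmm
        rw [hb, hb0]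
        refine ⟨hc.ne', ?_, ?_⟩
        · simp only [true_iff]; exact hc
        · constructor
          · intro hh; exact absurd hh (by simp)
          · intro hh; linarith
    · have hmm : 0 < m' - m := by
        have := hgt (v + η) (by linarith) (by linarith)
        rw [eF, eF'] at this
        have h3 : 0 < (m' - m) * η := by nlinarith
        by_contra hc
        push Not at hc
        exact absurd h3 (not_lt.mpr (mul_nonpos_of_nonpos_of_nonneg hc hη0.le))
      rcases hll with ⟨ht, hpos⟩ | ⟨ht, hneg⟩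
      · have hb0 : b = true := by rw [hbb, ht]; simp
        have hc : 0 < l * l' * (m' - m) := mul_pos hpos hmm
        rw [hb, hb0]
        refine ⟨hc.ne', ?_, ?_⟩
        · simp only [true_iff]; exact hc
        · constructor
          · intro hh; exact absurd hh (by simp)
          · intro hh; linarith
      · have hb0 : b = false := by rw [hbb]; simpa using ht
        have hc : l * l' * (m' - m) < 0 := mul_neg_of_neg_of_pos hneg hmm
        rw [hb, hb0]
        refine ⟨hc.ne, ?_, ?_⟩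
        · constructor
          · intro hh; exact absurd hh (by simp)
          · intro hh; linarith
        · simp only [Bool.not_false, true_iff]; exact hc

/-- Labels of one strand are different. -/
private theorem Rs_label (h : S.Ok) {i : ℕ} (hi : i < S.n) {τ : Bool} {x y : ℝ} {a : ℕ} {b b' : Bool}
    (hx : (x, some (a, b)) ∈ S.xs i τ) (hy : (y, some (a, b')) ∈ S.xs i τ) : x = y := by
  rw [h.mem_xs hi] at hx hy
  rcases hx with ⟨rfl, ha, -⟩ | ⟨rfl, ha, -⟩ | ⟨e, τ1, he, hx⟩
  · rcases hy with ⟨rfl, -, -⟩ | ⟨rfl, ha', -⟩ | ⟨e', τ2, he', hy⟩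
    · rfl
    · omega
    · exfalso
      rcases hy with ⟨-, -, ha', -⟩ | ⟨-, -, ha', -⟩
      · have := lab_gt S.n e' τ τ2; omega
      · have := lab_gt S.n e' τ2 τ; omega
  · rcases hy with ⟨rfl, ha', -⟩ | ⟨rfl, -, -⟩ | ⟨e', τ2, he', hy⟩
    · omega
    · rfl
    · exfalso
      rcases hy with ⟨-, -, ha', -⟩ | ⟨-, -, ha', -⟩
      · have := lab_gt S.n e' τ τ2; omega
      · have := lab_gt S.n e' τ2 τ; omega
  · rcases hy with ⟨rfl, ha', -⟩ | ⟨rfl, ha', -⟩ | ⟨e', τ2, he', hy⟩
    · exfalso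
      rcases hx with ⟨-, -, ha, -⟩ | ⟨-, -, ha, -⟩
      · have := lab_gt S.n e τ τ1; omega
      · have := lab_gt S.n e τ1 τ; omega
    · exfalso
      rcases hx with ⟨-, -, ha, -⟩ | ⟨-, -, ha, -⟩
      · have := lab_gt S.n e τ τ1; omega
      · have := lab_gt S.n e τ1 τ; omega
    · rcases hx with ⟨k1, rfl, ha, -⟩ | ⟨k1, rfl, ha, -⟩
      · rcases hy with ⟨k2, rfl, ha', -⟩ | ⟨k2, rfl, ha', -⟩
        · rw [ha] at ha'
          obtain ⟨rfl, -, rfl⟩ := lab_inj.mp ha'
          rfl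
        · rw [ha] at ha'
          obtain ⟨rfl, -, -⟩ := lab_inj.mp ha'
          have := (h.lt e he).1
          omega
      · rcases hy with ⟨k2, rfl, ha', -⟩ | ⟨k2, rfl, ha', -⟩
        · rw [ha] at ha'
          obtain ⟨rfl, -, -⟩ := lab_inj.mp ha'
          have := (h.lt e he).1
          omega
        · rw [ha] at ha'
          obtain ⟨rfl, rfl, -⟩ := lab_inj.mp ha'
          rfl

private theorem Rs_zip {α : Type*} (r : α → ℝ) (L : List α) (h : L.Pairwise fun p q => r p < r q) :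
    (L.zip L.tail).Pairwise fun a b => r a.2 ≤ r b.1 := by
  induction L with
  | nil => simp
  | cons a L ih =>
    cases L with
    | nil => simp
    | cons b L =>
      have h2 := (List.pairwise_cons.mp h).2
      have h3 := ih h2
      simp only [List.tail_cons, List.zip_cons_cons]
      simp only [List.tail_cons] at h3
      rw [List.pairwise_cons]
      refine ⟨?_, h3⟩
      rintro ⟨c, d⟩ hcd
      have hc : c ∈ b :: L := (List.of_mem_zip hcd).1
      rcases List.mem_cons.mp hc with rfl | hc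
      · exact le_rfl
      · exact ((List.pairwise_cons.mp h2).1 c hc).le

/-- The relation between two edges of the same strand. -/
private theorem Rs_same (h : S.Ok) {i : ℕ} (hi : i < S.n) {τ : Bool} {p q p' q' : ℝ × Option (ℕ × Bool)}
    (hpq : S.Adj i τ p q) (hpq' : S.Adj i τ p' q') (hle : q.1 ≤ p'.1) {s s' : Seg}
    (hs : (s = ⟨S.P i τ p.1, S.P i τ q.1, p.2⟩ ∧ s' = ⟨S.P i τ p'.1, S.P i τ q'.1, p'.2⟩) ∨
      (s = ⟨S.P i τ q.1, S.P i τ p.1, q.2⟩ ∧ s' = ⟨S.P i τ q'.1, S.P i τ p'.1, q'.2⟩)) : Rel s s' := by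
  obtain ⟨hp, hq, hlt, _, _, _⟩ := h.adj hi hpq
  obtain ⟨hp', hq', hlt', _, _, _⟩ := h.adj hi hpq'
  obtain ⟨m, c, hF⟩ := h.adj_affine hi hpq
  obtain ⟨m', c', hF'⟩ := h.adj_affine hi hpq'
  -- the abscissae of the points of the two edges
  have key : ∃ u u' : ℝ × Option (ℕ × Bool), u ∈ S.xs i τ ∧ u' ∈ S.xs i τ ∧ u.1 < u'.1 ∧
      s.p = S.P i τ u.1 ∧ s'.p = S.P i τ u'.1 ∧ s.m = u.2 ∧ s'.m = u'.2 ∧
      (∀ t : ℝ, 0 ≤ t → t ≤ 1 → ∃ x, x ≤ q.1 ∧ (0 < t → t < 1 → x < q.1) ∧ s.p + t • s.d = S.P i τ x) ∧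
      (∀ t : ℝ, 0 ≤ t → t ≤ 1 → ∃ x, p'.1 ≤ x ∧ (0 < t → t < 1 → p'.1 < x) ∧
        s'.p + t • s'.d = S.P i τ x) := by
    rcases hs with ⟨rfl, rfl⟩ | ⟨rfl, rfl⟩
    · refine ⟨p, p', hp, hp', by linarith, rfl, rfl, rfl, rfl, ?_, ?_⟩
      · intro t ht ht'
        refine ⟨p.1 + t * (q.1 - p.1), by nlinarith, fun h1 h2 => by nlinarith, ?_⟩
        exact Rs_pt hF le_rfl hlt.le hlt.le le_rfl ht ht'
      · intro t ht ht'
        refine ⟨p'.1 + t * (q'.1 - p'.1), by nlinarith, fun h1 h2 => by nlinarith, ?_⟩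
        exact Rs_pt hF' le_rfl hlt'.le hlt'.le le_rfl ht ht'
    · refine ⟨q, q', hq, hq', by linarith, rfl, rfl, rfl, rfl, ?_, ?_⟩
      · intro t ht ht'
        refine ⟨q.1 + t * (p.1 - q.1), by nlinarith, fun h1 h2 => by nlinarith, ?_⟩
        exact Rs_pt hF hlt.le le_rfl le_rfl hlt.le ht ht'
      · intro t ht ht'
        refine ⟨q'.1 + t * (p'.1 - q'.1), by nlinarith, fun h1 h2 => by nlinarith, ?_⟩
        exact Rs_pt hF' hlt'.le le_rfl le_rfl hlt'.le ht ht'
  obtain ⟨u, u', hu, hu', huu, e1, e1', e2, e2', k1, k2⟩ := key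
  have hlab : ∀ a b b', s.m = some (a, b) → s'.m = some (a, b') → False := by
    intro a b b' m1 m2
    rw [e2] at m1
    rw [e2'] at m2
    have g1 : (u.1, some (a, b)) ∈ S.xs i τ := by rw [← m1]; exact hu
    have g2 : (u'.1, some (a, b')) ∈ S.xs i τ := by rw [← m2]; exact hu'
    have := Rs_label h hi g1 g2
    linarith
  refine ⟨⟨?_, ?_⟩, ?_, ?_⟩
  · intro x y hx hx' hy hy' he
    obtain ⟨z, hz, hz', ez⟩ := k1 x hx.le hx'.le
    obtain ⟨w, hw, hw', ew⟩ := k2 y hy hy'
    rw [ez, ew] at he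
    have := (Rs_P_inj he).1
    have := hz' hx hx'
    linarith
  · intro x y hx hx' hy hy' he
    obtain ⟨z, hz, hz', ez⟩ := k1 x hx hx'
    obtain ⟨w, hw, hw', ew⟩ := k2 y hy.le hy'.le
    rw [ez, ew] at he
    have := (Rs_P_inj he).1
    have := hw' hy hy'
    linarith
  · constructor
    · intro he
      rw [e1, e1'] at he
      have := (Rs_P_inj he).1
      linarith
    · rintro ⟨a, b, b', m1, m2⟩
      exact (hlab a b b' m1 m2).elim
  · intro a b b' m1 m2
    exact (hlab a b b' m1 m2).elim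

/-- Edges of the same strand. Proof: the abscissae are ordered (`sorted`), the labels in a strand are different (`nodup_cl`, or `mem_xs` with `uniq`). For `τ = false` `List.pairwise_reverse` and `Rel.symm`. -/
theorem Fam.Ok.pairwise_inner (h : S.Ok) {i : ℕ} (hi : i < S.n) (τ : Bool) : (S.inner i τ).Pairwise Rel := by
  have hz := Rs_zip (fun p : ℝ × Option (ℕ × Bool) => p.1) (S.xs i τ) (h.sorted hi τ)
  cases τ with
  | true =>
    unfold Fam.inner
    simp only [if_true]
    rw [List.pairwise_map]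
    refine hz.imp_of_mem ?_
    rintro ⟨p, q⟩ ⟨p', q'⟩ m1 m2 hle
    exact Rs_same h hi m1 m2 hle (Or.inl ⟨rfl, rfl⟩)
  | false =>
    unfold Fam.inner
    simp only [Bool.false_eq_true, if_false]
    rw [List.pairwise_reverse, List.pairwise_map]
    refine hz.imp_of_mem ?_
    rintro ⟨p, q⟩ ⟨p', q'⟩ m1 m2 hle
    exact (Rs_same h hi m1 m2 hle (Or.inr ⟨rfl, rfl⟩)).symm

end Pool.Agent.SO
end

section

/-!
# Task Ou: the unbounded region
-/

set_option autoImplicit false

namespace Pool.Agent.SO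

variable {S : Fam}

private theorem Ou_strand (h : S.Ok) {i : ℕ} (hi : i < S.n) (τ : Bool) {v : Pt × Option (ℕ × Bool)}
    (hv : v ∈ S.strand i τ) : v.1.2 ≤ S.H + 1 := by
  have key : ∀ τ', v ∈ S.path i τ' → v.1.2 ≤ S.H + 1 := by
    intro τ' hv'
    unfold Fam.path at hv'
    rw [List.mem_map] at hv'
    obtain ⟨p, hp, rfl⟩ := hv'
    have hb := h.xs_bd hi τ' hp
    have h1 := (h.bound i hi τ' p.1 hb.1 hb.2).2
    show S.F i τ' p.1 ≤ S.H + 1
    linarith
  unfold Fam.strand at hv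
  cases τ
  · simp only [Bool.false_eq_true, if_false, List.mem_reverse] at hv
    exact key false hv
  · simp only [if_true] at hv
    exact key true hv

private theorem Ou_H (h : S.Ok) : 0 < S.H := by
  have := h.bound 0 h.n_pos true 0 (by norm_num) (by norm_num)
  linarith [this.1, this.2]

private theorem Ou_le (h : S.Ok) {v : Pt × Option (ℕ × Bool)} (hv : v ∈ S.V) : v.1.2 ≤ S.H + 1 := by
  have hH := Ou_H h
  unfold Fam.V at hv
  simp only [List.mem_append] at hv
  rcases hv with hv | hv | hv | hv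
  · unfold Fam.round1 at hv
    rw [List.mem_flatMap] at hv
    obtain ⟨i, hi, hv⟩ := hv
    exact Ou_strand h (List.mem_range.mp hi) _ hv
  · unfold Fam.frame1 at hv
    simp only [List.mem_cons, List.not_mem_nil, or_false] at hv
    rcases hv with rfl | rfl | rfl | rfl | rfl | rfl | rfl | rfl <;> dsimp only <;> linarith
  · unfold Fam.round2 at hv
    rw [List.mem_flatMap] at hv
    obtain ⟨i, hi, hv⟩ := hv
    exact Ou_strand h (List.mem_range.mp hi) _ hv
  · unfold Fam.frame2 at hv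
    simp only [List.mem_cons, List.not_mem_nil, or_false] at hv
    rcases hv with rfl | rfl <;> dsimp only <;> linarith

private theorem Ou_vtx (h : S.Ok) (j : ℕ) : (vtx S.V j).2 ≤ S.H + 1 := by
  have hH := Ou_H h
  unfold vtx
  rcases Nat.lt_or_ge (j % S.V.length) S.V.length with hj | hj
  · have hmem : S.V.getD (j % S.V.length) (0, none) ∈ S.V := by
      rw [List.getD_eq_getElem _ _ hj]
      exact List.getElem_mem hj
    exact Ou_le h hmem
  · rw [List.getD_eq_default _ _ hj]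
    show (0 : ℝ) ≤ S.H + 1
    linarith

private theorem Ou_curve (h : S.Ok) {z : Pt} (hz : z ∈ curve S.V) : z.2 ≤ S.H + 1 := by
  obtain ⟨j, t, ht0, ht1, rfl⟩ := hz
  have h1 := Ou_vtx h j
  have h2 := Ou_vtx h (j + 1)
  show (vtx S.V j).2 + t * ((vtx S.V (j + 1)).2 - (vtx S.V j).2) ≤ S.H + 1
  nlinarith [mul_nonneg ht0 (sub_nonneg.mpr h2), mul_nonneg (sub_nonneg.mpr ht1) (sub_nonneg.mpr h1)]

private theorem Ou_outside (h : S.Ok) (c y : ℝ) (hy : S.H + 1 < y) : Outside S.V (c, y) := by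
  intro R
  refine ⟨(c, max y (R + 1)), ?_, ?_⟩
  · have h1 : ‖(max y (R + 1) : ℝ)‖ ≤ ‖((c, max y (R + 1)) : Pt)‖ := norm_snd_le ((c, max y (R + 1)) : Pt)
    have h2 : R + 1 ≤ max y (R + 1) := le_max_right _ _
    have h3 : max y (R + 1) ≤ ‖(max y (R + 1) : ℝ)‖ := le_abs_self _
    linarith
  · refine JoinedIn.of_segment_subset ?_
    intro w hw hwc
    have h1 := Ou_curve h hwc
    obtain ⟨a, b, ha, hb, hab, rfl⟩ := hw
    have h2 : y ≤ max y (R + 1) := le_max_left _ _
    have h3 : (a • ((c, y) : Pt) + b • ((c, max y (R + 1)) : Pt)).2 = a * y + b * max y (R + 1) := rfl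
    rw [h3] at h1
    have h4 : a = 1 - b := by linarith
    subst h4
    nlinarith [mul_nonneg hb (sub_nonneg.mpr h2)]

/-- Proof. All vertices of `V` have `y ≤ H + 1` (`bound`), so all points of the curve have `y ≤ H + 1`. The vertex `(-2, H + 1)` of the frame has the number `k = (round1).length + 1`; the number of marked vertices up to it is `(part1 n E).length + 1 = o` (`round1_marks`, `V_marks`, `List.take_append`).
The edge `k` goes from `(-2, H + 1)` to `(3, H + 1)`, its left normal is `(0, 5)`; with `s = 1 / 2` the points `pt V k s + t • nrm true (dir V k) = (1 / 2, H + 1 + 5 t)` are above the curve and are joined by the vertical segment to `(1 / 2, y)` for large `y` (`JoinedIn.of_segment_subset` or similar;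
`‖(1 / 2, y)‖ = max (1 / 2) |y|`). -/
theorem Fam.Ok.outer (h : S.Ok) : ∃ k < S.V.length,
    ((S.V.take (k + 1)).filterMap Prod.snd).length ≡ (redE S.n S.E).o [MOD (redE S.n S.E).w.length] ∧
      ∃ s ε : ℝ, 0 < s ∧ s < 1 ∧ 0 < ε ∧ ∀ t : ℝ, 0 < t → t < ε →
        Outside S.V (pt S.V k s + t • nrm (redE S.n S.E).b (dir S.V k)) := by
  have hlenV : S.V.length = S.round1.length + (8 + (S.round2.length + 2)) := by
    unfold Fam.V Fam.frame1 Fam.frame2
    simp only [List.length_append, List.length_cons, List.length_nil]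
  have hk : S.round1.length + 1 < S.V.length := by omega
  have hk1 : S.round1.length + 1 + 1 < S.V.length := by omega
  refine ⟨S.round1.length + 1, hk, ?_, 1 / 2, 1, by norm_num, by norm_num, one_pos, ?_⟩
  · have htake : S.V.take (S.round1.length + 1 + 1) =
        S.round1 ++ [((-2, S.H), some (0, false)), ((-2, S.H + 1), none)] := by
      unfold Fam.V
      rw [show S.round1.length + 1 + 1 = S.round1.length + 2 from rfl, List.take_length_add_append]
      rfl
    rw [htake, List.filterMap_append, Fam.round1_marks]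
    have h2 : (redE S.n S.E).o = (part1 S.n S.E).length + 1 := rfl
    rw [h2, List.length_append]
    exact Nat.ModEq.refl _
  · intro t ht0 ht1
    have hv1 : vtx S.V (S.round1.length + 1) = (-2, S.H + 1) := by
      unfold vtx
      rw [Nat.mod_eq_of_lt hk]
      unfold Fam.V
      rw [List.getD_append_right _ _ _ _ (by omega), Nat.add_sub_cancel_left]
      rfl
    have hv2 : vtx S.V (S.round1.length + 1 + 1) = (3, S.H + 1) := by
      unfold vtx
      rw [Nat.mod_eq_of_lt hk1]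
      unfold Fam.V
      rw [List.getD_append_right _ _ _ _ (by omega),
        show S.round1.length + 1 + 1 - S.round1.length = 2 by omega]
      rfl
    have hd : dir S.V (S.round1.length + 1) = (5, 0) := by
      unfold dir
      rw [hv1, hv2]
      ext
      · show (3 : ℝ) - -2 = 5
        norm_num
      · show S.H + 1 - (S.H + 1) = 0
        ring
    have hpt : pt S.V (S.round1.length + 1) (1 / 2) +
        t • nrm (redE S.n S.E).b (dir S.V (S.round1.length + 1)) = ((1 / 2 : ℝ), S.H + 1 + 5 * t) := by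
      unfold pt
      rw [hd, hv1]
      ext
      · show (-2 : ℝ) + 1 / 2 * 5 + t * -0 = 1 / 2
        norm_num
      · show S.H + 1 + 1 / 2 * 0 + t * 5 = S.H + 1 + 5 * t
        ring
    rw [hpt]
    exact Ou_outside h _ _ (by linarith)

end Pool.Agent.SO
end
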