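import Pool.Agent.Lib.MP_2f17d2_lc.SO.SgD
import Pool.Agent.Lib.MP_2f17d2_lc.SO.Wd

section

/-!
# Task Sg: drawings in terms of the list of the edges
-/

set_option autoImplicit false

namespace Pool.Agent.SO

theorem length_segs (V : Poly) (z : Pt) : (segs V z).length = V.length := by
  induction V with
  | nil => rfl
  | cons v V ih =>
    cases V with
    | nil => rfl
    | cons v' V =>
      rw [show segs (v :: v' :: V) z = ⟨v.1, v'.1, v.2⟩ :: segs (v' :: V) z from rfl,
        List.length_cons, ih, List.length_cons (a := v)]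

theorem segs_append {A B : Poly} (hB : B ≠ []) (z : Pt) : segs (A ++ B) z = segs A (hd B) ++ segs B z := by
  induction A with
  | nil => rfl
  | cons v A ih =>
    cases A with
    | nil =>
      cases B with
      | nil => exact absurd rfl hB
      | cons b B => rfl
    | cons v' A =>
      show (⟨v.1, v'.1, v.2⟩ : Seg) :: segs ((v' :: A) ++ B) z =
        ⟨v.1, v'.1, v.2⟩ :: (segs (v' :: A) (hd B) ++ segs B z)
      rw [ih]

private theorem Sg_get (V : Poly) (z : Pt) (j : ℕ) (hj : j < V.length) :
    (segs V z)[j]? = some ⟨(V.getD j (0, none)).1,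
      if j + 1 < V.length then (V.getD (j + 1) (0, none)).1 else z, (V.getD j (0, none)).2⟩ := by
  induction V generalizing j with
  | nil => exact absurd hj (Nat.not_lt_zero _)
  | cons v V ih =>
    cases V with
    | nil =>
      have h0 : j = 0 := by
        simp only [List.length_cons, List.length_nil] at hj
        omega
      subst h0
      rfl
    | cons v' V =>
      rw [show segs (v :: v' :: V) z = ⟨v.1, v'.1, v.2⟩ :: segs (v' :: V) z from rfl]
      cases j with
      | zero => simp
      | succ j =>
        have hj' : j < (v' :: V).length := by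
          simp only [List.length_cons] at hj ⊢
          omega
        rw [List.getElem?_cons_succ, ih j hj']
        simp only [List.getD_cons_succ, List.length_cons, Nat.add_lt_add_iff_right]

/-- The edge number `j` of the closed curve. -/
theorem segs_getElem {V : Poly} {j : ℕ} (hj : j < V.length) :
    (segs V (hd V))[j]? = some ⟨vtx V j, vtx V (j + 1), mark V j⟩ := by
  rw [Sg_get V (hd V) j hj]
  unfold vtx mark
  rw [Nat.mod_eq_of_lt hj]
  by_cases h : j + 1 < V.length
  · rw [if_pos h, Nat.mod_eq_of_lt h]
  · rw [if_neg h]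
    have h1 : j + 1 = V.length := by omega
    rw [h1, Nat.mod_self]
    cases V with
    | nil => exact absurd hj (Nat.not_lt_zero _)
    | cons v V => rfl

private def Sg_S (V : Poly) (j : ℕ) : Seg := ⟨vtx V j, vtx V (j + 1), mark V j⟩

private theorem Sg_mod (V : Poly) (j : ℕ) : Sg_S V (j % V.length) = Sg_S V j := by
  unfold Sg_S vtx mark
  rw [Nat.mod_mod, Nat.mod_add_mod]

private theorem Sg_getElem {V : Poly} {j : ℕ} (h : j < (segs V (hd V)).length) :
    (segs V (hd V))[j] = Sg_S V j := by
  have h1 : j < V.length := by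
    rw [length_segs] at h
    exact h
  have h2 := segs_getElem h1
  rw [List.getElem?_eq_getElem h] at h2
  exact Option.some.inj h2

private theorem Sg_mem {V : Poly} (hV : V ≠ []) (j : ℕ) : Sg_S V j ∈ segs V (hd V) := by
  have hn : 0 < V.length := List.length_pos_iff.mpr hV
  rw [← Sg_mod V j]
  have h : j % V.length < (segs V (hd V)).length := by
    rw [length_segs]
    exact Nat.mod_lt _ hn
  rw [← Sg_getElem h]
  exact List.getElem_mem h

private theorem Sg_next {V : Poly} (hV : V ≠ []) (R : Seg → Seg → Prop)
    (next : (segs V (hd V)).IsChain R)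
    (last : ∀ s s', (segs V (hd V)).getLast? = some s → (segs V (hd V)).head? = some s' → R s s')
    (j : ℕ) : R (Sg_S V j) (Sg_S V (j + 1)) := by
  have hn : 0 < V.length := List.length_pos_iff.mpr hV
  have hm : j % V.length < V.length := Nat.mod_lt _ hn
  by_cases h : j % V.length + 1 < V.length
  · have h1 := List.isChain_iff_getElem.mp next (j % V.length) (by
      rw [length_segs]
      exact h)
    rw [Sg_getElem, Sg_getElem, Sg_mod] at h1
    rw [← Sg_mod V (j + 1)]
    have h2 : (j + 1) % V.length = j % V.length + 1 := by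
      rw [← Nat.mod_add_mod, Nat.mod_eq_of_lt h]
    rw [h2]
    exact h1
  · have h1 : j % V.length + 1 = V.length := by omega
    have h2 : (j + 1) % V.length = 0 := by
      rw [← Nat.mod_add_mod, h1, Nat.mod_self]
    rw [← Sg_mod V (j + 1), h2, ← Sg_mod V j]
    refine last _ _ ?_ ?_
    · rw [List.getLast?_eq_getElem?, length_segs]
      have h3 : V.length - 1 = j % V.length := by omega
      rw [h3]
      exact segs_getElem hm
    · rw [List.head?_eq_getElem?]
      exact segs_getElem hn

private theorem Sg_rel {V : Poly} (pair : (segs V (hd V)).Pairwise Rel) {j k : ℕ} (hjk : j < k)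
    (hk : k < V.length) : Rel (Sg_S V j) (Sg_S V k) := by
  have h1 := List.pairwise_iff_getElem.mp pair j k (by
    rw [length_segs]
    omega) (by
    rw [length_segs]
    exact hk) hjk
  rw [Sg_getElem, Sg_getElem] at h1
  exact h1

/-- `Draws` from conditions on the list of the edges. Everything is periodic in `j`, so for `ne`, `flat`, `turn` reduce to `j % V.length` (`vtx V (j + 1)` depends only on `(j + 1) % V.length`,
which is `j % V.length + 1` or `0`). `List.pairwise_iff_getElem`, `List.isChain_iff_getElem`. -/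
theorem draws_of_segs {c : Code} {V : Poly} (len : 3 ≤ V.length) (word : V.filterMap Prod.snd = c.w)
    (twice : ∀ p ∈ c.w, c.w.countP (fun q => q.1 = p.1) = 2)
    (ne : ∀ s ∈ segs V (hd V), s.p ≠ s.q)
    (pair : (segs V (hd V)).Pairwise Rel)
    (next : (segs V (hd V)).IsChain Nxt)
    (last : ∀ s s', (segs V (hd V)).getLast? = some s → (segs V (hd V)).head? = some s' → Nxt s s')
    (outer : ∃ k < V.length, ((V.take (k + 1)).filterMap Prod.snd).length ≡ c.o [MOD c.w.length] ∧
      ∃ s ε : ℝ, 0 < s ∧ s < 1 ∧ 0 < ε ∧ ∀ t : ℝ, 0 < t → t < ε →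
        Outside V (pt V k s + t • nrm c.b (dir V k))) : Draws c V := by
  have hV : V ≠ [] := by
    rintro rfl
    exact absurd len (by decide)
  have hnx := Sg_next hV Nxt next last
  refine ⟨len, word, twice, ?_, ?_, ?_, ?_, ?_, ?_, outer⟩
  · intro j
    exact ne _ (Sg_mem hV j)
  · intro j hj
    exact (hnx j).flat hj
  · intro j
    exact (hnx j).turn
  · intro j k hjk hk
    exact (Sg_rel pair hjk hk).start
  · intro j k hj hk hjk s t hs0 hs1 ht0 ht1
    rcases Nat.lt_or_gt_of_ne hjk with h | h
    · exact (Sg_rel pair h hk).dsj.1 s t hs0 hs1 ht0 ht1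
    · exact fun he => (Sg_rel pair h hj).dsj.2 t s ht0 ht1 hs0 hs1 he.symm
  · intro j k hjk hk a s s' h h'
    exact (Sg_rel pair hjk hk).sign a s s' h h'

theorem allRight_of_segs {V : Poly} (hV : V ≠ []) (next : (segs V (hd V)).IsChain NxtR)
    (last : ∀ s s', (segs V (hd V)).getLast? = some s → (segs V (hd V)).head? = some s' → NxtR s s') :
    AllRight V :=
  fun j => Sg_next hV NxtR next last j

/-- The curve is the union of the edges. -/
theorem mem_curve {V : Poly} {z : Pt} (hV : V ≠ []) :
    z ∈ curve V ↔ ∃ s ∈ segs V (hd V), ∃ t : ℝ, 0 ≤ t ∧ t ≤ 1 ∧ z = s.p + t • s.d := by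
  constructor
  · rintro ⟨j, t, h0, h1, h⟩
    exact ⟨Sg_S V j, Sg_mem hV j, t, h0, h1, h⟩
  · rintro ⟨s, hs, t, h0, h1, h⟩
    obtain ⟨j, hj, rfl⟩ := List.mem_iff_getElem.mp hs
    rw [Sg_getElem] at h
    exact ⟨j, t, h0, h1, h⟩

end Pool.Agent.SO
end

section

/-!
# Task Tw: every label occurs exactly twice
-/

set_option autoImplicit false

namespace Pool.Agent.SO

private def Tw_C (a : ℕ) (L : List (ℕ × Bool)) : ℕ := L.countP (fun q => q.1 = a)

private theorem Tw_sum_range (f : ℕ → ℕ) (n : ℕ) :
    ((List.range n).map f).sum = ∑ i ∈ Finset.range n, f i := by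
  induction n with
  | zero => simp
  | succ n ih => rw [List.range_succ, List.map_append, List.sum_append, ih, Finset.sum_range_succ]; simp

private theorem Tw_C_append (a : ℕ) (L M : List (ℕ × Bool)) : Tw_C a (L ++ M) = Tw_C a L + Tw_C a M := by
  simp [Tw_C, List.countP_append]

private theorem Tw_C_cons (a : ℕ) (q : ℕ × Bool) (M : List (ℕ × Bool)) :
    Tw_C a (q :: M) = (if q.1 = a then 1 else 0) + Tw_C a M := by
  unfold Tw_C
  rw [List.countP_cons]
  by_cases h : q.1 = a <;> simp [h, Nat.add_comm]

private theorem Tw_C_nil (a : ℕ) : Tw_C a [] = 0 := rfl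

private theorem Tw_C_flatMap (a n : ℕ) (f : ℕ → List (ℕ × Bool)) :
    Tw_C a ((List.range n).flatMap f) = ∑ i ∈ Finset.range n, Tw_C a (f i) := by
  unfold Tw_C
  rw [List.countP_flatMap, ← Tw_sum_range]
  rfl

private theorem Tw_C_sw (a n : ℕ) (E : List (ℕ × ℕ)) (i : ℕ) (τ : Bool) :
    Tw_C a (sw n E i τ) = Tw_C a (chain n E i τ) := by
  unfold sw Tw_C
  cases τ
  · simp [List.countP_reverse]
  · simp

private theorem Tw_C_chain (a n : ℕ) (E : List (ℕ × ℕ)) (i : ℕ) (τ : Bool) :
    Tw_C a (chain n E i τ) = (if 1 + 2 * i = a then 1 else 0) +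
      ((∑ e ∈ Finset.range E.length, Tw_C a (mk n i τ e (E.getD e (0, 0)))) + (if 2 + 2 * i = a then 1 else 0)) := by
  unfold chain
  rw [Tw_C_cons, Tw_C_append, Tw_C_cons, Tw_C_nil]
  unfold cl
  rw [Tw_C_flatMap]
  simp

private theorem Tw_C_w (a n : ℕ) (E : List (ℕ × ℕ)) :
    Tw_C a (redE n E).w = (∑ i ∈ Finset.range n, (Tw_C a (chain n E i true) + Tw_C a (chain n E i false))) +
      (if 0 = a then 2 else 0) := by
  have h : (redE n E).w = part1 n E ++ ([(0, false), (0, true)] ++ part2 n E) := rfl
  rw [h, Tw_C_append, Tw_C_append, Tw_C_cons, Tw_C_cons, Tw_C_nil]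
  unfold part1 part2
  rw [Tw_C_flatMap, Tw_C_flatMap]
  have h1 : ∀ i ∈ Finset.range n, Tw_C a (chain n E i true) + Tw_C a (chain n E i false) =
      Tw_C a (sw n E i (decide (i % 2 = 0))) + Tw_C a (sw n E i (decide (i % 2 = 1))) := by
    intro i _
    rw [Tw_C_sw, Tw_C_sw]
    rcases Nat.mod_two_eq_zero_or_one i with h0 | h0
    · simp [h0]
    · simp [h0, Nat.add_comm]
  rw [Finset.sum_congr rfl h1, Finset.sum_add_distrib]
  by_cases h0 : 0 = a
  · rw [if_pos h0, if_pos h0]; ring
  · rw [if_neg h0, if_neg h0]; ring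

private theorem Tw_mk_zero (n i : ℕ) (τ : Bool) (e : ℕ) (q : ℕ × ℕ) (a : ℕ) (ha : a ≤ 2 * n) :
    Tw_C a (mk n i τ e q) = 0 := by
  have hl : ∀ x y, lab n e x y ≠ a := fun x y h => by
    have := lab_gt n e x y
    omega
  unfold mk
  split_ifs
  · simp [Tw_C_cons, Tw_C_nil, hl]
  · simp [Tw_C_cons, Tw_C_nil, hl]
  · rfl

private theorem Tw_mk_lab (n i : ℕ) (τ : Bool) (e e' : ℕ) (q : ℕ × ℕ) (x y : Bool) (hq : q.1 < q.2) :
    Tw_C (lab n e' x y) (mk n i τ e q) =
      if e = e' then ((if q.1 = i ∧ τ = x then 1 else 0) + (if q.2 = i ∧ τ = y then 1 else 0)) else 0 := by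
  unfold mk
  by_cases he : e = e'
  · subst he
    by_cases h1 : q.1 = i
    · have h2 : q.2 ≠ i := by omega
      simp only [h1, h2, if_true, Tw_C_cons, Tw_C_nil, lab_inj]
      cases τ <;> cases x <;> cases y <;> simp
    · by_cases h2 : q.2 = i
      · simp only [h1, h2, if_true, if_false, Tw_C_cons, Tw_C_nil, lab_inj]
        cases τ <;> cases x <;> cases y <;> simp
      · simp [h1, h2, Tw_C_nil]
  · split_ifs
    · simp [Tw_C_cons, Tw_C_nil, lab_inj, he]
    · simp [Tw_C_cons, Tw_C_nil, lab_inj, he]
    · rfl

/-- Proof. The word is, up to the order, the concatenation of the two entries of label `0` and of all `sw n E i τ`, `i < n`, `τ` in `Bool` (the two rounds together contain both types of every wire), so the number of entries with the label `a` is the sum over all `i`, `τ` of the number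
in `chain n E i τ`. For `a = 0`: only the two entries of the loop (all other labels are positive). `a = 1 + 2 i` and `a = 2 + 2 i`: one entry in each of the two strands of the wire `i`, none elsewhere (`lab_gt`). `a = lab n e a' b'` with `E.getD e _ = (i, j)`, `e < E.length`: one entry in `cl n E i a'`, one
entry in `cl n E j b'`, none in the others (`lab_inj`, `i ≠ j`). Every label of the word is one of these. -/
theorem twice_redE {n : ℕ} {E : List (ℕ × ℕ)} (hE : ∀ q ∈ E, q.1 < q.2 ∧ q.2 < n) :
    ∀ p ∈ (redE n E).w, (redE n E).w.countP (fun q => q.1 = p.1) = 2 := by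
  intro p hp
  have hgoal : Tw_C p.1 (redE n E).w = 2 := by
    have hcase : p.1 = 0 ∨ (∃ i, i < n ∧ (p.1 = 1 + 2 * i ∨ p.1 = 2 + 2 * i)) ∨
        ∃ e x y, e < E.length ∧ p.1 = lab n e x y := by
      have hsw : ∀ i τ, i < n → p ∈ sw n E i τ → (∃ i, i < n ∧ (p.1 = 1 + 2 * i ∨ p.1 = 2 + 2 * i)) ∨
        ∃ e x y, e < E.length ∧ p.1 = lab n e x y := by
        intro i τ hi h
        have h' : p ∈ chain n E i τ := by
          unfold sw at h
          cases τ
          · simpa using h
          · simpa using h
        unfold chain at h'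
        rcases List.mem_cons.1 h' with h' | h'
        · left; exact ⟨i, hi, Or.inl (by rw [h'])⟩
        · rcases List.mem_append.1 h' with h' | h'
          · obtain ⟨e, τ', he, h1⟩ := mem_cl h'
            right
            rcases h1 with h1 | h1
            · exact ⟨e, _, _, he, h1.2⟩
            · exact ⟨e, _, _, he, h1.2⟩
          · left
            have : p = (2 + 2 * i, !τ) := by simpa using h'
            exact ⟨i, hi, Or.inr (by rw [this])⟩
      have h : (redE n E).w = part1 n E ++ ([(0, false), (0, true)] ++ part2 n E) := rfl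
      rw [h] at hp
      rcases List.mem_append.1 hp with hp | hp
      · unfold part1 at hp
        obtain ⟨i, hi, hp⟩ := List.mem_flatMap.1 hp
        exact Or.inr (hsw i _ (List.mem_range.1 hi) hp)
      · rcases List.mem_append.1 hp with hp | hp
        · left
          have : p = (0, false) ∨ p = (0, true) := by simpa using hp
          rcases this with h | h <;> rw [h]
        · unfold part2 at hp
          obtain ⟨i, hi, hp⟩ := List.mem_flatMap.1 hp
          exact Or.inr (hsw i _ (List.mem_range.1 hi) hp)
    rw [Tw_C_w]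
    simp only [Tw_C_chain]
    rcases hcase with h | ⟨i, hi, h⟩ | ⟨e, x, y, he, h⟩
    · rw [h]
      simp only [Tw_mk_zero n _ _ _ _ 0 (Nat.zero_le _)]
      simp
    · have hle : p.1 ≤ 2 * n := by omega
      have hp0 : ¬ (0 = p.1) := by omega
      simp only [Tw_mk_zero n _ _ _ _ p.1 hle, Finset.sum_const_zero, hp0, if_false]
      rw [Finset.sum_eq_single i]
      · rcases h with h | h
        · have h2 : ¬ (2 + 2 * i = p.1) := by omega
          rw [if_pos h.symm, if_neg h2]; rfl
        · have h2 : ¬ (1 + 2 * i = p.1) := by omega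
          rw [if_pos h.symm, if_neg h2]; rfl
      · intro j _ hj
        have h1 : ¬ (1 + 2 * j = p.1) := by omega
        have h2 : ¬ (2 + 2 * j = p.1) := by omega
        simp [h1, h2]
      · intro hni
        exact absurd (Finset.mem_range.2 hi) hni
    · have hq : ∀ e', e' < E.length → (E.getD e' (0, 0)).1 < (E.getD e' (0, 0)).2 ∧ (E.getD e' (0, 0)).2 < n := by
        intro e' he'
        have : E.getD e' (0, 0) ∈ E := by
          rw [List.getD_eq_getElem _ _ he']
          exact List.getElem_mem he'
        exact hE _ this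
      have hgt := lab_gt n e x y
      rw [h]
      have hs : ∀ i τ, (∑ e' ∈ Finset.range E.length, Tw_C (lab n e x y) (mk n i τ e' (E.getD e' (0, 0)))) =
          ((if (E.getD e (0, 0)).1 = i ∧ τ = x then 1 else 0) + (if (E.getD e (0, 0)).2 = i ∧ τ = y then 1 else 0)) := by
        intro i τ
        rw [Finset.sum_eq_single e]
        · rw [Tw_mk_lab n i τ e e _ x y (hq e he).1]; simp
        · intro e' he' hne
          rw [Tw_mk_lab n i τ e' e _ x y (hq e' (Finset.mem_range.1 he')).1]
          simp [hne]
        · intro hni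
          exact absurd (Finset.mem_range.2 he) hni
      simp only [hs]
      have h0 : ¬ (0 = lab n e x y) := by omega
      have hA : ∀ i ∈ Finset.range n,
          ((if 1 + 2 * i = lab n e x y then 1 else 0) +
            ((((if (E.getD e (0, 0)).1 = i ∧ true = x then 1 else 0) +
              (if (E.getD e (0, 0)).2 = i ∧ true = y then 1 else 0))) +
            (if 2 + 2 * i = lab n e x y then 1 else 0)) +
          ((if 1 + 2 * i = lab n e x y then 1 else 0) +
            ((((if (E.getD e (0, 0)).1 = i ∧ false = x then 1 else 0) +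
              (if (E.getD e (0, 0)).2 = i ∧ false = y then 1 else 0))) +
            (if 2 + 2 * i = lab n e x y then 1 else 0)))) =
          (if (E.getD e (0, 0)).1 = i then 1 else 0) + (if (E.getD e (0, 0)).2 = i then 1 else 0) := by
        intro i hi
        have hi' := Finset.mem_range.1 hi
        have h1 : ¬ (1 + 2 * i = lab n e x y) := by omega
        have h2 : ¬ (2 + 2 * i = lab n e x y) := by omega
        cases x <;> cases y <;> simp [h1, h2, Nat.add_comm]
      rw [Finset.sum_congr rfl hA, Finset.sum_add_distrib, Finset.sum_ite_eq, Finset.sum_ite_eq]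
      have hm1 : (E.getD e (0, 0)).1 ∈ Finset.range n := Finset.mem_range.2 (by have := hq e he; omega)
      have hm2 : (E.getD e (0, 0)).2 ∈ Finset.range n := Finset.mem_range.2 (by have := hq e he; omega)
      rw [if_pos hm1, if_pos hm2, if_neg h0]
  exact hgoal

end Pool.Agent.SO
end
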