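import Pool.Agent.Lib.MP_2f17d2_lc.SO.Defs

section

/-!
# Task Wi: levels of the wires of a wiring diagram
-/

set_option autoImplicit false

namespace Pool.Agent.SO

variable {n : ℕ} {w : List ℕ}

/-- The level of the wire `i` after `e` crossings. -/
def lvl (n : ℕ) (w : List ℕ) (e i : ℕ) : ℕ := (((w.take e).foldl swp (List.range n))).idxOf i

private theorem Wi_swp_length (σ : List ℕ) (p : ℕ) : (swp σ p).length = σ.length := by
  simp [swp]

private theorem Wi_swp_perm {σ : List ℕ} {p : ℕ} (h : p + 1 < σ.length) : (swp σ p).Perm σ := by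
  unfold swp
  rw [List.getD_eq_getElem σ 0 h, List.getD_eq_getElem σ 0 (by omega : p < σ.length)]
  exact List.set_set_perm (by omega) h

private theorem Wi_swp_get {σ : List ℕ} {p k : ℕ} (h : p + 1 < σ.length) (hk : k < (swp σ p).length) :
    (swp σ p)[k] = if k = p + 1 then σ[p]'(by omega) else if k = p then σ[p + 1] else
      σ[k]'(by rw [Wi_swp_length] at hk; exact hk) := by
  have d1 : σ.getD (p + 1) 0 = σ[p + 1] := List.getD_eq_getElem σ 0 h
  have d2 : σ.getD p 0 = σ[p] := List.getD_eq_getElem σ 0 (by omega : p < σ.length)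
  have e0 : (swp σ p)[k] = if p + 1 = k then σ.getD p 0 else if p = k then σ.getD (p + 1) 0 else
      σ[k]'(by rw [Wi_swp_length] at hk; exact hk) := by
    unfold swp
    rw [List.getElem_set, List.getElem_set]
  rw [e0]
  by_cases h1 : k = p + 1
  · rw [if_pos h1.symm, if_pos h1, d2]
  · rw [if_neg (fun e => h1 e.symm), if_neg h1]
    by_cases h2 : k = p
    · rw [if_pos h2.symm, if_pos h2, d1]
    · rw [if_neg (fun e => h2 e.symm), if_neg h2]

/-- The state after `e` crossings. -/
private def Wi_st (n : ℕ) (w : List ℕ) (e : ℕ) : List ℕ := (w.take e).foldl swp (List.range n)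

private theorem Wi_st_succ {e : ℕ} (he : e < w.length) :
    Wi_st n w (e + 1) = swp (Wi_st n w e) w[e] := by
  unfold Wi_st
  rw [← List.take_append_getElem he, List.foldl_append]
  rfl

private theorem Wi_st_perm (hw : Wiring n w) {e : ℕ} (he : e ≤ w.length) :
    (Wi_st n w e).Perm (List.range n) := by
  induction e with
  | zero => simp [Wi_st]
  | succ e ih =>
    have h1 := ih (by omega)
    rw [Wi_st_succ (by omega)]
    refine (Wi_swp_perm ?_).trans h1
    rw [h1.length_eq, List.length_range]
    exact hw.pos _ (List.getElem_mem _)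

private theorem Wi_st_len (hw : Wiring n w) {e : ℕ} (he : e ≤ w.length) : (Wi_st n w e).length = n := by
  rw [(Wi_st_perm hw he).length_eq, List.length_range]

private theorem Wi_st_nodup (hw : Wiring n w) {e : ℕ} (he : e ≤ w.length) : (Wi_st n w e).Nodup :=
  (Wi_st_perm hw he).nodup_iff.2 List.nodup_range

private theorem Wi_st_mem (hw : Wiring n w) {e i : ℕ} (he : e ≤ w.length) :
    i ∈ Wi_st n w e ↔ i < n := by
  rw [(Wi_st_perm hw he).mem_iff, List.mem_range]

theorem length_evs (σ w : List ℕ) : (evs σ w).length = w.length := by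
  induction w generalizing σ with
  | nil => rfl
  | cons p w ih => simp [evs, ih]

private theorem Wi_evs_get (σ w : List ℕ) {e : ℕ} (he : e < w.length) :
    (evs σ w).getD e (0, 0) = (((w.take e).foldl swp σ).getD w[e] 0,
      ((w.take e).foldl swp σ).getD (w[e] + 1) 0) := by
  induction w generalizing σ e with
  | nil => simp at he
  | cons p w ih =>
    cases e with
    | zero => rfl
    | succ e =>
      have he' : e < w.length := by simpa using he
      have h1 := ih (swp σ p) he'
      simpa [evs] using h1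

private theorem Wi_ev {e : ℕ} (hw : Wiring n w) (he : e < w.length) :
    ∃ h : w[e] + 1 < (Wi_st n w e).length, (evs (List.range n) w).getD e (0, 0) =
      ((Wi_st n w e)[w[e]], (Wi_st n w e)[w[e] + 1]) := by
  have hp : w[e] + 1 < (Wi_st n w e).length := by
    rw [Wi_st_len hw he.le]
    exact hw.pos _ (List.getElem_mem _)
  refine ⟨hp, ?_⟩
  rw [Wi_evs_get _ _ he]
  change ((Wi_st n w e).getD w[e] 0, (Wi_st n w e).getD (w[e] + 1) 0) = _
  rw [List.getD_eq_getElem _ 0 hp, List.getD_eq_getElem _ 0 (by omega : w[e] < (Wi_st n w e).length)]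

/-- The events of a wiring diagram are pairs `a < b < n`. Proof: all entries of the states are `< n`. -/
theorem Wiring.evs_lt (hw : Wiring n w) {e : ℕ} (he : e < (evs (List.range n) w).length) :
    ((evs (List.range n) w).getD e (0, 0)).1 < ((evs (List.range n) w).getD e (0, 0)).2 ∧
      ((evs (List.range n) w).getD e (0, 0)).2 < n := by
  constructor
  · rw [List.getD_eq_getElem _ _ he]
    exact hw.lt _ (List.getElem_mem _)
  · rw [length_evs] at he
    obtain ⟨h, h1⟩ := Wi_ev hw he
    rw [h1]
    exact (Wi_st_mem hw he.le).1 (List.getElem_mem _)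

/-- The number of the crossing of the wires `i < j`. -/
theorem Wiring.exists_ev (hw : Wiring n w) {i j : ℕ} (hij : i < j) (hj : j < n) :
    ∃ e < w.length, (evs (List.range n) w).getD e (0, 0) = (i, j) ∧
      ∀ e' < w.length, (evs (List.range n) w).getD e' (0, 0) = (i, j) → e' = e := by
  have hc := hw.once i j hij hj
  have hmem : (i, j) ∈ evs (List.range n) w := by
    rw [← List.count_pos_iff, hc]
    exact one_pos
  have hlen : (evs (List.range n) w).length = w.length := length_evs _ _
  obtain ⟨e, he, h1⟩ := List.getElem_of_mem hmem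
  have hdup : ¬ List.Duplicate (i, j) (evs (List.range n) w) := by
    intro hd
    have h2 := List.duplicate_iff_two_le_count.1 hd
    have h3 : (instBEqOfDecidableEq : BEq (ℕ × ℕ)) = instBEqProd := lawful_beq_subsingleton _ _
    rw [h3, hc] at h2
    omega
  refine ⟨e, hlen ▸ he, by rw [List.getD_eq_getElem _ _ he, h1], fun e' he' h2 => ?_⟩
  have he'' : e' < (evs (List.range n) w).length := hlen ▸ he'
  rw [List.getD_eq_getElem _ _ he''] at h2
  by_contra hne
  apply hdup
  rw [List.duplicate_iff_exists_distinct_get]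
  rcases lt_or_gt_of_ne hne with h | h
  · exact ⟨⟨e', he''⟩, ⟨e, he⟩, h, h2.symm, h1.symm⟩
  · exact ⟨⟨e, he⟩, ⟨e', he''⟩, h, h1.symm, h2.symm⟩

theorem lvl_zero {i : ℕ} (hi : i < n) : lvl n w 0 i = i := by
  have h1 : i < (List.range n).length := by rwa [List.length_range]
  have h2 := List.nodup_range.idxOf_getElem i h1
  rw [List.getElem_range] at h2
  simpa [lvl] using h2

private theorem Wi_lvl_get (hw : Wiring n w) {e i : ℕ} (he : e ≤ w.length) (hi : i < n) :
    ∃ h : lvl n w e i < (Wi_st n w e).length, (Wi_st n w e)[lvl n w e i] = i := by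
  have h1 : lvl n w e i < (Wi_st n w e).length :=
    List.idxOf_lt_length_iff.2 ((Wi_st_mem hw he).2 hi)
  exact ⟨h1, List.getElem_idxOf h1⟩

private theorem Wi_lvl_of (hw : Wiring n w) {e i k : ℕ} (he : e ≤ w.length)
    (hk : k < (Wi_st n w e).length) (h : (Wi_st n w e)[k] = i) : lvl n w e i = k := by
  have h1 := (Wi_st_nodup hw he).idxOf_getElem k hk
  rw [h] at h1
  exact h1

/-- The states are permutations of `List.range n`, `swp` is a permutation if `p + 1 < length`. -/
theorem Wiring.lvl_lt (hw : Wiring n w) {e i : ℕ} (he : e ≤ w.length) (hi : i < n) : lvl n w e i < n := by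
  obtain ⟨h1, -⟩ := Wi_lvl_get hw he hi
  rwa [Wi_st_len hw he] at h1

theorem Wiring.lvl_inj (hw : Wiring n w) {e i j : ℕ} (he : e ≤ w.length) (hi : i < n) (hj : j < n)
    (h : lvl n w e i = lvl n w e j) : i = j := by
  obtain ⟨h1, h2⟩ := Wi_lvl_get hw he hi
  obtain ⟨h3, h4⟩ := Wi_lvl_get hw he hj
  rw [← h2, ← h4]
  congr 1

/-- At the crossing number `e` of the wires `a` and `b`: `b` is at the level above `a` before, and they interchange their levels; the other wires keep
their levels. -/
theorem Wiring.lvl_step (hw : Wiring n w) {e : ℕ} (he : e < w.length) {a b : ℕ}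
    (hab : (evs (List.range n) w).getD e (0, 0) = (a, b)) :
    lvl n w e b = lvl n w e a + 1 ∧ lvl n w (e + 1) a = lvl n w e b ∧ lvl n w (e + 1) b = lvl n w e a ∧
      ∀ i, i < n → i ≠ a → i ≠ b → lvl n w (e + 1) i = lvl n w e i := by
  obtain ⟨hp, h1⟩ := Wi_ev hw he
  rw [hab] at h1
  have ha : (Wi_st n w e)[w[e]] = a := (congrArg Prod.fst h1).symm
  have hb : (Wi_st n w e)[w[e] + 1] = b := (congrArg Prod.snd h1).symm
  have hla : lvl n w e a = w[e] := Wi_lvl_of hw he.le (by omega) ha
  have hlb : lvl n w e b = w[e] + 1 := Wi_lvl_of hw he.le hp hb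
  have hlen : (swp (Wi_st n w e) w[e]).length = (Wi_st n w e).length := Wi_swp_length _ _
  have hst := Wi_st_succ (n := n) he
  have hlen' : (Wi_st n w (e + 1)).length = (Wi_st n w e).length := by rw [hst, hlen]
  have hget : ∀ k (hk : k < (Wi_st n w (e + 1)).length), (Wi_st n w (e + 1))[k] =
      if k = w[e] + 1 then a else if k = w[e] then b else (Wi_st n w e)[k]'(by omega) := by
    intro k hk
    have h2 : (Wi_st n w (e + 1))[k] = (swp (Wi_st n w e) w[e])[k]'(by rw [hlen]; omega) := by
      simp only [hst]
    rw [h2, Wi_swp_get hp, ha, hb]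
  refine ⟨by rw [hla, hlb], ?_, ?_, fun i hi hia hib => ?_⟩
  · rw [hlb]
    refine Wi_lvl_of hw he (by omega) ?_
    rw [hget _ (by omega), if_pos rfl]
  · rw [hla]
    refine Wi_lvl_of hw he (by omega) ?_
    rw [hget _ (by omega), if_neg (by omega), if_pos rfl]
  · obtain ⟨h3, h4⟩ := Wi_lvl_get hw he.le hi
    refine Wi_lvl_of hw he (by omega) ?_
    have hna : lvl n w e i ≠ w[e] := fun h5 => hia (hw.lvl_inj he.le hi
      (by rw [← ha]; exact (Wi_st_mem hw he.le).1 (List.getElem_mem _)) (by rw [h5, hla]))
    have hnb : lvl n w e i ≠ w[e] + 1 := fun h5 => hib (hw.lvl_inj he.le hi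
      (by rw [← hb]; exact (Wi_st_mem hw he.le).1 (List.getElem_mem _)) (by rw [h5, hlb]))
    rw [hget _ (by omega), if_neg hnb, if_neg hna, h4]

/-- Before their crossing `e`, the wire `i < j` is below `j`, afterwards above. Proof: induction on `e'` with `lvl_step`: the order of `i` and `j` only changes if the event
number `e'` is `(i, j)` (an event `(i, b)` with `b ≠ j` moves `i` by one level up, and `j` is not at this level by `lvl_inj`). -/
theorem Wiring.lvl_lt_iff (hw : Wiring n w) {i j e : ℕ} (hij : i < j) (hj : j < n) (he : e < w.length)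
    (h : (evs (List.range n) w).getD e (0, 0) = (i, j)) {e' : ℕ} (he' : e' ≤ w.length) :
    lvl n w e' i < lvl n w e' j ↔ e' ≤ e := by
  have hi : i < n := hij.trans hj
  induction e' with
  | zero =>
    rw [lvl_zero hi, lvl_zero hj]
    exact ⟨fun _ => Nat.zero_le _, fun _ => hij⟩
  | succ k ih =>
    have hk : k < w.length := he'
    have hih := ih hk.le
    rcases hab : (evs (List.range n) w).getD k (0, 0) with ⟨a, b⟩
    obtain ⟨hlt, hbn⟩ := hw.evs_lt (e := k) (by rw [length_evs]; exact hk)
    rw [hab] at hlt hbn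
    have hlt' : a < b := hlt
    have hbn' : b < n := hbn
    have han : a < n := hlt'.trans hbn'
    clear hlt hbn
    obtain ⟨s1, s2, s3, s4⟩ := hw.lvl_step hk hab
    have inj : ∀ {x y : ℕ}, x < n → y < n → x ≠ y → lvl n w k x ≠ lvl n w k y := fun hx hy hne h' =>
      hne (hw.lvl_inj hk.le hx hy h')
    by_cases hevt : a = i ∧ b = j
    · obtain ⟨rfl, rfl⟩ := hevt
      obtain ⟨e₀, -, -, h2⟩ := hw.exists_ev hij hj
      have h3 : k = e := (h2 k hk hab).trans (h2 e he h).symm
      omega
    · have hke : k ≠ e := by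
        rintro rfl
        rw [hab] at h
        exact hevt ⟨congrArg Prod.fst h, congrArg Prod.snd h⟩
      have hgoal : lvl n w (k + 1) i < lvl n w (k + 1) j ↔ lvl n w k i < lvl n w k j := by
        by_cases h1 : i = a
        · subst h1
          have hjb : j ≠ b := fun e => hevt ⟨rfl, e.symm⟩
          have h5 := s4 j hj (by omega) hjb
          have h6 := inj hj hbn' hjb
          have h7 := inj hi hj (by omega)
          omega
        · by_cases h2 : i = b
          · subst h2
            have h5 := s4 j hj (by omega) (by omega)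
            have h6 := inj hj han (by omega)
            have h7 := inj hi hj (by omega)
            omega
          · have h8 := s4 i hi h1 h2
            by_cases h3 : j = a
            · subst h3
              have h6 := inj hi hbn' h2
              have h7 := inj hi hj (by omega)
              omega
            · by_cases h4 : j = b
              · subst h4
                have h6 := inj hi han h1
                have h7 := inj hi hj (by omega)
                omega
              · have h9 := s4 j hj h3 h4
                omega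
      refine (hgoal.trans hih).trans ?_
      omega

/-- For three wires `i < j < k` the crossing of `i` and `k` is between the two others. Proof: at the moment `e₂` the wires `i`, `k` are at neighbouring levels, `i` below;
so `j` is below `i` or above `k`. If `j` is below `i`, then `lvl_lt_iff` gives `e₁ < e₂` (for `i, j`) and `e₂ ≤ e₃` (for `j, k`); if `j` is above `k`
then `e₂ ≤ e₁` and `e₃ < e₂`. -/
theorem Wiring.triple (hw : Wiring n w) {i j k e₁ e₂ e₃ : ℕ} (hij : i < j) (hjk : j < k) (hk : k < n)
    (h₁ : e₁ < w.length) (h₂ : e₂ < w.length) (h₃ : e₃ < w.length)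
    (e1 : (evs (List.range n) w).getD e₁ (0, 0) = (i, j)) (e2 : (evs (List.range n) w).getD e₂ (0, 0) = (i, k))
    (e3 : (evs (List.range n) w).getD e₃ (0, 0) = (j, k)) :
    (e₁ < e₂ ∧ e₂ < e₃) ∨ (e₃ < e₂ ∧ e₂ < e₁) := by
  have hj : j < n := hjk.trans hk
  have hi : i < n := hij.trans hj
  obtain ⟨s1, -, -, -⟩ := hw.lvl_step h₂ e2
  have a1 := hw.lvl_lt_iff hij hj h₁ e1 h₂.le
  have a3 := hw.lvl_lt_iff hjk hk h₃ e3 h₂.le
  have n1 : lvl n w e₂ j ≠ lvl n w e₂ i := fun h => by
    have := hw.lvl_inj h₂.le hj hi h
    omega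
  have n3 : lvl n w e₂ j ≠ lvl n w e₂ k := fun h => by
    have := hw.lvl_inj h₂.le hj hk h
    omega
  have d1 : e₁ ≠ e₂ := by
    rintro rfl
    rw [e1] at e2
    have := congrArg Prod.snd e2
    simp only at this
    omega
  have d3 : e₃ ≠ e₂ := by
    rintro rfl
    rw [e3] at e2
    have := congrArg Prod.fst e2
    simp only at this
    omega
  by_cases hc : lvl n w e₂ j < lvl n w e₂ i
  · left
    have b1 : ¬ e₂ ≤ e₁ := fun h => by
      have := a1.2 h
      omega
    have b3 : e₂ ≤ e₃ := a3.1 (by omega)
    omega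
  · right
    have b1 : e₂ ≤ e₁ := a1.1 (by omega)
    have b3 : ¬ e₂ ≤ e₃ := fun h => by
      have := a3.2 h
      omega
    omega

end Pool.Agent.SO
end

section

/-!
# Simple closed polygons without left turns: the definition
-/

set_option autoImplicit false

namespace Pool.Agent.SO

/-- `Q` is the (periodic) sequence of the vertices of a simple closed polygon which at every vertex goes straight on or turns to
the right. -/
structure CC (Q : ℤ → Pt) (M : ℕ) : Prop where
  two : 2 ≤ M
  per : ∀ i : ℤ, Q (i + M) = Q i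
  inj : ∀ i j : ℤ, i < j → j < i + M → Q i ≠ Q j
  turn : ∀ i : ℤ, Same (Q i - Q (i - 1)) (Q (i + 1) - Q i) ∨ cr (Q i - Q (i - 1)) (Q (i + 1) - Q i) < 0
  edge : ∀ i j : ℤ, i < j → j < i + M → ∀ s t : ℝ, 0 < s → s < 1 → 0 ≤ t → t ≤ 1 →
    Q i + s • (Q (i + 1) - Q i) ≠ Q j + t • (Q (j + 1) - Q j)

/-- The polygon really turns at the vertex `i`. -/
def StrictAt (Q : ℤ → Pt) (i : ℤ) : Prop := cr (Q i - Q (i - 1)) (Q (i + 1) - Q i) < 0

end Pool.Agent.SO
end
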