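import Mathlib
import Pool.Agent.Lib.MP_2f17d2_lc.SO.Defs

section

/-!
# Task Ex: the lowest peak of a periodic sequence and its neighbours
-/

set_option autoImplicit false

namespace Pool.Agent.SO

/-- `b` is a peak of the sequence `y`. -/
def Peak (y : ℤ → ℝ) (b : ℤ) : Prop := y (b - 1) < y b ∧ y (b + 1) < y b

/-- Between two neighbouring peaks there is exactly one valley. -/
private theorem Ex_valley {y : ℤ → ℝ} (gen : ∀ i, y i ≠ y (i + 1)) {p q : ℤ} (hpq : p < q)
    (hp : Peak y p) (hq : Peak y q) (hno : ∀ i, p < i → i < q → ¬ Peak y i) :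
    ∃ d, p < d ∧ d < q ∧ (∀ i, p ≤ i → i < d → y (i + 1) < y i) ∧
      (∀ i, d ≤ i → i < q → y i < y (i + 1)) := by
  classical
  have hne : p ≠ q - 1 := by
    intro h
    have h1 := hp.2
    have h2 := hq.1
    have h3 : p + 1 = q := by omega
    rw [h3] at h1
    rw [← h] at h2
    exact lt_asymm h1 h2
  have hex : ∃ k : ℕ, ¬ (y (p + k + 1) < y (p + k)) := by
    refine ⟨(q - 1 - p).toNat, ?_⟩
    have h1 : ((q - 1 - p).toNat : ℤ) = q - 1 - p := Int.toNat_of_nonneg (by omega)
    rw [h1, show p + (q - 1 - p) + 1 = q by ring, show p + (q - 1 - p) = q - 1 by ring]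
    exact not_lt.2 hq.1.le
  have hspec := Nat.find_spec hex
  have hmin : ∀ j : ℕ, j < Nat.find hex → y (p + j + 1) < y (p + j) := by
    intro j hj
    by_contra h
    exact Nat.find_min hex hj h
  have hk0 : Nat.find hex ≠ 0 := by
    intro h0
    rw [h0] at hspec
    apply hspec
    have := hp.2
    simpa using this
  have hkle : Nat.find hex ≤ (q - 1 - p).toNat := by
    apply Nat.find_min'
    have h1 : ((q - 1 - p).toNat : ℤ) = q - 1 - p := Int.toNat_of_nonneg (by omega)
    rw [h1, show p + (q - 1 - p) + 1 = q by ring, show p + (q - 1 - p) = q - 1 by ring]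
    exact not_lt.2 hq.1.le
  generalize Nat.find hex = k at hspec hmin hk0 hkle
  have hdq : p + (k : ℤ) < q := by omega
  have hpd : p < p + (k : ℤ) := by omega
  refine ⟨p + k, hpd, hdq, ?_, ?_⟩
  · intro i hi1 hi2
    have h1 := hmin (i - p).toNat (by omega)
    have h2 : ((i - p).toNat : ℤ) = i - p := Int.toNat_of_nonneg (by omega)
    rw [h2, show p + (i - p) = i by ring] at h1
    exact h1
  · have hd : y (p + k) < y (p + k + 1) := lt_of_le_of_ne (not_lt.1 hspec) (gen _)
    intro i hi
    induction i, hi using Int.le_induction with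
    | base => intro _; exact hd
    | succ i hi ih =>
      intro hiq
      have h1 := ih (by omega)
      have h2 := hno (i + 1) (by omega) hiq
      refine lt_of_le_of_ne (not_lt.1 fun h3 => h2 ⟨?_, h3⟩) (gen _)
      rw [show i + 1 - 1 = i by ring]
      exact h1

/-- A periodic sequence without equal neighbours which has two peaks that are different modulo the period has a peak `b`, not
higher than the peak `c` before it and the peak `e` after it, with the valleys `a` and `d` between them.

Proof. Among the finitely many peaks in `[0, M)` choose the lowest one; by periodicity it is a lowest peak `b` of all; there is a peak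
which is different from `b` modulo `M` (one of the two given ones), hence by translation peaks in `(b - M, b)` and in `(b, b + M)`.
Let `e` be the smallest peak larger than `b` (so `e < b + M`) and `c` the largest peak smaller than `b` (so `b - M < c`). Let `d > b` be
maximal such that `y` falls from `b` to `d` (`y (i + 1) < y i` for `b ≤ i < d`); it exists and `d < e`, since `y` rises from `e - 1` to `e`.
From `d` on `y` rises up to `e`: `y d < y (d + 1)` by maximality; if `y (i - 1) < y i` and `d < i < e` then `y i < y (i + 1)`, as `i` is not a peak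
and neighbours are different. In the same way, `a` is the minimal number such that `y` rises from `a` to `b`, `c < a`, and `y` falls from
`c` to `a`. `d < c + M`: `c + M` is a peak and `b < c + M`, so `e ≤ c + M`; in the same way `e - M ≤ c`, so `e < a + M`. -/
theorem exists_peaks {y : ℤ → ℝ} {M : ℕ} (hM : 0 < M) (per : ∀ i, y (i + M) = y i) (gen : ∀ i, y i ≠ y (i + 1))
    {b₁ b₂ : ℤ} (h₁ : Peak y b₁) (h₂ : Peak y b₂) (hne : ¬ (M : ℤ) ∣ b₁ - b₂) :
    ∃ c a b d e : ℤ, c < a ∧ a < b ∧ b < d ∧ d < e ∧ d < c + M ∧ e < a + M ∧
      (∀ i, c ≤ i → i < a → y (i + 1) < y i) ∧ (∀ i, a ≤ i → i < b → y i < y (i + 1)) ∧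
      (∀ i, b ≤ i → i < d → y (i + 1) < y i) ∧ (∀ i, d ≤ i → i < e → y i < y (i + 1)) ∧
      y b ≤ y c ∧ y b ≤ y e := by
  classical
  have perk : ∀ (k : ℕ) (i : ℤ), y (i + k * M) = y i := by
    intro k
    induction k with
    | zero => intro i; simp
    | succ k ih =>
      intro i
      rw [show i + ((k + 1 : ℕ) : ℤ) * M = (i + k * M) + M by push_cast; ring, per, ih]
  have perz : ∀ (k i : ℤ), y (i + k * M) = y i := by
    intro k i
    rcases Int.eq_nat_or_neg k with ⟨n, rfl | rfl⟩
    · exact perk n i
    · rw [← perk n (i + -(n : ℤ) * M)]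
      congr 1
      ring
  have pk : ∀ (k i : ℤ), Peak y i → Peak y (i + k * M) := by
    rintro k i ⟨h1, h2⟩
    refine ⟨?_, ?_⟩
    · rw [show i + k * M - 1 = (i - 1) + k * M by ring, perz, perz]
      exact h1
    · rw [show i + k * M + 1 = (i + 1) + k * M by ring, perz, perz]
      exact h2
  have hM' : (0 : ℤ) < M := by exact_mod_cast hM
  -- the residue of a peak
  have hres : ∀ i, Peak y i → Peak y (i % M) ∧ y (i % M) = y i := by
    intro i hi
    have h1 : i % (M : ℤ) = i + (-(i / M)) * M := by
      rw [Int.emod_def]
      ring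
    rw [h1]
    exact ⟨pk _ _ hi, perz _ _⟩
  -- the lowest peak
  obtain ⟨b, hb, hbmin⟩ : ∃ b, Peak y b ∧ ∀ i, Peak y i → y b ≤ y i := by
    have hne' : ((Finset.Ico (0 : ℤ) M).filter fun i => Peak y i).Nonempty :=
      ⟨b₁ % M, Finset.mem_filter.2 ⟨Finset.mem_Ico.2 ⟨Int.emod_nonneg _ hM'.ne',
        Int.emod_lt_of_pos _ hM'⟩, (hres _ h₁).1⟩⟩
    obtain ⟨b, hbm, hb⟩ := Finset.exists_min_image _ y hne'
    refine ⟨b, (Finset.mem_filter.1 hbm).2, fun i hi => ?_⟩
    rw [← (hres i hi).2]
    exact hb _ (Finset.mem_filter.2 ⟨Finset.mem_Ico.2 ⟨Int.emod_nonneg _ hM'.ne',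
        Int.emod_lt_of_pos _ hM'⟩, (hres _ hi).1⟩)
  -- a peak which is different modulo the period
  obtain ⟨q, hq, hqb⟩ : ∃ q, Peak y q ∧ ¬ (M : ℤ) ∣ q - b := by
    by_contra hcon
    push Not at hcon
    have hd1 := hcon b₁ h₁
    have hd2 := hcon b₂ h₂
    apply hne
    have h3 := dvd_sub hd1 hd2
    rwa [show b₁ - b - (b₂ - b) = b₁ - b₂ by ring] at h3
  have hr0 : 0 < (q - b) % M := lt_of_le_of_ne (Int.emod_nonneg _ hM'.ne')
    (fun h => hqb (Int.dvd_of_emod_eq_zero h.symm))
  have hrM : (q - b) % M < M := Int.emod_lt_of_pos _ hM'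
  have hp1 : Peak y (b + (q - b) % M) := by
    have h1 : b + (q - b) % (M : ℤ) = q + (-((q - b) / M)) * M := by
      rw [Int.emod_def]
      ring
    rw [h1]
    exact pk _ _ hq
  have hp2 : Peak y (b + (q - b) % M - M) := by
    have h1 := pk (-1) _ hp1
    rwa [show b + (q - b) % (M : ℤ) + -1 * M = b + (q - b) % M - M by ring] at h1
  -- the next peak
  obtain ⟨e, hbe, he, heM, hemin⟩ : ∃ e, b < e ∧ Peak y e ∧ e < b + M ∧
      ∀ i, b < i → Peak y i → e ≤ i := by
    have hex : ∃ n : ℕ, Peak y (b + 1 + n) := by
      refine ⟨((q - b) % M - 1).toNat, ?_⟩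
      rw [Int.toNat_of_nonneg (by omega), show b + 1 + ((q - b) % (M : ℤ) - 1) = b + (q - b) % M
        by ring]
      exact hp1
    have hle : ∀ i, b < i → Peak y i → b + 1 + (Nat.find hex : ℤ) ≤ i := by
      intro i hi hpi
      have h1 : Nat.find hex ≤ (i - b - 1).toNat := by
        apply Nat.find_min'
        rw [Int.toNat_of_nonneg (by omega), show b + 1 + (i - b - 1) = i by ring]
        exact hpi
      omega
    refine ⟨b + 1 + Nat.find hex, by omega, Nat.find_spec hex, ?_, hle⟩
    have := hle _ (by omega) hp1
    omega
  -- the previous peak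
  obtain ⟨c, hcb, hc, hcM, hcmax⟩ : ∃ c, c < b ∧ Peak y c ∧ b - M < c ∧
      ∀ i, i < b → Peak y i → i ≤ c := by
    have hex : ∃ n : ℕ, Peak y (b - 1 - n) := by
      refine ⟨(M - (q - b) % M - 1).toNat, ?_⟩
      rw [Int.toNat_of_nonneg (by omega), show b - 1 - ((M : ℤ) - (q - b) % (M : ℤ) - 1) =
        b + (q - b) % M - M by ring]
      exact hp2
    have hle : ∀ i, i < b → Peak y i → i ≤ b - 1 - (Nat.find hex : ℤ) := by
      intro i hi hpi
      have h1 : Nat.find hex ≤ (b - 1 - i).toNat := by
        apply Nat.find_min'
        rw [Int.toNat_of_nonneg (by omega), show b - 1 - (b - 1 - i) = i by ring]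
        exact hpi
      omega
    refine ⟨b - 1 - Nat.find hex, by omega, Nat.find_spec hex, ?_, hle⟩
    have := hle _ (by omega) hp2
    omega
  have hcM' : e ≤ c + M := by
    apply hemin _ (by omega)
    have := pk 1 _ hc
    rwa [one_mul] at this
  obtain ⟨a, hca, hab, ha1, ha2⟩ := Ex_valley gen hcb hc hb (by
    intro i h1 h2 h3
    have := hcmax i h2 h3
    omega)
  obtain ⟨d, hbd, hde, hd1, hd2⟩ := Ex_valley gen hbe hb he (by
    intro i h1 h2 h3
    have := hemin i h1 h3
    omega)
  exact ⟨c, a, b, d, e, hca, hab, hbd, hde, by omega, by omega, ha1, ha2, hd1, hd2,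
    hbmin c hc, hbmin e he⟩

end Pool.Agent.SO
end

section

/-!
# Task Ix: the marked vertices of a polygonal curve are numbered by its word
-/

set_option autoImplicit false

namespace Pool.Agent.SO

private theorem Ix_aux {α β : Type} (d : α) (V : List (α × Option β)) : ∃ ix : ℕ → ℕ,
    (∀ k, k < (V.filterMap Prod.snd).length → ix k < V.length ∧
      (V.getD (ix k) (d, none)).2 = (V.filterMap Prod.snd)[k]?) ∧
    (∀ k k', k < k' → k' < (V.filterMap Prod.snd).length → ix k < ix k') ∧
    (∀ j, j < V.length → (V.getD j (d, none)).2 ≠ none →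
      ∃ k, k < (V.filterMap Prod.snd).length ∧ ix k = j) ∧
    (∀ j, j < V.length → ∀ k, k < (V.filterMap Prod.snd).length →
      (((V.take (j + 1)).filterMap Prod.snd).length = k + 1 ↔
        ix k ≤ j ∧ (k + 1 < (V.filterMap Prod.snd).length → j < ix (k + 1)))) := by
  induction V using List.reverseRecOn with
  | nil => exact ⟨id, by simp, by simp, by simp, by simp⟩
  | append_singleton V x ih =>
    obtain ⟨ix, h1, h2, h3, h4⟩ := ih
    have hgl : ∀ j, j < V.length → (V ++ [x]).getD j (d, none) = V.getD j (d, none) := by
      intro j hj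
      simp [List.getD_eq_getElem?_getD, List.getElem?_append_left hj]
    have hgr : (V ++ [x]).getD V.length (d, none) = x := by
      simp [List.getD_eq_getElem?_getD]
    have htl : ∀ j, j < V.length → (V ++ [x]).take (j + 1) = V.take (j + 1) := by
      intro j hj
      exact List.take_append_of_le_length (by omega)
    have htr : (V ++ [x]).take (V.length + 1) = V ++ [x] := by
      apply List.take_of_length_le; simp
    have hle : ∀ j, ((V.take (j + 1)).filterMap Prod.snd).length ≤ (V.filterMap Prod.snd).length := by
      intro j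
      exact ((List.take_sublist (j + 1) V).filterMap Prod.snd).length_le
    have hlen : (V ++ [x]).length = V.length + 1 := by simp
    rcases hx : x.2 with _ | b
    · have hf : (V ++ [x]).filterMap Prod.snd = V.filterMap Prod.snd := by
        simp [List.filterMap_append, hx]
      refine ⟨ix, ?_, ?_, ?_, ?_⟩
      · intro k hk
        rw [hf] at hk ⊢
        obtain ⟨h5, h6⟩ := h1 k hk
        exact ⟨by omega, by rw [hgl _ h5, h6]⟩
      · intro k k' hkk hk
        rw [hf] at hk
        exact h2 k k' hkk hk
      · intro j hj hne
        rw [hf]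
        rcases Nat.lt_or_ge j V.length with hj' | hj'
        · rw [hgl _ hj'] at hne
          exact h3 j hj' hne
        · have : j = V.length := by omega
          subst this
          rw [hgr] at hne
          exact absurd hx hne
      · intro j hj k hk
        rw [hf] at hk ⊢
        rcases Nat.lt_or_ge j V.length with hj' | hj'
        · rw [htl _ hj']
          exact h4 j hj' k hk
        · have : j = V.length := by omega
          subst this
          rw [htr, hf]
          constructor
          · intro h
            exact ⟨(h1 k hk).1.le, fun h' => by omega⟩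
          · rintro ⟨-, h⟩
            by_contra hne
            have hk' : k + 1 < (V.filterMap Prod.snd).length := by omega
            have := h hk'
            have := (h1 _ hk').1
            omega
    · have hf : (V ++ [x]).filterMap Prod.snd = V.filterMap Prod.snd ++ [b] := by
        simp [List.filterMap_append, hx]
      have hfl : ((V ++ [x]).filterMap Prod.snd).length = (V.filterMap Prod.snd).length + 1 := by
        rw [hf]; simp
      refine ⟨fun k => if k < (V.filterMap Prod.snd).length then ix k else V.length, ?_, ?_, ?_, ?_⟩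
      · intro k hk
        rw [hfl] at hk
        by_cases hk' : k < (V.filterMap Prod.snd).length
        · obtain ⟨h5, h6⟩ := h1 k hk'
          simp only [hk', if_true]
          refine ⟨by omega, ?_⟩
          rw [hgl _ h5, h6, hf, List.getElem?_append_left hk']
        · have : k = (V.filterMap Prod.snd).length := by omega
          subst this
          simp only [lt_irrefl, if_false]
          refine ⟨by omega, ?_⟩
          rw [hgr, hf, hx]
          simp
      · intro k k' hkk hk
        rw [hfl] at hk
        have hk0 : k < (V.filterMap Prod.snd).length := by omega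
        by_cases hk' : k' < (V.filterMap Prod.snd).length
        · simp only [hk', hk0, if_true]
          exact h2 k k' hkk hk'
        · simp only [hk', hk0, if_true, if_false]
          exact (h1 k hk0).1
      · intro j hj hne
        rw [hfl]
        rcases Nat.lt_or_ge j V.length with hj' | hj'
        · rw [hgl _ hj'] at hne
          obtain ⟨k, hk, hk2⟩ := h3 j hj' hne
          exact ⟨k, by omega, by simp only [hk, if_true]; exact hk2⟩
        · exact ⟨(V.filterMap Prod.snd).length, by omega, by simp only [lt_irrefl, if_false]; omega⟩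
      · intro j hj k hk
        rw [hfl] at hk ⊢
        rcases Nat.lt_or_ge j V.length with hj' | hj'
        · rw [htl _ hj']
          by_cases hk' : k < (V.filterMap Prod.snd).length
          · rw [h4 j hj' k hk']
            by_cases hk2 : k + 1 < (V.filterMap Prod.snd).length
            · simp only [hk', hk2, if_true]
              constructor
              · rintro ⟨a, c⟩; exact ⟨a, fun _ => c trivial⟩
              · rintro ⟨a, c⟩; exact ⟨a, fun _ => c (by omega)⟩
            · simp only [hk', hk2, if_true, if_false]
              constructor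
              · rintro ⟨a, c⟩; exact ⟨a, fun _ => hj'⟩
              · rintro ⟨a, c⟩; exact ⟨a, fun h => h.elim⟩
          · simp only [hk', if_false]
            have := hle j
            constructor
            · intro h; omega
            · rintro ⟨a, -⟩; omega
        · have : j = V.length := by omega
          subst this
          rw [htr, hfl]
          by_cases hk' : k < (V.filterMap Prod.snd).length
          · simp only [hk', if_true]
            constructor
            · intro h; omega
            · rintro ⟨-, h⟩
              have h5 := h (by omega)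
              split_ifs at h5 with h6
              · have := (h1 _ h6).1; omega
              · omega
          · simp only [hk', if_false]
            constructor
            · intro h; exact ⟨le_rfl, fun h' => by omega⟩
            · intro _; omega

/-- Proof: induction on `V` (or reverse induction), from the definition of `List.filterMap`: for a statement without cyclic indices use `V[j]?`; `mark V j` for
`j < V.length` is `(V.getD j (0, none)).2`. -/
theorem exists_ix (V : Poly) : ∃ ix : ℕ → ℕ,
    (∀ k, k < (V.filterMap Prod.snd).length → ix k < V.length ∧ mark V (ix k) = (V.filterMap Prod.snd)[k]?) ∧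
    (∀ k k', k < k' → k' < (V.filterMap Prod.snd).length → ix k < ix k') ∧
    (∀ j, j < V.length → mark V j ≠ none → ∃ k, k < (V.filterMap Prod.snd).length ∧ ix k = j) ∧
    (∀ j, j < V.length → ∀ k, k < (V.filterMap Prod.snd).length →
      (((V.take (j + 1)).filterMap Prod.snd).length = k + 1 ↔
        ix k ≤ j ∧ (k + 1 < (V.filterMap Prod.snd).length → j < ix (k + 1)))) := by
  obtain ⟨ix, h1, h2, h3, h4⟩ := Ix_aux (0 : Pt) V
  have hm : ∀ j, j < V.length → mark V j = (V.getD j (0, none)).2 := by
    intro j hj
    rw [mark, Nat.mod_eq_of_lt hj]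
  refine ⟨ix, fun k hk => ⟨(h1 k hk).1, ?_⟩, h2, fun j hj hne => h3 j hj ?_, h4⟩
  · rw [hm _ (h1 k hk).1]; exact (h1 k hk).2
  · rw [← hm _ hj]; exact hne

end Pool.Agent.SO
end
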