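import Pool.Agent.Lib.MP_2f17d2_lc.Mg.G005
import Pool.Agent.Lib.MP_2f17d2_lc.Mg.G009
import Pool.Agent.Lib.MP_2f17d2_lc.SO.Wd

section

/-!
# Task Fa: a fan of vectors in a half plane
-/

set_option autoImplicit false

namespace Pool.Agent.SO

private theorem Fa_col {e x : Pt} (he : e ≠ 0) (h : cr e x = 0) : ∃ s : ℝ, x = s • e := by
  have hpos : 0 < e.1 ^ 2 + e.2 ^ 2 := by
    rcases eq_or_ne e.1 0 with h1 | h1
    · rcases eq_or_ne e.2 0 with h2 | h2
      · exact absurd (Prod.ext h1 h2) he
      · positivity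
    · positivity
  unfold cr at h
  refine ⟨(e.1 * x.1 + e.2 * x.2) / (e.1 ^ 2 + e.2 ^ 2), Prod.ext ?_ ?_⟩
  · simp only [Prod.smul_fst, smul_eq_mul]
    field_simp
    linear_combination (-e.2) * h
  · simp only [Prod.smul_snd, smul_eq_mul]
    field_simp
    linear_combination e.1 * h

private theorem Fa_neg {N : ℕ} {v : ℕ → Pt} (h0 : ∀ k ≤ N, v k ≠ 0)
    (hr : ∀ k ≤ N, cr (v 0) (v k) ≤ 0) (hs : ∀ k < N, cr (v k) (v (k + 1)) ≤ 0)
    (seg : ∀ k < N, ∀ t : ℝ, 0 ≤ t → t ≤ 1 → v k + t • (v (k + 1) - v k) ≠ 0)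
    {j : ℕ} {r : ℝ} (hr0 : r < 0) (hj : v j = r • v 0) :
    ∀ k, j ≤ k → k ≤ N → ∃ s : ℝ, s < 0 ∧ v k = s • v 0 := by
  intro k hjk
  induction k, hjk using Nat.le_induction with
  | base => intro _; exact ⟨r, hr0, hj⟩
  | succ k hjk ih =>
    intro hkN
    obtain ⟨s, hs0, hsk⟩ := ih (by omega)
    have h1 := hs k (by omega)
    have h2 : cr (v k) (v (k + 1)) = s * cr (v 0) (v (k + 1)) := by
      rw [hsk]
      simp only [cr, Prod.smul_fst, Prod.smul_snd, smul_eq_mul]
      ring
    have h3 := hr (k + 1) hkN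
    have h4 : cr (v 0) (v (k + 1)) = 0 := by
      rw [h2] at h1
      nlinarith
    obtain ⟨s', hs'⟩ := Fa_col (h0 0 (by omega)) h4
    have hs'0 : s' ≠ 0 := by
      rintro rfl
      exact h0 (k + 1) hkN (by rw [hs', zero_smul])
    rcases lt_or_gt_of_ne hs'0 with h5 | h5
    · exact ⟨s', h5, hs'⟩
    · exfalso
      have h6 : 0 < s' - s := by linarith
      refine seg k (by omega) (-s / (s' - s)) ?_ ?_ ?_
      · exact div_nonneg (by linarith) h6.le
      · rw [div_le_one h6]
        linarith
      · rw [hs', hsk, ← sub_smul, smul_smul, ← add_smul]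
        have h7 : s + -s / (s' - s) * (s' - s) = 0 := by
          rw [div_mul_cancel₀ _ h6.ne']
          ring
        rw [h7, zero_smul]

/-- Vectors `v 0, ..., v N` in the closed half plane to the right of `v 0`, none zero, each one not to the left of its predecessor, and
no segment `[v k, v (k + 1)]` through the origin. Then `v k` is not to the left of `v j` for all `j ≤ k`.

Proof. Let `e = v 0`. We use the identity `cr a b * cr c d - cr a c * cr b d + cr a d * cr b c = 0` (`ring`).
(0) If `cr e (v k) = 0` then `v k = s • e`, `s ≠ 0` (`e ≠ 0`). If `s < 0` then also `v (k + 1) = s' • e` with `s' < 0`: `cr (v k) (v (k + 1)) = s * cr e (v (k + 1)) ≤ 0`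
gives `cr e (v (k + 1)) ≥ 0`, so it is `0`, `v (k + 1) = s' • e`, and `s' > 0` is excluded by `seg` (the origin would be between).
So all later vectors are negative multiples of `e`.
(1) Induction on `k` for fixed `j`; `k = j` is clear. Let `cr (v j) (v k) ≤ 0`. If `cr e (v k) < 0`: by the identity for `v j, v (k + 1), e, v k`:
`cr (v j) (v (k + 1)) * cr e (v k) = cr (v j) (v k) * cr e (v (k + 1)) + cr e (v j) * cr (v k) (v (k + 1))`, both products on the right are `≥ 0`, so
`cr (v j) (v (k + 1)) ≤ 0`. If `cr e (v k) = 0` and `v k = s • e` with `s < 0`: by (0) `v (k + 1) = s' • e`, `s' < 0`, and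
`cr (v j) (v (k + 1)) = -s' * cr e (v j) ≤ 0`. If `v k = s • e` with `s > 0`: `cr (v j) (v k) = -s * cr e (v j) ≤ 0` gives `cr e (v j) = 0`,
`v j = r • e`; `r < 0` would by (0) imply that `v k` is a negative multiple of `e`; so `r > 0` and
`cr (v j) (v (k + 1)) = r * cr e (v (k + 1)) ≤ 0`. -/
theorem fan {N : ℕ} {v : ℕ → Pt} (h0 : ∀ k ≤ N, v k ≠ 0) (hr : ∀ k ≤ N, cr (v 0) (v k) ≤ 0)
    (hs : ∀ k < N, cr (v k) (v (k + 1)) ≤ 0)
    (seg : ∀ k < N, ∀ t : ℝ, 0 ≤ t → t ≤ 1 → v k + t • (v (k + 1) - v k) ≠ 0) :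
    ∀ j k, j ≤ k → k ≤ N → cr (v j) (v k) ≤ 0 := by
  intro j k hjk
  induction k, hjk using Nat.le_induction with
  | base =>
    intro _
    have h1 : cr (v j) (v j) = 0 := by
      unfold cr
      ring
    exact h1.le
  | succ k hjk ih =>
    intro hkN
    have ihk := ih (by omega)
    have hek := hr k (by omega)
    have hek1 := hr (k + 1) hkN
    have hej := hr j (by omega)
    have hkk := hs k (by omega)
    rcases hek.lt_or_eq with h1 | h1
    · have h2 : cr (v j) (v (k + 1)) * cr (v 0) (v k) =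
          cr (v j) (v k) * cr (v 0) (v (k + 1)) + cr (v 0) (v j) * cr (v k) (v (k + 1)) := by
        unfold cr
        ring
      have h3 : 0 ≤ cr (v j) (v k) * cr (v 0) (v (k + 1)) := mul_nonneg_of_nonpos_of_nonpos ihk hek1
      have h4 : 0 ≤ cr (v 0) (v j) * cr (v k) (v (k + 1)) := mul_nonneg_of_nonpos_of_nonpos hej hkk
      by_contra h5
      push Not at h5
      have h6 : cr (v j) (v (k + 1)) * cr (v 0) (v k) < 0 := mul_neg_of_pos_of_neg h5 h1
      linarith
    · obtain ⟨s, hsk⟩ := Fa_col (h0 0 (by omega)) h1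
      have hs0 : s ≠ 0 := by
        rintro rfl
        exact h0 k (by omega) (by rw [hsk, zero_smul])
      rcases lt_or_gt_of_ne hs0 with h5 | h5
      · obtain ⟨s', hs'0, hs'⟩ := Fa_neg h0 hr hs seg h5 hsk (k + 1) (by omega) hkN
        have h6 : cr (v j) (v (k + 1)) = -s' * cr (v 0) (v j) := by
          rw [hs']
          simp only [cr, Prod.smul_fst, Prod.smul_snd, smul_eq_mul]
          ring
        rw [h6]
        nlinarith
      · have h6 : cr (v j) (v k) = -s * cr (v 0) (v j) := by
          rw [hsk]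
          simp only [cr, Prod.smul_fst, Prod.smul_snd, smul_eq_mul]
          ring
        have h7 : cr (v 0) (v j) = 0 := by
          rw [h6] at ihk
          nlinarith
        obtain ⟨r, hrj⟩ := Fa_col (h0 0 (by omega)) h7
        have hr0 : r ≠ 0 := by
          rintro rfl
          exact h0 j (by omega) (by rw [hrj, zero_smul])
        rcases lt_or_gt_of_ne hr0 with h8 | h8
        · exfalso
          obtain ⟨s', hs'0, hs'⟩ := Fa_neg h0 hr hs seg h8 hrj k hjk (by omega)
          have h9 : (s - s') • v 0 = 0 := by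
            rw [sub_smul, ← hsk, ← hs', sub_self]
          rcases smul_eq_zero.1 h9 with h10 | h10
          · linarith
          · exact h0 0 (by omega) h10
        · have h9 : cr (v j) (v (k + 1)) = r * cr (v 0) (v (k + 1)) := by
            rw [hrj]
            simp only [cr, Prod.smul_fst, Prod.smul_snd, smul_eq_mul]
            ring
          rw [h9]
          nlinarith

end Pool.Agent.SO
end

section

/-!
# Task Ss: the strands of a polygonal curve with the word of `redE`
-/

set_option autoImplicit false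

namespace Pool.Agent.SO

/-- The strands. `s i τ` and `t i τ` are the numbers of the first and the last marked vertex of the strand `(i, τ)` and `c i τ e τ'` is the number of the vertex at
the crossing with the strand of type `τ'` of the other wire at the event number `e`. -/
structure Strands (n : ℕ) (E : List (ℕ × ℕ)) (V : Poly) where
  s : ℕ → Bool → ℕ
  t : ℕ → Bool → ℕ
  c : ℕ → Bool → ℕ → Bool → ℕ
  st : ∀ i < n, ∀ τ, s i τ < t i τ
  tl : ∀ i < n, ∀ τ, t i τ < V.length
  sep : ∀ i < n, t i true < s i false ∨ t i false < s i true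
  mA : ∀ i < n, mark V (s i true) = some (1 + 2 * i, true)
  mB : ∀ i < n, mark V (t i true) = some (2 + 2 * i, false)
  mB' : ∀ i < n, mark V (s i false) = some (2 + 2 * i, true)
  mA' : ∀ i < n, mark V (t i false) = some (1 + 2 * i, false)
  c_lt : ∀ i < n, ∀ e < E.length, ((E.getD e (0, 0)).1 = i ∨ (E.getD e (0, 0)).2 = i) → ∀ τ τ',
    s i τ < c i τ e τ' ∧ c i τ e τ' < t i τ
  c_fst : ∀ i < n, ∀ e < E.length, (E.getD e (0, 0)).1 = i → ∀ τ τ',
    ∃ b, mark V (c i τ e τ') = some (lab n e τ τ', b)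
  c_snd : ∀ i < n, ∀ e < E.length, (E.getD e (0, 0)).2 = i → ∀ τ τ',
    ∃ b, mark V (c i τ e τ') = some (lab n e τ' τ, b)
  c_up : ∀ i < n, ∀ e e', e < e' → e' < E.length → ((E.getD e (0, 0)).1 = i ∨ (E.getD e (0, 0)).2 = i) →
    ((E.getD e' (0, 0)).1 = i ∨ (E.getD e' (0, 0)).2 = i) → ∀ τ' τ'', c i true e τ' < c i true e' τ''
  c_down : ∀ i < n, ∀ e e', e < e' → e' < E.length → ((E.getD e (0, 0)).1 = i ∨ (E.getD e (0, 0)).2 = i) →
    ((E.getD e' (0, 0)).1 = i ∨ (E.getD e' (0, 0)).2 = i) → ∀ τ' τ'', c i false e' τ'' < c i false e τ'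
  inner : ∀ i < n, ∀ τ, ∀ j, s i τ < j → j < t i τ → ∀ a b, mark V j = some (a, b) →
    ∃ e τ', e < E.length ∧ (((E.getD e (0, 0)).1 = i ∧ a = lab n e τ τ') ∨
      ((E.getD e (0, 0)).2 = i ∧ a = lab n e τ' τ))
  inner_ne : ∀ i < n, ∀ τ, ∀ j k, s i τ < j → j < k → k < t i τ → ∀ a b b', mark V j = some (a, b) →
    mark V k ≠ some (a, b')

private theorem Ss_sw (n : ℕ) (E : List (ℕ × ℕ)) (i : ℕ) (τ : Bool) :
    sw n E i τ = (if τ then (1 + 2 * i, true) else (2 + 2 * i, true)) ::
      ((if τ then cl n E i τ else (cl n E i τ).reverse) ++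
        [if τ then (2 + 2 * i, false) else (1 + 2 * i, false)]) := by
  cases τ <;> simp [sw, chain]

/-- The passages between the first and the last one, in the order of traversal. -/
private def Ss_mid (n : ℕ) (E : List (ℕ × ℕ)) (i : ℕ) (τ : Bool) : List (ℕ × Bool) :=
  if τ then cl n E i τ else (cl n E i τ).reverse

private theorem Ss_mid_length (n : ℕ) (E : List (ℕ × ℕ)) (i : ℕ) (τ : Bool) :
    (Ss_mid n E i τ).length = (cl n E i τ).length := by
  cases τ <;> simp [Ss_mid]

private theorem Ss_sw_zero (n : ℕ) (E : List (ℕ × ℕ)) (i : ℕ) (τ : Bool) :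
    (sw n E i τ)[0]? = some (if τ then (1 + 2 * i, true) else (2 + 2 * i, true)) := by
  rw [Ss_sw]; simp

private theorem Ss_sw_last (n : ℕ) (E : List (ℕ × ℕ)) (i : ℕ) (τ : Bool) :
    (sw n E i τ)[(cl n E i τ).length + 1]? = some (if τ then (2 + 2 * i, false) else (1 + 2 * i, false)) := by
  rw [Ss_sw]
  change (_ :: (Ss_mid n E i τ ++ _))[_]? = _
  rw [List.getElem?_cons_succ, ← Ss_mid_length, List.getElem?_concat_length]

private theorem Ss_sw_mid (n : ℕ) (E : List (ℕ × ℕ)) (i : ℕ) (τ : Bool) {r : ℕ} (hr : r < (cl n E i τ).length) :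
    (sw n E i τ)[1 + r]? = (Ss_mid n E i τ)[r]? := by
  rw [Ss_sw]
  change (_ :: (Ss_mid n E i τ ++ _))[_]? = _
  rw [Nat.add_comm 1 r, List.getElem?_cons_succ, List.getElem?_append_left (by rw [Ss_mid_length]; exact hr)]

private theorem Ss_mem_mid {n : ℕ} {E : List (ℕ × ℕ)} {i : ℕ} {τ : Bool} {p : ℕ × Bool} (h : p ∈ Ss_mid n E i τ) :
    p ∈ cl n E i τ := by
  cases τ <;> simpa [Ss_mid] using h

private theorem Ss_nodup_mid (n : ℕ) (E : List (ℕ × ℕ)) (i : ℕ) (τ : Bool) :
    ((Ss_mid n E i τ).map Prod.fst).Nodup := by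
  cases τ
  · simpa [Ss_mid, List.nodup_reverse] using nodup_cl n E i false
  · simpa [Ss_mid] using nodup_cl n E i true

/-- Proof. Let `ix` be the function of `exists_ix`, `off` the function of `exists_off`, `cp = cp i τ` the function of `exists_cp`, `L = (cl n E i τ).length`. Put `s i τ = ix (off i τ)`,
`t i τ = ix (off i τ + L + 1)`, `c i true e τ' = ix (off i true + 1 + cp e τ')`, `c i false e τ' = ix (off i false + L - cp e τ')`. (`sw n E i true = chain`, `sw n E i false` is the reversed chain, so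
the entry number `k` of `sw n E i false` is the entry number `L + 1 - k` of the chain.) A marked vertex `j` between `s i τ` and `t i τ` is `ix k` with `off i τ < k < off i τ + L + 1`
(monotonicity of `ix`), so its mark belongs to `cl n E i τ`: `mem_cl` and `nodup_cl`. -/
theorem exists_strands {n : ℕ} {E : List (ℕ × ℕ)} {V : Poly} (hne : ∀ q ∈ E, q.1 ≠ q.2)
    (hV : V.filterMap Prod.snd = (redE n E).w) : Nonempty (Strands n E V) := by
  obtain ⟨ix, h1, h2, h3, -⟩ := exists_ix V
  rw [hV] at h1 h2 h3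
  obtain ⟨off, o1, o2, o3⟩ := exists_off n E
  choose cp c1 c2 c3 using fun i τ => exists_cp n E i τ
  have hlen : ∀ i τ, (sw n E i τ).length = (cl n E i τ).length + 2 := length_sw n E
  -- positions
  have hend : ∀ i τ, i < n → off i τ + ((cl n E i τ).length + 1) < (redE n E).w.length := by
    intro i τ hi
    have := o1 i τ hi
    rw [hlen] at this
    omega
  have hinv : ∀ k k', k < (redE n E).w.length → k' < (redE n E).w.length → ix k < ix k' → k < k' := by
    intro k k' hk hk' h
    by_contra hc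
    rcases Nat.lt_or_ge k' k with h' | h'
    · have := h2 k' k h' hk
      omega
    · have : k = k' := by omega
      subst this
      omega
  have hmk : ∀ i τ, i < n → ∀ r, r < (cl n E i τ).length →
      mark V (ix (off i τ + (1 + r))) = (Ss_mid n E i τ)[r]? := by
    intro i τ hi r hr
    have e1 := (h1 (off i τ + (1 + r)) (by have := hend i τ hi; omega)).2
    rw [e1, o2 i τ hi (1 + r) (by rw [hlen]; omega), Ss_sw_mid n E i τ hr]
  have hne' : ∀ e < E.length, (E.getD e (0, 0)).1 ≠ (E.getD e (0, 0)).2 := by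
    intro e he
    have : E.getD e (0, 0) ∈ E := by
      rw [List.getD_eq_getElem _ _ he]
      exact List.getElem_mem he
    exact hne _ this
  -- positions of the crossings
  have hcp : ∀ i τ e τ', e < E.length → ((E.getD e (0, 0)).1 = i ∨ (E.getD e (0, 0)).2 = i) →
      cp i τ e τ' < (cl n E i τ).length := by
    intro i τ e τ' he h
    rcases h with h | h
    · obtain ⟨s, hs⟩ := c1 i τ e τ' he h
      exact (List.getElem?_eq_some_iff.1 hs).1
    · obtain ⟨s, hs⟩ := c2 i τ e τ' he h (by rw [← h]; exact hne' e he)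
      exact (List.getElem?_eq_some_iff.1 hs).1
  have hps : ∀ i τ e τ', e < E.length → ((E.getD e (0, 0)).1 = i ∨ (E.getD e (0, 0)).2 = i) →
      (Ss_mid n E i τ)[if τ then cp i τ e τ' else (cl n E i τ).length - 1 - cp i τ e τ']? =
        (cl n E i τ)[cp i τ e τ']? := by
    intro i τ e τ' he h
    have hc := hcp i τ e τ' he h
    cases τ
    · simp only [Ss_mid, Bool.false_eq_true, if_false]
      rw [List.getElem?_reverse (by omega)]
      congr 1
      omega
    · simp [Ss_mid]
  have hpl : ∀ i τ e τ', e < E.length → ((E.getD e (0, 0)).1 = i ∨ (E.getD e (0, 0)).2 = i) →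
      (if τ then cp i τ e τ' else (cl n E i τ).length - 1 - cp i τ e τ') < (cl n E i τ).length := by
    intro i τ e τ' he h
    have hc := hcp i τ e τ' he h
    cases τ
    · simp only [Bool.false_eq_true, if_false]
      exact lt_of_le_of_lt (Nat.sub_le _ _) (by omega)
    · simpa using hc
  have hmc : ∀ i τ e τ', i < n → e < E.length → ((E.getD e (0, 0)).1 = i ∨ (E.getD e (0, 0)).2 = i) →
      mark V (ix (off i τ + (1 + if τ then cp i τ e τ' else (cl n E i τ).length - 1 - cp i τ e τ'))) =
        (cl n E i τ)[cp i τ e τ']? := by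
    intro i τ e τ' hi he h
    rw [hmk i τ hi _ (hpl i τ e τ' he h), hps i τ e τ' he h]
  have hfind : ∀ i < n, ∀ τ, ∀ j, ix (off i τ) < j → j < ix (off i τ + ((cl n E i τ).length + 1)) →
      ∀ q, mark V j = some q → ∃ r, r < (cl n E i τ).length ∧ j = ix (off i τ + (1 + r)) ∧
        (Ss_mid n E i τ)[r]? = some q := by
    intro i hi τ j hj1 hj2 q hq
    have hE := hend i τ hi
    have hjV : j < V.length := lt_trans hj2 (h1 _ hE).1
    obtain ⟨k, hk, rfl⟩ := h3 j hjV (by rw [hq]; simp)
    have hk1 := hinv _ _ (by omega) hk hj1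
    have hk2 := hinv _ _ hk hE hj2
    refine ⟨k - off i τ - 1, by omega, by congr 1; omega, ?_⟩
    rw [← hmk i τ hi _ (by omega), ← hq]
    congr 2
    omega
  refine ⟨{
    s := fun i τ => ix (off i τ)
    t := fun i τ => ix (off i τ + ((cl n E i τ).length + 1))
    c := fun i τ e τ' => ix (off i τ + (1 + if τ then cp i τ e τ' else (cl n E i τ).length - 1 - cp i τ e τ'))
    st := ?_
    tl := ?_
    sep := ?_
    mA := ?_
    mB := ?_
    mB' := ?_
    mA' := ?_
    c_lt := ?_
    c_fst := ?_
    c_snd := ?_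
    c_up := ?_
    c_down := ?_
    inner := ?_
    inner_ne := ?_ }⟩
  · intro i hi τ
    exact h2 _ _ (by omega) (hend i τ hi)
  · intro i hi τ
    exact (h1 _ (hend i τ hi)).1
  · intro i hi
    have e1 := hend i true hi
    have e2 := hend i false hi
    rcases o3 i hi with h | h
    · left
      rw [hlen] at h
      exact h2 _ _ (by omega) (by omega)
    · right
      rw [hlen] at h
      exact h2 _ _ (by omega) (by omega)
  · intro i hi
    have e1 := hend i true hi
    rw [(h1 (off i true) (by omega)).2]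
    have := o2 i true hi 0 (by rw [hlen]; omega)
    rw [Nat.add_zero] at this
    rw [this, Ss_sw_zero]
    simp
  · intro i hi
    rw [(h1 _ (hend i true hi)).2, o2 i true hi _ (by rw [hlen]; omega), Ss_sw_last]
    simp
  · intro i hi
    have e1 := hend i false hi
    rw [(h1 (off i false) (by omega)).2]
    have := o2 i false hi 0 (by rw [hlen]; omega)
    rw [Nat.add_zero] at this
    rw [this, Ss_sw_zero]
    simp
  · intro i hi
    rw [(h1 _ (hend i false hi)).2, o2 i false hi _ (by rw [hlen]; omega), Ss_sw_last]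
    simp
  · intro i hi e he h τ τ'
    have e1 := hend i τ hi
    have e2 := hpl i τ e τ' he h
    exact ⟨h2 _ _ (by omega) (by omega), h2 _ _ (by omega) (by omega)⟩
  · intro i hi e he h τ τ'
    obtain ⟨b, hb⟩ := c1 i τ e τ' he h
    exact ⟨b, by rw [hmc i τ e τ' hi he (Or.inl h), hb]⟩
  · intro i hi e he h τ τ'
    obtain ⟨b, hb⟩ := c2 i τ e τ' he h (by rw [← h]; exact hne' e he)
    exact ⟨b, by rw [hmc i τ e τ' hi he (Or.inr h), hb]⟩
  · intro i hi e e' hee he' h h' τ' τ''
    have e1 := hend i true hi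
    have e2 := hpl i true e' τ'' he' h'
    have e3 := c3 i true e e' τ' τ'' hee he' h h'
    simp only [if_true] at e2 ⊢
    exact h2 _ _ (by omega) (by omega)
  · intro i hi e e' hee he' h h' τ' τ''
    have e1 := hend i false hi
    have e2 := hcp i false e τ' (by omega) h
    have e2' := hcp i false e' τ'' he' h'
    have e3 := c3 i false e e' τ' τ'' hee he' h h'
    simp only [Bool.false_eq_true, if_false]
    exact h2 _ _ (by omega) (by omega)
  · intro i hi τ j hj1 hj2 a b hm
    obtain ⟨r, hr, -, hr2⟩ := hfind i hi τ j hj1 hj2 _ hm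
    have := Ss_mem_mid (List.mem_of_getElem? hr2)
    exact mem_cl this
  · intro i hi τ j k hj1 hjk hk2 a b b' hm hm'
    obtain ⟨r, hr, hj, hr2⟩ := hfind i hi τ j hj1 (by omega) _ hm
    obtain ⟨r', hr', hk, hr2'⟩ := hfind i hi τ k (by omega) hk2 _ hm'
    have hnd := Ss_nodup_mid n E i τ
    have hrr : r = r' := by
      have q1 : ((Ss_mid n E i τ).map Prod.fst)[r]? = some a := by rw [List.getElem?_map, hr2]; rfl
      have q2 : ((Ss_mid n E i τ).map Prod.fst)[r']? = some a := by rw [List.getElem?_map, hr2']; rfl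
      have l1 : r < ((Ss_mid n E i τ).map Prod.fst).length := by
        rw [List.length_map, Ss_mid_length]; exact hr
      exact List.getElem?_inj l1 hnd |>.1 (q1.trans q2.symm)
    subst hrr
    omega

end Pool.Agent.SO
end
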