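import Pool.Agent.Lib.MP_2f17d2_lc.SO.Cm
import Pool.Agent.Lib.MP_2f17d2_lc.SO.Ch
import Pool.Agent.Lib.MP_2f17d2_lc.Mg.G009

section

/-!
# Task Co: the forbidden configuration peak `c`, valley `a`, peak `b`, valley `d`
-/

set_option autoImplicit false

namespace Pool.Agent.SO

/-- Intermediate value theorem for two functions. -/
private theorem Co_ivt {f g : ℝ → ℝ} {p q : ℝ} (hpq : p ≤ q) (hf : ContinuousOn f (Set.Icc p q))
    (hg : ContinuousOn g (Set.Icc p q)) (h1 : f p ≤ g p) (h2 : g q ≤ f q) :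
    ∃ h ∈ Set.Icc p q, f h = g h :=
  isPreconnected_Icc.intermediate_value₂ (Set.left_mem_Icc.2 hpq) (Set.right_mem_Icc.2 hpq) hf hg h1 h2

/-- The point of an edge at the height `h`. -/
private theorem Co_pt {P R : Pt} (h : ℝ) (hne : R.2 - P.2 ≠ 0) :
    P + ((h - P.2) / (R.2 - P.2)) • (R - P) = (P.1 + (h - P.2) / (R.2 - P.2) * (R.1 - P.1), h) := by
  ext
  · simp
  · simp only [Prod.snd_add, Prod.smul_snd, Prod.snd_sub, smul_eq_mul]
    field_simp
    ring

private theorem Co_mono {y : ℤ → ℝ} {a b : ℤ} (mono : ∀ i, a ≤ i → i < b → y i < y (i + 1)) :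
    ∀ n : ℕ, ∀ i, a ≤ i → i + n ≤ b → y i ≤ y (i + n) := by
  intro n
  induction n with
  | zero => intro i _ _; simp
  | succ n ih =>
    intro i h1 h2
    push_cast at h2 ⊢
    have h3 := ih i h1 (by omega)
    have h4 := mono (i + n) (by omega) (by omega)
    have h5 : i + n + 1 = i + (n + 1) := by ring
    rw [h5] at h4
    linarith

/-- Rising chain: the point at the height `h` is on an edge. -/
private theorem Co_up {Q : ℤ → Pt} {a b : ℤ} (hab : a < b)
    (mono : ∀ i, a ≤ i → i < b → (Q i).2 < (Q (i + 1)).2) {X : ℝ → ℝ}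
    (hX : ∀ i, a ≤ i → i < b → ∀ h, (Q i).2 ≤ h → h ≤ (Q (i + 1)).2 →
        X h = (Q i).1 + (h - (Q i).2) / ((Q (i + 1)).2 - (Q i).2) * ((Q (i + 1)).1 - (Q i).1))
    {h : ℝ} (h0 : (Q a).2 ≤ h) (h1 : h ≤ (Q b).2) :
    ∃ (i : ℤ) (s : ℝ), a ≤ i ∧ i < b ∧ 0 ≤ s ∧ s ≤ 1 ∧ Q i + s • (Q (i + 1) - Q i) = (X h, h) := by
  obtain ⟨i, i1, i2, i3, i4⟩ := exists_level (y := fun i => (Q i).2) hab mono h0 h1
  have i5 := mono i i1 i2
  refine ⟨i, (h - (Q i).2) / ((Q (i + 1)).2 - (Q i).2), i1, i2, ?_, ?_, ?_⟩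
  · exact div_nonneg (by linarith) (by linarith)
  · rw [div_le_one (by linarith)]
    linarith
  · rw [Co_pt h (by linarith), hX i i1 i2 h i3 i4]

/-- Falling chain: the point at the height `h` is on an edge. -/
private theorem Co_down {Q : ℤ → Pt} {a b : ℤ} (hab : a < b)
    (anti : ∀ i, a ≤ i → i < b → (Q (i + 1)).2 < (Q i).2) {X : ℝ → ℝ}
    (hX : ∀ i, a ≤ i → i < b → ∀ h, (Q (i + 1)).2 ≤ h → h ≤ (Q i).2 →
        X h = (Q i).1 + (h - (Q i).2) / ((Q (i + 1)).2 - (Q i).2) * ((Q (i + 1)).1 - (Q i).1))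
    {h : ℝ} (h0 : (Q b).2 ≤ h) (h1 : h ≤ (Q a).2) :
    ∃ (i : ℤ) (s : ℝ), a ≤ i ∧ i < b ∧ 0 ≤ s ∧ s ≤ 1 ∧ Q i + s • (Q (i + 1) - Q i) = (X h, h) := by
  obtain ⟨i, i1, i2, i3, i4⟩ := exists_level' (y := fun i => (Q i).2) hab anti h0 h1
  have i5 := anti i i1 i2
  refine ⟨i, (h - (Q i).2) / ((Q (i + 1)).2 - (Q i).2), i1, i2, ?_, ?_, ?_⟩
  · exact div_nonneg_of_nonpos (by linarith) (by linarith)
  · rw [div_le_one_of_neg (by linarith)]
    linarith
  · rw [Co_pt h (by linarith), hX i i1 i2 h i3 i4]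

/-- Let the height fall from `c` to `a`, rise from `a` to `b` and fall from `b` to `d`, with `b` not higher than `c` and `d` not higher
than `a`. This is impossible for a polygon without left turns.

Proof. Let `X₁, X₂, X₃` be the functions of `exists_chain'`, `exists_chain`, `exists_chain'` for the chains `[c, a]`, `[a, b]`, `[b, d]`; all
three are defined and continuous on `[y a, y b]`, `y i = (Q i).2` (`y a < y b` by `mono`).
(0) For a height `h` of the chain, the point `(X h, h)` is the point of an edge `i` with a parameter in `[0, 1]` (`exists_level`, then the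
formula for `X h`; parameter `(h - y i) / (y (i + 1) - y i)`). If the chains `[c, a]` and `[a, b]` have a common point at a height `h` in
`[y a, y b]`, then by `CC.meet` (edges `i < j` with `c ≤ i < a ≤ j < b < c + M`) the point is the common vertex, i.e. `i = a - 1`, `j = a`,
`h = y a` (the second case of `meet`, `j + 1 = i + M`, is impossible as `j + 1 ≤ b < d < c + M ≤ i + M`). In the same way the chains
`[a, b]` and `[b, d]` only meet at the height `y b`, and the chains `[c, a]` and `[b, d]` do not meet at all (`i < a < b ≤ j`, `j + 1 ≤ d < c + M`).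
(1) Near `a`: the vertex `a` is a real corner (`Same` is impossible, as the height falls before `a` and rises after `a`), so `cr E' E < 0`
where `E' = Q a - Q (a - 1)`, `E = Q (a + 1) - Q a`, `E'.2 < 0 < E.2`. For `h` slightly larger than `y a` (`h ≤ y (a - 1)`, `h ≤ y (a + 1)`):
`X₁ h = x a + (h - y a) * E'.1 / E'.2`, `X₂ h = x a + (h - y a) * E.1 / E.2`, and `cr E' E < 0` says `E.1 / E.2 < E'.1 / E'.2`: `X₂ h < X₁ h`. With (0) and
the intermediate value theorem (`X₁ - X₂` is continuous and has no zero on `(y a, y b]`; use e.g. `intermediate_value_Icc'` on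
`[h, y b]`): `X₂ (y b) < X₁ (y b)`.
(2) Near `b` in the same way: `X₂ h < X₃ h` for `h` slightly smaller than `y b`, so `X₂ (y a) < X₃ (y a)`.
(3) `X₂ (y a) = x a = X₁ (y a)`, `X₂ (y b) = x b = X₃ (y b)`. So `X₁ - X₃` is negative at `y a` and positive at `y b`; it has a zero, which
contradicts (0). -/
theorem CC.core {Q : ℤ → Pt} {M : ℕ} (hQ : CC Q M) {c a b d : ℤ} (hca : c < a) (hab : a < b) (hbd : b < d)
    (hdc : d < c + M) (anti : ∀ i, c ≤ i → i < a → (Q (i + 1)).2 < (Q i).2)
    (mono : ∀ i, a ≤ i → i < b → (Q i).2 < (Q (i + 1)).2)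
    (anti' : ∀ i, b ≤ i → i < d → (Q (i + 1)).2 < (Q i).2)
    (h1 : (Q b).2 ≤ (Q c).2) (h2 : (Q d).2 ≤ (Q a).2) : False := by
  obtain ⟨X₁, c1, f1⟩ := exists_chain' hca anti
  obtain ⟨X₂, c2, f2⟩ := exists_chain hab mono
  obtain ⟨X₃, c3, f3⟩ := exists_chain' hbd anti'
  have hM : a + 1 ≤ b := by omega
  -- heights
  have ya : (Q a).2 < (Q (a + 1)).2 := mono a le_rfl hab
  have ya' : (Q (a + 1)).2 ≤ (Q b).2 := by
    have h := Co_mono (y := fun i => (Q i).2) mono (b - (a + 1)).toNat (a + 1) (by omega) (by omega)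
    have e : a + 1 + ((b - (a + 1)).toNat : ℤ) = b := by omega
    simp only [e] at h
    exact h
  have yb : (Q (b - 1)).2 < (Q b).2 := by
    have h := mono (b - 1) (by omega) (by omega)
    rwa [sub_add_cancel] at h
  have yb' : (Q a).2 ≤ (Q (b - 1)).2 := by
    have h := Co_mono (y := fun i => (Q i).2) mono (b - 1 - a).toNat a le_rfl (by omega)
    have e : a + ((b - 1 - a).toNat : ℤ) = b - 1 := by omega
    simp only [e] at h
    exact h
  have yab : (Q a).2 < (Q b).2 := by linarith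
  have yc : (Q a).2 < (Q (a - 1)).2 := by
    have h := anti (a - 1) (by omega) (by omega)
    rwa [sub_add_cancel] at h
  have yd : (Q (b + 1)).2 < (Q b).2 := anti' b le_rfl hbd
  -- continuity on `[y a, y b]`
  have k1 : ContinuousOn X₁ (Set.Icc (Q a).2 (Q b).2) := c1.mono (Set.Icc_subset_Icc_right h1)
  have k3 : ContinuousOn X₃ (Set.Icc (Q a).2 (Q b).2) := c3.mono (Set.Icc_subset_Icc_left h2)
  -- common points
  have m12 : ∀ h ∈ Set.Icc (Q a).2 (Q b).2, X₁ h = X₂ h → h = (Q a).2 := by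
    intro h hh e
    obtain ⟨i, s, i1, i2, s0, s1, es⟩ := Co_down hca anti f1 hh.1 (hh.2.trans h1)
    obtain ⟨j, t, j1, j2, t0, t1, et⟩ := Co_up hab mono f2 hh.1 hh.2
    rw [e] at es
    rcases hQ.meet (i := i) (j := j) (by omega) (by omega) s0 s1 t0 t1 (es.trans et.symm) with ⟨g1, g2, g3⟩ | ⟨g1, g2, g3⟩
    · have g4 : j = a := by omega
      rw [g3, g4, zero_smul, add_zero] at et
      rw [et]
    · omega
  have m23 : ∀ h ∈ Set.Icc (Q a).2 (Q b).2, X₂ h = X₃ h → h = (Q b).2 := by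
    intro h hh e
    obtain ⟨i, s, i1, i2, s0, s1, es⟩ := Co_up hab mono f2 hh.1 hh.2
    obtain ⟨j, t, j1, j2, t0, t1, et⟩ := Co_down hbd anti' f3 (h2.trans hh.1) hh.2
    rw [e] at es
    rcases hQ.meet (i := i) (j := j) (by omega) (by omega) s0 s1 t0 t1 (es.trans et.symm) with ⟨g1, g2, g3⟩ | ⟨g1, g2, g3⟩
    · have g4 : j = b := by omega
      rw [g3, g4, zero_smul, add_zero] at et
      rw [et]
    · omega
  have m13 : ∀ h ∈ Set.Icc (Q a).2 (Q b).2, X₁ h ≠ X₃ h := by
    intro h hh e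
    obtain ⟨i, s, i1, i2, s0, s1, es⟩ := Co_down hca anti f1 hh.1 (hh.2.trans h1)
    obtain ⟨j, t, j1, j2, t0, t1, et⟩ := Co_down hbd anti' f3 (h2.trans hh.1) hh.2
    rw [e] at es
    rcases hQ.meet (i := i) (j := j) (by omega) (by omega) s0 s1 t0 t1 (es.trans et.symm) with ⟨g1, g2, g3⟩ | ⟨g1, g2, g3⟩
    · omega
    · omega
  -- near `a`
  have A : X₂ (Q b).2 < X₁ (Q b).2 := by
    have tr : cr (Q a - Q (a - 1)) (Q (a + 1) - Q a) < 0 := by
      rcases hQ.turn a with ⟨t, t0, te⟩ | h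
      · exfalso
        have h3 := congrArg Prod.snd te
        simp only [Prod.snd_sub, Prod.smul_snd, smul_eq_mul] at h3
        nlinarith
      · exact h
    simp only [cr, Prod.fst_sub, Prod.snd_sub] at tr
    set h := min (Q (a - 1)).2 (Q (a + 1)).2 with hh
    have e1 : (Q a).2 < h := lt_min yc ya
    have e2 : h ≤ (Q (a - 1)).2 := min_le_left _ _
    have e3 : h ≤ (Q (a + 1)).2 := min_le_right _ _
    have g1 := f1 (a - 1) (by omega) (by omega) h (by rw [sub_add_cancel]; exact e1.le) e2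
    have g2 := f2 a le_rfl hab h e1.le e3
    rw [sub_add_cancel] at g1
    have e4 : X₂ h < X₁ h := by
      rw [g1, g2]
      have u1 : (Q a).2 - (Q (a - 1)).2 < 0 := by linarith
      have u2 : 0 < (Q (a + 1)).2 - (Q a).2 := by linarith
      have u3 : (h - (Q (a - 1)).2) / ((Q a).2 - (Q (a - 1)).2) * ((Q a).1 - (Q (a - 1)).1) =
          (Q a).1 - (Q (a - 1)).1 +
            (h - (Q a).2) * (((Q a).1 - (Q (a - 1)).1) / ((Q a).2 - (Q (a - 1)).2)) := by
        have u4 : (Q a).2 - (Q (a - 1)).2 ≠ 0 := u1.ne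
        field_simp
        ring
      have u5 : (h - (Q a).2) / ((Q (a + 1)).2 - (Q a).2) * ((Q (a + 1)).1 - (Q a).1) =
          (h - (Q a).2) * (((Q (a + 1)).1 - (Q a).1) / ((Q (a + 1)).2 - (Q a).2)) := by
        ring
      have u6 : ((Q (a + 1)).1 - (Q a).1) / ((Q (a + 1)).2 - (Q a).2) <
          ((Q a).1 - (Q (a - 1)).1) / ((Q a).2 - (Q (a - 1)).2) := by
        rw [div_lt_iff₀ u2, div_mul_eq_mul_div, lt_div_iff_of_neg u1]
        linarith
      rw [u3, u5]
      have u7 : 0 < h - (Q a).2 := by linarith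
      have u8 := mul_lt_mul_of_pos_left u6 u7
      linarith
    by_contra hc
    obtain ⟨z, zm, ze⟩ := Co_ivt (f := X₂) (g := X₁) (p := h) (q := (Q b).2) (e3.trans ya')
      (c2.mono (Set.Icc_subset_Icc_left e1.le)) (k1.mono (Set.Icc_subset_Icc_left e1.le))
      e4.le (not_lt.1 hc)
    have := m12 z ⟨e1.le.trans zm.1, zm.2⟩ ze.symm
    have := zm.1
    linarith
  -- near `b`
  have B : X₂ (Q a).2 < X₃ (Q a).2 := by
    have tr : cr (Q b - Q (b - 1)) (Q (b + 1) - Q b) < 0 := by
      rcases hQ.turn b with ⟨t, t0, te⟩ | h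
      · exfalso
        have h3 := congrArg Prod.snd te
        simp only [Prod.snd_sub, Prod.smul_snd, smul_eq_mul] at h3
        nlinarith
      · exact h
    simp only [cr, Prod.fst_sub, Prod.snd_sub] at tr
    set h := max (Q (b - 1)).2 (Q (b + 1)).2 with hh
    have e1 : h < (Q b).2 := max_lt yb yd
    have e2 : (Q (b - 1)).2 ≤ h := le_max_left _ _
    have e3 : (Q (b + 1)).2 ≤ h := le_max_right _ _
    have g2 := f2 (b - 1) (by omega) (by omega) h e2 (by rw [sub_add_cancel]; exact e1.le)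
    have g3 := f3 b le_rfl hbd h e3 e1.le
    rw [sub_add_cancel] at g2
    have e4 : X₂ h < X₃ h := by
      rw [g2, g3]
      have u1 : 0 < (Q b).2 - (Q (b - 1)).2 := by linarith
      have u2 : (Q (b + 1)).2 - (Q b).2 < 0 := by linarith
      have u3 : (h - (Q (b - 1)).2) / ((Q b).2 - (Q (b - 1)).2) * ((Q b).1 - (Q (b - 1)).1) =
          (Q b).1 - (Q (b - 1)).1 +
            (h - (Q b).2) * (((Q b).1 - (Q (b - 1)).1) / ((Q b).2 - (Q (b - 1)).2)) := by
        have u4 : (Q b).2 - (Q (b - 1)).2 ≠ 0 := u1.ne'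
        field_simp
        ring
      have u5 : (h - (Q b).2) / ((Q (b + 1)).2 - (Q b).2) * ((Q (b + 1)).1 - (Q b).1) =
          (h - (Q b).2) * (((Q (b + 1)).1 - (Q b).1) / ((Q (b + 1)).2 - (Q b).2)) := by
        ring
      have u6 : ((Q (b + 1)).1 - (Q b).1) / ((Q (b + 1)).2 - (Q b).2) <
          ((Q b).1 - (Q (b - 1)).1) / ((Q b).2 - (Q (b - 1)).2) := by
        rw [lt_div_iff₀ u1, div_mul_eq_mul_div, div_lt_iff_of_neg u2]
        linarith
      rw [u3, u5]
      have u7 : h - (Q b).2 < 0 := by linarith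
      have u8 := mul_lt_mul_of_neg_left u6 u7
      linarith
    by_contra hc
    obtain ⟨z, zm, ze⟩ := Co_ivt (f := X₃) (g := X₂) (p := (Q a).2) (q := h) (yb'.trans e2)
      (k3.mono (Set.Icc_subset_Icc_right e1.le)) (c2.mono (Set.Icc_subset_Icc_right e1.le))
      (not_lt.1 hc) e4.le
    have := m23 z ⟨zm.1, zm.2.trans e1.le⟩ ze.symm
    have := zm.2
    linarith
  -- the values at the ends
  have v1 : X₁ (Q a).2 = (Q a).1 := by
    have h := f1 (a - 1) (by omega) (by omega) (Q a).2 (by rw [sub_add_cancel]) yc.le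
    rw [sub_add_cancel] at h
    rw [h, div_self (by linarith)]
    ring
  have v2 : X₂ (Q a).2 = (Q a).1 := by
    have h := f2 a le_rfl hab (Q a).2 le_rfl ya.le
    rw [h, sub_self, zero_div, zero_mul, add_zero]
  have v3 : X₂ (Q b).2 = (Q b).1 := by
    have h := f2 (b - 1) (by omega) (by omega) (Q b).2 yb.le (by rw [sub_add_cancel])
    rw [sub_add_cancel] at h
    rw [h, div_self (by linarith)]
    ring
  have v4 : X₃ (Q b).2 = (Q b).1 := by
    have h := f3 b le_rfl hbd (Q b).2 yd.le le_rfl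
    rw [h, sub_self, zero_div, zero_mul, add_zero]
  obtain ⟨z, zm, ze⟩ := Co_ivt (f := X₁) (g := X₃) yab.le k1 k3 (by linarith) (by linarith)
  exact m13 z zm ze

end Pool.Agent.SO
end

section

/-!
# Task Pk: a peak of a simple polygon without left turns is its highest point
-/

set_option autoImplicit false

namespace Pool.Agent.SO

/-- Proof. There is a highest vertex `b'` (finitely many vertices up to periodicity) and it is a peak (its neighbours are not higher
and have a different height). If `b' - b` is divisible by `M`, then `Q b' = Q b` (`CC.per'`) and we are done. Otherwise take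
`c, a, b, d, e` from `exists_peaks` for `y i = (Q i).2`. If `y d ≤ y a`, apply `CC.core` to `c, a, b, d`. If `y a ≤ y d`, apply `CC.core` to the
polygon `hQ.mirror` and `-e, -d, -b, -a` (`a < e - M` is false since `e < a + M`). -/
theorem CC.peak_max {Q : ℤ → Pt} {M : ℕ} (hQ : CC Q M) (gen : ∀ i, (Q i).2 ≠ (Q (i + 1)).2) {b : ℤ}
    (hb : Peak (fun i => (Q i).2) b) (j : ℤ) : (Q j).2 ≤ (Q b).2 := by
  have hM2 := hQ.two
  have hM : (0 : ℤ) < (M : ℤ) := by exact_mod_cast (show 0 < M by omega)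
  obtain ⟨m, hm, hmax⟩ := Finset.exists_max_image (Finset.Ico (0 : ℤ) M) (fun i => (Q i).2)
    ⟨0, Finset.mem_Ico.mpr ⟨le_refl _, hM⟩⟩
  have hall : ∀ k : ℤ, (Q k).2 ≤ (Q m).2 := by
    intro k
    have e : Q k = Q (k % M) := by
      have h1 := hQ.per' (k % M) (k / M)
      have h2 : k % (M : ℤ) + k / M * M = k := by
        have := Int.emod_add_mul_ediv k M
        linarith [mul_comm (k / (M : ℤ)) (M : ℤ)]
      rw [h2] at h1
      exact h1
    rw [e]
    exact hmax _ (Finset.mem_Ico.mpr ⟨Int.emod_nonneg _ hM.ne', Int.emod_lt_of_pos _ hM⟩)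
  have hpk : Peak (fun i => (Q i).2) m := by
    constructor
    · have h1 := gen (m - 1)
      rw [sub_add_cancel] at h1
      exact lt_of_le_of_ne (hall _) h1
    · exact lt_of_le_of_ne (hall _) (gen m).symm
  by_cases hdiv : (M : ℤ) ∣ m - b
  · obtain ⟨k, hk⟩ := hdiv
    have h1 := hQ.per' b k
    have h2 : b + k * M = m := by linarith [mul_comm (M : ℤ) k]
    rw [h2] at h1
    rw [← h1]
    exact hall j
  · exfalso
    obtain ⟨c, a, b1, d, e, hca, hab, hbd, hde, hdc, hea, A1, A2, A3, A4, hc, he⟩ :=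
      exists_peaks (y := fun i => (Q i).2) (M := M) (by omega) (fun i => by rw [hQ.per i]) gen hpk hb hdiv
    rcases le_total (Q d).2 (Q a).2 with h | h
    · exact CC.core hQ hca hab hbd hdc A1 A2 A3 hc h
    · refine CC.core hQ.mirror (c := -e) (a := -d) (b := -b1) (d := -a) (by omega) (by omega) (by omega)
        (by omega) ?_ ?_ ?_ ?_ ?_
      · intro i hi1 hi2
        have := A4 (-i - 1) (by omega) (by omega)
        have e1 : -(i + 1) = -i - 1 := by ring
        have e2 : -i - 1 + 1 = -i := by ring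
        rw [e2] at this
        simp only [e1]
        exact this
      · intro i hi1 hi2
        have := A3 (-i - 1) (by omega) (by omega)
        have e1 : -(i + 1) = -i - 1 := by ring
        have e2 : -i - 1 + 1 = -i := by ring
        rw [e2] at this
        simp only [e1]
        exact this
      · intro i hi1 hi2
        have := A2 (-i - 1) (by omega) (by omega)
        have e1 : -(i + 1) = -i - 1 := by ring
        have e2 : -i - 1 + 1 = -i := by ring
        rw [e2] at this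
        simp only [e1]
        exact this
      · simp only [neg_neg]
        exact he
      · simp only [neg_neg]
        exact h

end Pool.Agent.SO
end

section

/-!
# Task Lf: a simple polygon without left turns lies to the right of each of its edges
-/

set_option autoImplicit false

namespace Pool.Agent.SO

/-- A peak of a linear functional. For `v ≠ 0` consider the height `z ↦ cr v z`. Proof: apply `CC.peak_max` to the polygon
`hQ.lin T` where `T z = (v.1 * z.1 + v.2 * z.2, cr v z)`, `cr (T u) (T v') = (v.1 ^ 2 + v.2 ^ 2) * cr u v'`. -/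
theorem CC.peak_cr {Q : ℤ → Pt} {M : ℕ} (hQ : CC Q M) {v : Pt} (gen : ∀ i, cr v (Q i) ≠ cr v (Q (i + 1))) {b : ℤ}
    (h1 : cr v (Q (b - 1)) < cr v (Q b)) (h2 : cr v (Q (b + 1)) < cr v (Q b)) (j : ℤ) : cr v (Q j) ≤ cr v (Q b) := by
  have hv : 0 < v.1 ^ 2 + v.2 ^ 2 := by
    rcases eq_or_ne v.1 0 with h3 | h3
    · rcases eq_or_ne v.2 0 with h4 | h4
      · exact absurd (by unfold cr; rw [h3, h4]; ring) (gen 0)
      · positivity
    · positivity
  let T : Pt →ₗ[ℝ] Pt :=
    { toFun := fun z => (v.1 * z.1 + v.2 * z.2, cr v z)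
      map_add' := by
        intro x y
        ext
        · simp only [Prod.fst_add, Prod.snd_add]
          ring
        · simp only [Prod.snd_add, cr, Prod.fst_add]
          ring
      map_smul' := by
        intro c x
        ext
        · simp only [Prod.smul_fst, Prod.smul_snd, smul_eq_mul, RingHom.id_apply]
          ring
        · simp only [Prod.smul_fst, Prod.smul_snd, smul_eq_mul, RingHom.id_apply, cr]
          ring }
  have hT : ∀ u w, cr (T u) (T w) = (v.1 ^ 2 + v.2 ^ 2) * cr u w := by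
    intro u w
    change (v.1 * u.1 + v.2 * u.2) * (v.1 * w.2 - v.2 * w.1) -
      (v.1 * u.2 - v.2 * u.1) * (v.1 * w.1 + v.2 * w.2) =
      (v.1 ^ 2 + v.2 ^ 2) * (u.1 * w.2 - u.2 * w.1)
    ring
  have hC := hQ.lin T hv hT
  exact hC.peak_max (fun i => gen i) ⟨h1, h2⟩ j

private theorem Lf_sq {e : Pt} (he : e ≠ 0) : 0 < e.1 ^ 2 + e.2 ^ 2 := by
  rcases eq_or_ne e.1 0 with h1 | h1
  · rcases eq_or_ne e.2 0 with h2 | h2
    · exact absurd (Prod.ext h1 h2) he
    · positivity
  · positivity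

private theorem Lf_small {a : ℝ} (ha : 0 < a) (b : ℝ) :
    ∃ η₀ : ℝ, 0 < η₀ ∧ ∀ η : ℝ, 0 < η → η < η₀ → 0 < a + η * b := by
  have h0 : 0 < |b| + 1 := by positivity
  refine ⟨a / (|b| + 1), by positivity, ?_⟩
  intro η h1 h2
  rw [lt_div_iff₀ h0] at h2
  have h3 : -(η * |b|) ≤ η * b := by
    have := neg_abs_le b
    nlinarith
  nlinarith

/-- At a real corner. Proof. Let `E = Q (i + 1) - Q i`, `E' = Q i - Q (i - 1)`, `cr E' E < 0`. For real `η` put `v = E + η • (-E.2, E.1)`.
Then `cr v (Q (i + 1)) - cr v (Q i) = cr v E = η * cr (-E.2, E.1) E = -η * (E.1 ^ 2 + E.2 ^ 2) < 0` for `η > 0`, and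
`cr v (Q i) - cr v (Q (i - 1)) = cr v E' = cr E E' + η * (...)`, which is positive for small `η > 0` because `cr E E' = -cr E' E > 0`. If
`cr E (Q j - Q i) > 0`, then also `cr v (Q j) > cr v (Q i)` for small `η > 0`. Finally choose `η` such that `gen` holds: for every `k` the
condition `cr v (Q k) = cr v (Q (k + 1))`, `0 = cr v (Q (k + 1) - Q k) = cr E F + η * cr (-E.2, E.1) F` with `F = Q (k + 1) - Q k ≠ 0` excludes at most
one value of `η` (if both coefficients vanish then `F = 0`, as `E ≠ 0`); only finitely many `F` occur (periodicity), so the excluded set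
is finite and does not contain an interval `(0, η₀)`. Now `CC.peak_cr` gives a contradiction. -/
theorem CC.left_strict {Q : ℤ → Pt} {M : ℕ} (hQ : CC Q M) {i : ℤ} (hi : StrictAt Q i) (j : ℤ) :
    cr (Q (i + 1) - Q i) (Q j - Q i) ≤ 0 := by
  by_contra hcon
  push Not at hcon
  obtain ⟨E, hE⟩ : ∃ E : Pt, E = Q (i + 1) - Q i := ⟨_, rfl⟩
  obtain ⟨E', hE'⟩ : ∃ E' : Pt, E' = Q i - Q (i - 1) := ⟨_, rfl⟩
  obtain ⟨G, hG⟩ : ∃ G : Pt, G = Q j - Q i := ⟨_, rfl⟩
  have hi' : cr E' E < 0 := by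
    rw [hE, hE']
    exact hi
  rw [← hE, ← hG] at hcon
  have hE0 : E ≠ 0 := by
    rintro rfl
    unfold cr at hi'
    simp at hi'
  have hEpos : 0 < E.1 ^ 2 + E.2 ^ 2 := Lf_sq hE0
  have hadd : ∀ (η : ℝ) (x : Pt), cr (E + η • ((-E.2, E.1) : Pt)) x = cr E x + η * cr (-E.2, E.1) x := by
    intro η x
    simp only [cr, Prod.fst_add, Prod.snd_add, Prod.smul_fst, Prod.smul_snd, smul_eq_mul]
    ring
  have hsub : ∀ (w x y : Pt), cr w (x - y) = cr w x - cr w y := by
    intro w x y
    simp only [cr, Prod.fst_sub, Prod.snd_sub]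
    ring
  have ha : 0 < cr E E' := by
    have h1 : cr E E' = -cr E' E := by
      unfold cr
      ring
    linarith
  obtain ⟨η₁, hη₁, h1⟩ := Lf_small ha (cr (-E.2, E.1) E')
  obtain ⟨η₂, hη₂, h2⟩ := Lf_small hcon (cr (-E.2, E.1) G)
  have hfin : (⋃ k ∈ Finset.range M, {η : ℝ | cr E (Q ((k : ℤ) + 1) - Q k) +
      η * cr (-E.2, E.1) (Q ((k : ℤ) + 1) - Q k) = 0}).Finite := by
    refine Set.Finite.biUnion (Finset.range M).finite_toSet ?_
    intro k _
    have hF0 : Q ((k : ℤ) + 1) - Q k ≠ 0 := sub_ne_zero.2 (hQ.ne k).symm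
    obtain ⟨F, hF⟩ : ∃ F : Pt, F = Q ((k : ℤ) + 1) - Q k := ⟨_, rfl⟩
    rw [← hF] at hF0 ⊢
    refine Set.Subsingleton.finite ?_
    intro a ha' b hb'
    simp only [Set.mem_ofPred_eq] at ha' hb'
    by_contra hab
    have h3 : (a - b) * cr (-E.2, E.1) F = 0 := by linear_combination ha' - hb'
    have h4 : cr (-E.2, E.1) F = 0 := (mul_eq_zero.1 h3).resolve_left (sub_ne_zero.2 hab)
    have h5 : cr E F = 0 := by
      rw [h4] at ha'
      linarith
    have h6 : (E.1 ^ 2 + E.2 ^ 2) * F.1 = 0 := by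
      simp only [cr] at h4 h5
      linear_combination (-E.1) * h4 - E.2 * h5
    have h7 : (E.1 ^ 2 + E.2 ^ 2) * F.2 = 0 := by
      simp only [cr] at h4 h5
      linear_combination (-E.2) * h4 + E.1 * h5
    exact hF0 (Prod.ext ((mul_eq_zero.1 h6).resolve_left hEpos.ne')
      ((mul_eq_zero.1 h7).resolve_left hEpos.ne'))
  obtain ⟨η, ⟨hη0, hη1⟩, hηn⟩ :=
    ((Set.Ioo_infinite (lt_min hη₁ hη₂)).sdiff hfin).nonempty
  have hη1' := lt_min_iff.1 hη1
  have gen' : ∀ k : ℕ, k < M → cr (E + η • ((-E.2, E.1) : Pt)) (Q ((k : ℤ) + 1) - Q k) ≠ 0 := by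
    intro k hk h3
    apply hηn
    rw [Set.mem_iUnion₂]
    refine ⟨k, Finset.mem_range.2 hk, ?_⟩
    rw [hadd] at h3
    exact h3
  have gen : ∀ k : ℤ, cr (E + η • ((-E.2, E.1) : Pt)) (Q k) ≠
      cr (E + η • ((-E.2, E.1) : Pt)) (Q (k + 1)) := by
    intro k h3
    have hM : (0 : ℤ) < M := by
      have := hQ.two
      omega
    obtain ⟨r, hr⟩ := Int.eq_ofNat_of_zero_le (Int.emod_nonneg k hM.ne')
    have hr1 : (r : ℤ) < M := by
      rw [← hr]
      exact Int.emod_lt_of_pos k hM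
    have h4 : k = r + (k / M) * M := by
      rw [← hr]
      have := Int.emod_add_mul_ediv k M
      linarith
    have h5 : Q k = Q r := by
      conv_lhs => rw [h4]
      exact hQ.per' r (k / M)
    have h6 : Q (k + 1) = Q ((r : ℤ) + 1) := by
      have h7 : k + 1 = ((r : ℤ) + 1) + (k / M) * M := by linarith
      rw [h7]
      exact hQ.per' _ _
    refine gen' r (by exact_mod_cast hr1) ?_
    rw [hsub, ← h5, ← h6, h3, sub_self]
  have h3 := hQ.peak_cr gen (b := i) (by
      have h4 : 0 < cr (E + η • ((-E.2, E.1) : Pt)) E' := by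
        rw [hadd]
        exact h1 η hη0 hη1'.1
      rw [hE', hsub] at h4
      linarith) (by
      have h4 : cr (E + η • ((-E.2, E.1) : Pt)) E < 0 := by
        rw [hadd]
        have h5 : cr E E = 0 := by
          unfold cr
          ring
        have h6 : cr (-E.2, E.1) E = -(E.1 ^ 2 + E.2 ^ 2) := by
          unfold cr
          ring
        rw [h5, h6]
        nlinarith
      have h5 : cr (E + η • ((-E.2, E.1) : Pt)) E = cr (E + η • ((-E.2, E.1) : Pt)) (Q (i + 1)) -
          cr (E + η • ((-E.2, E.1) : Pt)) (Q i) := by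
        rw [← hsub, ← hE]
      rw [h5] at h4
      linarith) j
  have h4 : 0 < cr (E + η • ((-E.2, E.1) : Pt)) G := by
    rw [hadd]
    exact h2 η hη0 hη1'.2
  rw [hG, hsub] at h4
  linarith

/-- Proof. Let `r ≤ i` be a real corner (`CC.exists_strict`); `CC.left_strict` is the claim for `r`. Induction from `r` to `i`: if `i` is a
real corner use `CC.left_strict`; otherwise `Q (i + 1) - Q i = t • (Q i - Q (i - 1))`, `t > 0`, and
`cr (Q (i + 1) - Q i) (Q j - Q i) = t * cr (Q i - Q (i - 1)) (Q j - Q (i - 1))`. -/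
theorem CC.left {Q : ℤ → Pt} {M : ℕ} (hQ : CC Q M) (i j : ℤ) : cr (Q (i + 1) - Q i) (Q j - Q i) ≤ 0 := by
  obtain ⟨r, hri, hrM, hr⟩ := hQ.exists_strict i
  clear hrM
  induction i, hri using Int.leInduction generalizing j with
  | base => exact hQ.left_strict hr j
  | succ i hri ih =>
    rcases hQ.turn (i + 1) with h1 | h1
    · obtain ⟨t, ht, h2⟩ := h1
      have h3 : i + 1 - 1 = i := by ring
      rw [h3] at h2
      rw [h2]
      have h4 := ih j
      have h5 : cr (t • (Q (i + 1) - Q i)) (Q j - Q (i + 1)) =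
          t * cr (Q (i + 1) - Q i) (Q j - Q i) := by
        simp only [cr, Prod.fst_sub, Prod.snd_sub, Prod.smul_fst, Prod.smul_snd, smul_eq_mul]
        ring
      rw [h5]
      exact mul_nonpos_of_nonneg_of_nonpos ht.le h4
    · exact hQ.left_strict h1 j

end Pool.Agent.SO
end
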