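import Pool.Agent.Lib.MP_2f17d2_lc.Mg.G008
import Pool.Agent.Lib.MP_2f17d2_lc.Mg.G007

section

/-!
# Task Wk: three vertices of a convex polygon are in clockwise order
-/

set_option autoImplicit false

namespace Pool.Agent.SO

variable {Q : ℤ → Pt} {M : ℕ}

/-- Proof: `fan` for `v m = Q (i + 1 + m) - Q i`, `m ≤ M - 2`. `v 0` is the edge `i`; `hr` is `hQ.left i`; `hs`:
`cr (v m) (v (m + 1)) = cr (v m) (Q (l + 1) - Q l) = cr (Q (l + 1) - Q l) (Q i - Q l) ≤ 0`, `l = i + 1 + m`, by `hQ.left l i`; `seg`: the point `Q i` would be a point of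
the edge `l` with `i < l < i + M - 1`, excluded by `CC.meet` for the edges `i` (parameter 0) and `l`. -/
theorem CC.weak (hQ : CC Q M) {i j k : ℤ} (hij : i < j) (hjk : j < k) (hk : k < i + M) :
    cr (Q j - Q i) (Q k - Q i) ≤ 0 := by
  have hM := hQ.two
  obtain ⟨N, hN⟩ : ∃ N : ℕ, M = N + 2 := ⟨M - 2, by omega⟩
  obtain ⟨a, ha⟩ : ∃ a : ℕ, j = i + 1 + a := ⟨(j - i - 1).toNat, by omega⟩
  obtain ⟨b, hb⟩ : ∃ b : ℕ, k = i + 1 + b := ⟨(k - i - 1).toNat, by omega⟩
  have key := fan (N := N) (v := fun m : ℕ => Q (i + 1 + m) - Q i) ?_ ?_ ?_ ?_ a b (by omega) (by omega)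
  · rw [ha, hb]
    exact key
  · intro m hm h
    have h1 : Q (i + 1 + m) - Q i = 0 := h
    exact hQ.inj i (i + 1 + m) (by omega) (by omega) (sub_eq_zero.1 h1).symm
  · intro m hm
    have h1 := hQ.left i (i + 1 + m)
    show cr (Q (i + 1 + ((0 : ℕ) : ℤ)) - Q i) (Q (i + 1 + m) - Q i) ≤ 0
    rw [Nat.cast_zero, add_zero]
    exact h1
  · intro m hm
    have h1 := hQ.left (i + 1 + m) i
    show cr (Q (i + 1 + m) - Q i) (Q (i + 1 + ((m + 1 : ℕ) : ℤ)) - Q i) ≤ 0
    have h2 : i + 1 + ((m + 1 : ℕ) : ℤ) = i + 1 + m + 1 := by push_cast; ring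
    rw [h2]
    simp only [cr, Prod.fst_sub, Prod.snd_sub] at h1 ⊢
    linarith
  · intro m hm t ht0 ht1 h
    have h1 : (Q (i + 1 + m) - Q i) + t • ((Q (i + 1 + ((m + 1 : ℕ) : ℤ)) - Q i) -
      (Q (i + 1 + m) - Q i)) = 0 := h
    have h2 : i + 1 + ((m + 1 : ℕ) : ℤ) = i + 1 + m + 1 := by push_cast; ring
    rw [h2, sub_sub_sub_cancel_right] at h1
    have h3 : Q i + (0 : ℝ) • (Q (i + 1) - Q i) =
        Q (i + 1 + m) + t • (Q (i + 1 + m + 1) - Q (i + 1 + m)) := by
      rw [zero_smul, add_zero]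
      have h4 : Q (i + 1 + m) + t • (Q (i + 1 + m + 1) - Q (i + 1 + m)) - Q i = 0 := by
        rw [← h1]
        abel
      exact (sub_eq_zero.1 h4).symm
    rcases hQ.meet (by omega) (by omega) le_rfl zero_le_one ht0 ht1 h3 with h5 | h5
    · exact absurd h5.2.1 (by norm_num)
    · have := h5.1
      omega

/-- If `Q j` is between `Q i` and `Q k` then all vertices from `i` to `k` are on one line, so there is no real corner between.
Proof. Let `D = Q k - Q i`, `Q j = Q i + τ • D` and `h l = cr D (Q l - Q i)`. For `i < l < j`: `CC.weak` for `i, l, j` gives `τ * h l ≥ 0`, `CC.weak` for `l, j, k`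
gives `(1 - τ) * h l ≤ 0`. For `j < l < k`: `CC.weak` for `i, l, k` gives `h l ≥ 0` and for `i, j, l` gives `τ * h l ≤ 0`. So `h l = 0` for all
`i ≤ l ≤ k`; then the edges before and after `r` are parallel (`cr` of two differences of points of a line with `D ≠ 0`). -/
theorem CC.no_corner (hQ : CC Q M) {i j k : ℤ} (hij : i < j) (hjk : j < k) (hk : k < i + M) {τ : ℝ} (h0 : 0 < τ)
    (h1 : τ < 1) (h : Q j = Q i + τ • (Q k - Q i)) {r : ℤ} (hr : i < r) (hr' : r < k) : ¬ StrictAt Q r := by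
  have hlt1 : τ < 1 := h1
  obtain ⟨D, hD⟩ : ∃ D : Pt, D = Q k - Q i := ⟨_, rfl⟩
  have hD0 : D ≠ 0 := by
    intro h1
    rw [hD] at h1
    exact hQ.inj i k (by omega) hk (sub_eq_zero.1 h1).symm
  rw [← hD] at h
  have hk' : Q k = Q i + D := by rw [hD]; abel
  have hz : ∀ l, i ≤ l → l ≤ k → cr D (Q l - Q i) = 0 := by
    intro l hl1 hl2
    rcases eq_or_lt_of_le hl1 with h1 | h1
    · rw [← h1, sub_self]
      simp [cr]
    rcases eq_or_lt_of_le hl2 with h2 | h2
    · rw [h2, ← hD]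
      simp only [cr]
      ring
    rcases lt_trichotomy l j with h3 | h3 | h3
    · have e1 := hQ.weak h1 h3 (by omega)
      have e2 := hQ.weak h3 hjk (by omega)
      rw [h] at e1 e2
      rw [hk'] at e2
      simp only [cr, Prod.fst_sub, Prod.snd_sub, Prod.fst_add, Prod.snd_add, Prod.smul_fst,
        Prod.smul_snd, smul_eq_mul] at e1 e2 ⊢
      have e3 : 0 ≤ τ * (D.1 * ((Q l).2 - (Q i).2) - D.2 * ((Q l).1 - (Q i).1)) := by
        linarith
      have e4 : (1 - τ) * (D.1 * ((Q l).2 - (Q i).2) - D.2 * ((Q l).1 - (Q i).1)) ≤ 0 := by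
        linarith
      have e5 : 0 ≤ D.1 * ((Q l).2 - (Q i).2) - D.2 * ((Q l).1 - (Q i).1) :=
        nonneg_of_mul_nonneg_right e3 h0
      have e6 : D.1 * ((Q l).2 - (Q i).2) - D.2 * ((Q l).1 - (Q i).1) ≤ 0 := by
        by_contra hcon
        push Not at hcon
        have := mul_pos (sub_pos.2 hlt1) hcon
        linarith
      linarith
    · rw [h3, h]
      simp only [cr, Prod.fst_sub, Prod.snd_sub, Prod.fst_add, Prod.snd_add, Prod.smul_fst,
        Prod.smul_snd, smul_eq_mul]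
      ring
    · have e1 := hQ.weak (by omega : i < l) h2 hk
      have e2 := hQ.weak hij h3 (by omega)
      rw [h] at e2
      rw [hk'] at e1
      simp only [cr, Prod.fst_sub, Prod.snd_sub, Prod.fst_add, Prod.snd_add, Prod.smul_fst,
        Prod.smul_snd, smul_eq_mul] at e1 e2 ⊢
      have e5 : 0 ≤ D.1 * ((Q l).2 - (Q i).2) - D.2 * ((Q l).1 - (Q i).1) := by
        linarith
      have e4 : τ * (D.1 * ((Q l).2 - (Q i).2) - D.2 * ((Q l).1 - (Q i).1)) ≤ 0 := by
        linarith
      have e6 : D.1 * ((Q l).2 - (Q i).2) - D.2 * ((Q l).1 - (Q i).1) ≤ 0 := by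
        by_contra hcon
        push Not at hcon
        have := mul_pos h0 hcon
        linarith
      linarith
  intro hs
  have z1 := hz (r - 1) (by omega) (by omega)
  have z2 := hz r (by omega) (by omega)
  have z3 := hz (r + 1) (by omega) (by omega)
  unfold StrictAt at hs
  have a1 : cr D (Q r - Q (r - 1)) = 0 := by
    simp only [cr, Prod.fst_sub, Prod.snd_sub] at z1 z2 ⊢
    linarith
  have a2 : cr D (Q (r + 1) - Q r) = 0 := by
    simp only [cr, Prod.fst_sub, Prod.snd_sub] at z3 z2 ⊢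
    linarith
  obtain ⟨E', hE'⟩ : ∃ E' : Pt, E' = Q r - Q (r - 1) := ⟨_, rfl⟩
  obtain ⟨E, hE⟩ : ∃ E : Pt, E = Q (r + 1) - Q r := ⟨_, rfl⟩
  rw [← hE'] at a1 hs
  rw [← hE] at a2 hs
  have b1 : D.1 * cr E' E = 0 := by
    have : D.1 * cr E' E = E'.1 * cr D E - E.1 * cr D E' := by
      simp only [cr]; ring
    rw [this, a1, a2]; ring
  have b2 : D.2 * cr E' E = 0 := by
    have : D.2 * cr E' E = E'.2 * cr D E - E.2 * cr D E' := by
      simp only [cr]; ring
    rw [this, a1, a2]; ring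
  apply hD0
  refine Prod.ext ?_ ?_
  · exact (mul_eq_zero.1 b1).resolve_right hs.ne
  · exact (mul_eq_zero.1 b2).resolve_right hs.ne

/-- Strict version. Proof: if `cr = 0`, the three points (which are different by `inj`) are on a line and one of them is strictly between the
two others; use `CC.no_corner` for `(i, j, k)`, `(j, k, i + M)` or `(k, i + M, j + M)`. -/
theorem CC.strict (hQ : CC Q M) {i j k r s t : ℤ} (hij : i < j) (hjk : j < k) (hk : k < i + M)
    (hr : StrictAt Q r) (hr1 : i < r) (hr2 : r < k) (hs : StrictAt Q s) (hs1 : j < s) (hs2 : s < i + M)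
    (ht : StrictAt Q t) (ht1 : k < t) (ht2 : t < j + M) : cr (Q j - Q i) (Q k - Q i) < 0 := by
  have hw := hQ.weak hij hjk hk
  refine lt_of_le_of_ne hw fun hc => ?_
  obtain ⟨D, hD⟩ : ∃ D : Pt, D = Q k - Q i := ⟨_, rfl⟩
  have hD0 : D ≠ 0 := by
    intro h1
    rw [hD] at h1
    exact hQ.inj i k (by omega) hk (sub_eq_zero.1 h1).symm
  have hk' : Q k = Q i + D := by rw [hD]; abel
  rw [← hD] at hc
  obtain ⟨τ, hτ⟩ : ∃ τ : ℝ, Q j - Q i = τ • D := by
    have h2 : D.1 ≠ 0 ∨ D.2 ≠ 0 := by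
      by_contra hcon
      push Not at hcon
      exact hD0 (Prod.ext hcon.1 hcon.2)
    rcases h2 with h2 | h2
    · refine ⟨(Q j - Q i).1 / D.1, ?_⟩
      refine Prod.ext ?_ ?_
      · simp only [Prod.smul_fst, smul_eq_mul]
        field_simp
      · simp only [Prod.smul_snd, smul_eq_mul]
        rw [div_mul_eq_mul_div, eq_div_iff h2]
        simp only [cr] at hc
        linarith
    · refine ⟨(Q j - Q i).2 / D.2, ?_⟩
      refine Prod.ext ?_ ?_
      · simp only [Prod.smul_fst, smul_eq_mul]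
        rw [div_mul_eq_mul_div, eq_div_iff h2]
        simp only [cr] at hc
        linarith
      · simp only [Prod.smul_snd, smul_eq_mul]
        field_simp
  have hj' : Q j = Q i + τ • D := by rw [← hτ]; abel
  have hτ0 : τ ≠ 0 := by
    intro h1
    rw [h1, zero_smul, add_zero] at hj'
    exact hQ.inj i j hij (by omega) hj'.symm
  have hτ1 : τ ≠ 1 := by
    intro h1
    rw [h1, one_smul, ← hk'] at hj'
    exact hQ.inj j k hjk (by omega) hj'
  have hMi := hQ.per i
  have hMj := hQ.per j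
  rcases lt_trichotomy τ 0 with h1 | h1 | h1
  · refine hQ.no_corner (i := k) (j := i + M) (k := j + M) (τ := 1 / (1 - τ)) (by omega) (by omega)
      (by omega) ?_ ?_ ?_ ht1 ht2 ht
    · have : 0 < 1 - τ := by linarith
      positivity
    · rw [div_lt_one (by linarith)]
      linarith
    · rw [hMi, hMj, hk', hj']
      have h3 : (1 - τ) ≠ 0 := by linarith
      refine Prod.ext ?_ ?_
      · simp only [Prod.fst_sub, Prod.fst_add, Prod.smul_fst, smul_eq_mul]
        field_simp
        ring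
      · simp only [Prod.snd_sub, Prod.snd_add, Prod.smul_snd, smul_eq_mul]
        field_simp
        ring
  · exact hτ0 h1
  · rcases lt_trichotomy τ 1 with h2 | h2 | h2
    · refine hQ.no_corner hij hjk hk h1 h2 ?_ hr1 hr2 hr
      rw [← hD]
      exact hj'
    · exact hτ1 h2
    · refine hQ.no_corner (i := j) (j := k) (k := i + M) (τ := (τ - 1) / τ) hjk (by omega)
        (by omega) ?_ ?_ ?_ hs1 hs2 hs
      · exact div_pos (by linarith) h1
      · rw [div_lt_one h1]
        linarith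
      · rw [hMi, hk', hj']
        refine Prod.ext ?_ ?_
        · simp only [Prod.fst_sub, Prod.fst_add, Prod.smul_fst, smul_eq_mul]
          field_simp
          ring
        · simp only [Prod.snd_sub, Prod.snd_add, Prod.smul_snd, smul_eq_mul]
          field_simp
          ring

end Pool.Agent.SO
end

section

/-!
# Task Sp: the diagonal of a lens and the transversals
-/

set_option autoImplicit false

namespace Pool.Agent.SO

variable {Q : ℤ → Pt} {M : ℕ}

private theorem Sp_run {i : ℤ} (j : ℤ) (hij : i + 1 ≤ j)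
    (hs : ∀ r, i < r → r < j → Same (Q r - Q (r - 1)) (Q (r + 1) - Q r)) :
    (∃ T : ℝ, 0 < T ∧ Q j - Q i = T • (Q (i + 1) - Q i)) ∧
      ∃ t : ℝ, 0 < t ∧ Q j - Q (j - 1) = t • (Q (i + 1) - Q i) := by
  induction j, hij using Int.leInduction with
  | base => exact ⟨⟨1, one_pos, by simp⟩, 1, one_pos, by simp⟩
  | succ j hj ih =>
    obtain ⟨⟨T, hT, h1⟩, t, ht, h2⟩ := ih fun r hr hr' => hs r hr (by omega)
    obtain ⟨s, hs0, h3⟩ := hs j (by omega) (by omega)
    refine ⟨⟨T + s * t, by positivity, ?_⟩, s * t, by positivity, ?_⟩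
    · rw [add_smul, ← h1, mul_smul, ← h2, ← h3]
      abel
    · rw [mul_smul, ← h2, ← h3]
      simp

private theorem Sp_swap (u v : Pt) : cr u v = -cr v u := by
  simp only [cr]
  ring

private theorem Sp_strict (hQ : CC Q M) {r : ℤ} (h : ¬ StrictAt Q r) :
    Same (Q r - Q (r - 1)) (Q (r + 1) - Q r) := by
  rcases hQ.turn r with h1 | h1
  · exact h1
  · exact absurd h1 h

private theorem Sp_corner (hQ : CC Q M) {b : ℤ} (h0 : 0 < b) (hb : b < M) (sb : StrictAt Q b) :
    (∃ r, 0 < r ∧ r < b ∧ StrictAt Q r) ∨ ∃ r, b < r ∧ r < M ∧ StrictAt Q r := by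
  by_contra hn
  rw [not_or] at hn
  obtain ⟨hn1, hn2⟩ := hn
  obtain ⟨⟨T, hT, h1⟩, t, ht, h2⟩ := Sp_run (Q := Q) (i := 0) b (by omega)
    fun r hr hr' => Sp_strict hQ fun h => hn1 ⟨r, hr, hr', h⟩
  obtain ⟨⟨T', hT', h3⟩, -⟩ := Sp_run (Q := Q) (i := b) (M : ℤ) (by omega)
    fun r hr hr' => Sp_strict hQ fun h => hn2 ⟨r, hr, hr', h⟩
  have hM : Q (M : ℤ) = Q 0 := by
    have := hQ.per 0
    rwa [zero_add] at this
  rw [hM] at h3
  have h4 : T' • (Q (b + 1) - Q b) = -(T • (Q (0 + 1) - Q 0)) := by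
    rw [← h3, ← h1]
    abel
  have h5 : cr (Q b - Q (b - 1)) (Q (b + 1) - Q b) < 0 := sb
  rw [h2] at h5
  have h6 : T' * cr (t • (Q (0 + 1) - Q 0)) (Q (b + 1) - Q b) = 0 := by
    have h7 : T' * cr (t • (Q (0 + 1) - Q 0)) (Q (b + 1) - Q b)
        = cr (t • (Q (0 + 1) - Q 0)) (T' • (Q (b + 1) - Q b)) := by
      simp only [cr, Prod.smul_fst, Prod.smul_snd, smul_eq_mul]
      ring
    rw [h7, h4]
    simp only [cr, Prod.smul_fst, Prod.smul_snd, smul_eq_mul, Prod.fst_neg, Prod.snd_neg]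
    ring
  nlinarith

/-- A parallel of the diagonal from `Q 0` to `Q b` separates the two sides of the lens.

Proof. Put `h z = cr (Q b - Q 0) (z - Q 0)`. For `0 < p < b`: `h (Q p) ≥ 0` by `CC.weak` for `0, p, b`; for `b < q < M`: `h (Q q) ≤ 0` by `CC.weak` for `0, b, q`.
There is a real corner `r` different from `0` and `b` modulo `M`: otherwise all corners in `(0, b)` and `(b, M)` are straight, so all the edges
`0, ..., b - 1` are positive multiples of the edge `0` and all the edges `b, ..., M - 1` are positive multiples of the edge `b`, and as the sum is zero,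
`E_b` is a negative multiple of `E_0`, which contradicts `cr E_0 E_b ≠ 0` (real corner at `b`).
If `0 < r < b`: `h (Q p) > 0` for all `0 < p < b` (`CC.strict` for `0, p, b` with the corners `r`, `b`, `M`); take for `δ` half of the minimum of the finitely
many `h (Q p)`. If `b < r < M`: `h (Q q) < 0` for all `b < q < M` (`CC.strict` for `0, b, q`, corners `b`, `r`, `M`), take for `δ` half of the maximum. -/
theorem CC.sep (hQ : CC Q M) {b : ℤ} (h0 : 0 < b) (hb : b < M) (s0 : StrictAt Q 0) (sb : StrictAt Q b) :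
    ∃ δ : ℝ, (∀ p, 0 < p → p < b → δ < cr (Q b - Q 0) (Q p - Q 0)) ∧
      (∀ q, b < q → q < M → cr (Q b - Q 0) (Q q - Q 0) < δ) := by
  have hw1 : ∀ p, 0 < p → p < b → 0 ≤ cr (Q b - Q 0) (Q p - Q 0) := fun p hp hp' => by
    have := hQ.weak hp hp' (by omega)
    rw [Sp_swap]
    linarith
  have hw2 : ∀ q, b < q → q < M → cr (Q b - Q 0) (Q q - Q 0) ≤ 0 := fun q hq hq' =>
    hQ.weak h0 hq (by omega)
  have sM : StrictAt Q (M : ℤ) := by
    have := (hQ.strictAt_add 0).2 s0
    rwa [zero_add] at this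
  rcases Sp_corner hQ h0 hb sb with ⟨r, hr, hr', sr⟩ | ⟨r, hr, hr', sr⟩
  · obtain ⟨p0, hp0, hmin⟩ := Finset.exists_min_image (Finset.Ioo 0 b)
      (fun p => cr (Q b - Q 0) (Q p - Q 0)) ⟨r, Finset.mem_Ioo.2 ⟨hr, hr'⟩⟩
    have hpos : ∀ p, 0 < p → p < b → 0 < cr (Q b - Q 0) (Q p - Q 0) := fun p hp hp' => by
      have := hQ.strict hp hp' (by omega) sr hr hr' sb hp' (by omega) sM hb (by omega)
      rw [Sp_swap]
      linarith
    rw [Finset.mem_Ioo] at hp0
    have h1 := hpos p0 hp0.1 hp0.2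
    refine ⟨cr (Q b - Q 0) (Q p0 - Q 0) / 2, fun p hp hp' => ?_, fun q hq hq' => ?_⟩
    · have := hmin p (Finset.mem_Ioo.2 ⟨hp, hp'⟩)
      linarith
    · have := hw2 q hq hq'
      linarith
  · obtain ⟨p0, hp0, hmax⟩ := Finset.exists_max_image (Finset.Ioo b M)
      (fun p => cr (Q b - Q 0) (Q p - Q 0)) ⟨r, Finset.mem_Ioo.2 ⟨hr, hr'⟩⟩
    have hneg : ∀ q, b < q → q < M → cr (Q b - Q 0) (Q q - Q 0) < 0 := fun q hq hq' =>
      hQ.strict h0 hq (by omega) sb h0 hq sr hr (by omega) sM hq' (by omega)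
    rw [Finset.mem_Ioo] at hp0
    have h1 := hneg p0 hp0.1 hp0.2
    refine ⟨cr (Q b - Q 0) (Q p0 - Q 0) / 2, fun p hp hp' => ?_, fun q hq hq' => ?_⟩
    · have := hw1 p hp hp'
      linarith
    · have := hmax q (Finset.mem_Ioo.2 ⟨hq, hq'⟩)
      linarith

/-- The line from `Q p` to `Q q`, `0 < p < b < q < M`. Proof: `CC.strict` for `p, r, q` with the corners `b`, `M`, `M`, and for `p, q, r` with the corners `b`, `M`,
`b + M` if `r < M`, ... : in the second statement `q < r < p + M`; `CC.strict` for `p, q, r` needs corners in `(p, r)`: `b`; in `(q, p + M)`: `M`; in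
`(r, q + M)`: `b + M`. In the first statement `CC.strict` for `p, r, q` needs corners in `(p, q)`: `b`; in `(r, p + M)`: `M`; in `(q, r + M)`: `M`.
(`StrictAt Q M` and `StrictAt Q (b + M)` by `CC.strictAt_add`.) -/
theorem CC.ord (hQ : CC Q M) {b p q : ℤ} (hp : 0 < p) (hpb : p < b) (hbq : b < q) (hq : q < M)
    (s0 : StrictAt Q 0) (sb : StrictAt Q b) :
    (∀ r, p < r → r < q → 0 < cr (Q q - Q p) (Q r - Q p)) ∧
      (∀ r, q < r → r < p + M → cr (Q q - Q p) (Q r - Q p) < 0) := by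
  have sM : StrictAt Q (M : ℤ) := by
    have := (hQ.strictAt_add 0).2 s0
    rwa [zero_add] at this
  have sbM : StrictAt Q (b + M) := (hQ.strictAt_add b).2 sb
  constructor
  · intro r hr hr'
    have := hQ.strict hr hr' (by omega) sb hpb hbq sM (by omega) (by omega) sM hq (by omega)
    rw [Sp_swap]
    linarith
  · intro r hr hr'
    exact hQ.strict (hpb.trans hbq) hr hr' sb hpb (hbq.trans hr) sM hq (by omega) sbM (by omega) (by omega)

end Pool.Agent.SO
end
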