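import Pool.Agent.Lib.MP_2f17d2_lc.Mg.G010
import Pool.Agent.Lib.MP_2f17d2_lc.SO.Qd
import Pool.Agent.Lib.MP_2f17d2_lc.SO.Al
import Pool.Agent.Lib.MP_2f17d2_lc.Mg.G007
import Pool.Agent.Lib.MP_2f17d2_lc.SO.Bk

section

/-!
# Task Ln: from lenses to a stretching
-/

set_option autoImplicit false

namespace Pool.Agent.SO

/-- The lenses of a drawing: the lens of the wire `i` is a convex polygon `Q i` with the corners `0` (the point `A_i`) and `b i` (the point `B_i`); the upper strand is the part `(0, b i)`, the lower strand
the part `(b i, M i)`. `P e a c` is the crossing of the strand of type `a` of the first wire and the strand of type `c` of the second wire at the crossing number `e`; `pos i e τ τ'` is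
the number of this vertex in the lens `i`, where `τ` is the type of the strand of the wire `i` and `τ'` the type of the strand of the other wire. -/
structure Lens (n : ℕ) (w : List ℕ) where
  Q : ℕ → ℤ → Pt
  M : ℕ → ℕ
  b : ℕ → ℤ
  P : ℕ → Bool → Bool → Pt
  pos : ℕ → ℕ → Bool → Bool → ℤ
  cc : ∀ i < n, CC (Q i) (M i)
  hb : ∀ i < n, 0 < b i ∧ b i < M i
  s0 : ∀ i < n, StrictAt (Q i) 0
  sb : ∀ i < n, StrictAt (Q i) (b i)
  up : ∀ i < n, ∀ e < w.length, (((evs (List.range n) w).getD e (0, 0)).1 = i ∨ ((evs (List.range n) w).getD e (0, 0)).2 = i) →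
    ∀ τ', 0 < pos i e true τ' ∧ pos i e true τ' < b i
  down : ∀ i < n, ∀ e < w.length, (((evs (List.range n) w).getD e (0, 0)).1 = i ∨ ((evs (List.range n) w).getD e (0, 0)).2 = i) →
    ∀ τ', b i < pos i e false τ' ∧ pos i e false τ' < M i
  first : ∀ i < n, ∀ e < w.length, ((evs (List.range n) w).getD e (0, 0)).1 = i →
    ∀ τ τ', Q i (pos i e τ τ') = P e τ τ'
  second : ∀ i < n, ∀ e < w.length, ((evs (List.range n) w).getD e (0, 0)).2 = i →
    ∀ τ τ', Q i (pos i e τ τ') = P e τ' τ
  ordU : ∀ i < n, ∀ e e', e < e' → e' < w.length →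
    (((evs (List.range n) w).getD e (0, 0)).1 = i ∨ ((evs (List.range n) w).getD e (0, 0)).2 = i) →
    (((evs (List.range n) w).getD e' (0, 0)).1 = i ∨ ((evs (List.range n) w).getD e' (0, 0)).2 = i) →
    ∀ τ' τ'', pos i e true τ' < pos i e' true τ''
  ordL : ∀ i < n, ∀ e e', e < e' → e' < w.length →
    (((evs (List.range n) w).getD e (0, 0)).1 = i ∨ ((evs (List.range n) w).getD e (0, 0)).2 = i) →
    (((evs (List.range n) w).getD e' (0, 0)).1 = i ∨ ((evs (List.range n) w).getD e' (0, 0)).2 = i) →
    ∀ τ' τ'', pos i e' false τ'' < pos i e false τ'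

/-- `cr` in coordinates, for differences. -/
private theorem Ln_cr_sub (u z z' : Pt) : cr u (z - z') = cr u z - cr u z' := by
  simp only [cr, Prod.fst_sub, Prod.snd_sub]
  ring

private theorem Ln_cr_smul (u z : Pt) (t : ℝ) : cr u (t • z) = t * cr u z := by
  simp only [cr, Prod.smul_fst, Prod.smul_snd, smul_eq_mul]
  ring

private theorem Ln_cr_self (u : Pt) : cr u u = 0 := by
  simp only [cr]
  ring

private theorem Ln_cr_zero (u : Pt) : cr u 0 = 0 := by
  simp only [cr, Prod.fst_zero, Prod.snd_zero]
  ring

/-- The value of an affine function at a convex combination of four points. -/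
private theorem Ln_comb (u : Pt) (P : Bool → Bool → Pt) (l : Bool → Bool → ℝ) :
    cr u (l true true • P true true + l true false • P true false + l false true • P false true +
        l false false • P false false) =
      l true true * cr u (P true true) + l true false * cr u (P true false) +
        l false true * cr u (P false true) + l false false * cr u (P false false) := by
  simp only [cr, Prod.fst_add, Prod.snd_add, Prod.smul_fst, Prod.smul_snd, smul_eq_mul]
  ring

/-- The upper bound for convex combinations. -/
private theorem Ln_comb_le {u : Pt} {P : Bool → Bool → Pt} {l : Bool → Bool → ℝ} {c : ℝ}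
    (h0 : ∀ a b, 0 ≤ l a b) (h1 : l true true + l true false + l false true + l false false = 1)
    (h : ∀ a b, cr u (P a b) ≤ c) :
    cr u (l true true • P true true + l true false • P true false + l false true • P false true +
        l false false • P false false) ≤ c := by
  rw [Ln_comb]
  have e1 := mul_le_mul_of_nonneg_left (h true true) (h0 true true)
  have e2 := mul_le_mul_of_nonneg_left (h true false) (h0 true false)
  have e3 := mul_le_mul_of_nonneg_left (h false true) (h0 false true)
  have e4 := mul_le_mul_of_nonneg_left (h false false) (h0 false false)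
  have e5 : l true true * c + l true false * c + l false true * c + l false false * c = c := by
    rw [← add_mul, ← add_mul, ← add_mul, h1, one_mul]
  linarith

/-- The strict lower bound for convex combinations. -/
private theorem Ln_comb_gt {u : Pt} {P : Bool → Bool → Pt} {l : Bool → Bool → ℝ} {c : ℝ}
    (h0 : ∀ a b, 0 ≤ l a b) (h1 : l true true + l true false + l false true + l false false = 1)
    (h : ∀ a b, c < cr u (P a b)) :
    c < cr u (l true true • P true true + l true false • P true false + l false true • P false true +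
        l false false • P false false) := by
  rw [Ln_comb]
  obtain ⟨c', hc', hc⟩ : ∃ c', c < c' ∧ ∀ a b, c' ≤ cr u (P a b) := by
    refine ⟨min (min (cr u (P true true)) (cr u (P true false)))
      (min (cr u (P false true)) (cr u (P false false))), ?_, ?_⟩
    · exact lt_min (lt_min (h _ _) (h _ _)) (lt_min (h _ _) (h _ _))
    · intro a b
      cases a <;> cases b
      · exact (min_le_right _ _).trans (min_le_right _ _)
      · exact (min_le_right _ _).trans (min_le_left _ _)
      · exact (min_le_left _ _).trans (min_le_right _ _)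
      · exact (min_le_left _ _).trans (min_le_left _ _)
  have e1 := mul_le_mul_of_nonneg_left (hc true true) (h0 true true)
  have e2 := mul_le_mul_of_nonneg_left (hc true false) (h0 true false)
  have e3 := mul_le_mul_of_nonneg_left (hc false true) (h0 false true)
  have e4 := mul_le_mul_of_nonneg_left (hc false false) (h0 false false)
  have e5 : l true true * c' + l true false * c' + l false true * c' + l false false * c' = c' := by
    rw [← add_mul, ← add_mul, ← add_mul, h1, one_mul]
  linarith

/-- One lens and two crossings on it, in this order. -/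
private theorem Ln_lens {Q : ℤ → Pt} {M : ℕ} {b : ℤ} (hQ : CC Q M) (h0 : 0 < b) (hb : b < M)
    (s0 : StrictAt Q 0) (sb : StrictAt Q b) {x x' : Pt} {P P' : Bool → Bool → Pt}
    {l l' : Bool → Bool → ℝ} {pos pos' : Bool → Bool → ℤ}
    (hx : x = l true true • P true true + l true false • P true false + l false true • P false true +
        l false false • P false false)
    (hx' : x' = l' true true • P' true true + l' true false • P' true false +
      l' false true • P' false true + l' false false • P' false false)
    (hl0 : ∀ a b, 0 ≤ l a b)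
    (hl1 : l true true + l true false + l false true + l false false = 1)
    (hl0' : ∀ a b, 0 ≤ l' a b)
    (hl1' : l' true true + l' true false + l' false true + l' false false = 1)
    (hP : ∀ a b, ∃ τ τ', P a b = Q (pos τ τ'))
    (hP' : ∀ a b, ∃ τ τ', P' a b = Q (pos' τ τ'))
    (up : ∀ τ', 0 < pos true τ' ∧ pos true τ' < b)
    (down : ∀ τ', b < pos false τ' ∧ pos false τ' < M)
    (up' : ∀ τ', 0 < pos' true τ' ∧ pos' true τ' < b)
    (down' : ∀ τ', b < pos' false τ' ∧ pos' false τ' < M)
    (ordU : ∀ τ' τ'', pos true τ' < pos' true τ'')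
    (ordL : ∀ τ' τ'', pos' false τ'' < pos false τ')
    (hcr : cr (Q b - Q 0) x = cr (Q b - Q 0) x') :
    ∃ t : ℝ, 0 < t ∧ x' - x = t • (Q b - Q 0) := by
  have hne : Q b - Q 0 ≠ 0 := by
    intro h
    exact hQ.inj 0 b h0 (by simpa using hb) (sub_eq_zero.1 h).symm
  obtain ⟨t, ht⟩ := eq_smul_of_cr hne hcr
  refine ⟨t, ?_, ht⟩
  obtain ⟨p, hp⟩ : ∃ p, p = max (pos true true) (pos true false) := ⟨_, rfl⟩
  obtain ⟨q, hq⟩ : ∃ q, q = min (pos false true) (pos false false) := ⟨_, rfl⟩
  have hp1 : ∀ τ, pos true τ ≤ p := by
    intro τ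
    cases τ
    · rw [hp]; exact le_max_right _ _
    · rw [hp]; exact le_max_left _ _
  have hp2 : ∃ τ, p = pos true τ := by
    rcases max_choice (pos true true) (pos true false) with h | h
    · exact ⟨true, by rw [hp, h]⟩
    · exact ⟨false, by rw [hp, h]⟩
  have hq1 : ∀ τ, q ≤ pos false τ := by
    intro τ
    cases τ
    · rw [hq]; exact min_le_right _ _
    · rw [hq]; exact min_le_left _ _
  have hq2 : ∃ τ, q = pos false τ := by
    rcases min_choice (pos false true) (pos false false) with h | h
    · exact ⟨true, by rw [hq, h]⟩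
    · exact ⟨false, by rw [hq, h]⟩
  obtain ⟨τp, hτp⟩ := hp2
  obtain ⟨τq, hτq⟩ := hq2
  have a1 : 0 < p := by rw [hτp]; exact (up τp).1
  have a2 : p < b := by rw [hτp]; exact (up τp).2
  have a3 : b < q := by rw [hτq]; exact (down τq).1
  have a4 : q < M := by rw [hτq]; exact (down τq).2
  obtain ⟨o1, o2⟩ := hQ.ord a1 a2 a3 a4 s0 sb
  simp only [Ln_cr_sub (Q q - Q p) _ (Q p)] at o1 o2
  have hU : cr (Q q - Q p) (Q q) = cr (Q q - Q p) (Q p) := by
    have := Ln_cr_self (Q q - Q p)
    rw [Ln_cr_sub] at this
    linarith
  -- the first crossing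
  have m1 : cr (Q q - Q p) x ≤ cr (Q q - Q p) (Q p) := by
    rw [hx]
    refine Ln_comb_le hl0 hl1 ?_
    intro a c
    obtain ⟨τ, τ', h⟩ := hP a c
    rw [h]
    cases τ
    · rcases (hq1 τ').lt_or_eq with h' | h'
      · have := o2 _ h' (by have := (down τ').2; omega)
        linarith
      · rw [← h', hU]
    · rcases (hp1 τ').lt_or_eq with h' | h'
      · have := o2 (pos true τ' + M) (by have := (up τ').1; omega) (by omega)
        rw [hQ.per] at this
        linarith
      · rw [h']
  -- the second crossing
  have m2 : cr (Q q - Q p) (Q p) < cr (Q q - Q p) x' := by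
    rw [hx']
    refine Ln_comb_gt hl0' hl1' ?_
    intro a c
    obtain ⟨τ, τ', h⟩ := hP' a c
    rw [h]
    cases τ
    · have := o1 (pos' false τ') (by have := (down' τ').1; omega)
        (by rw [hτq]; exact ordL _ _)
      linarith
    · have := o1 (pos' true τ') (by rw [hτp]; exact ordU _ _)
        (by have := (up' τ').2; omega)
      linarith
  have m3 : cr (Q q - Q p) (Q p) < cr (Q q - Q p) (Q b) := by
    have := o1 b a2 a3
    linarith
  have m4 : cr (Q q - Q p) (Q 0) < cr (Q q - Q p) (Q p) := by
    have := o2 (0 + M) (by omega) (by omega)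
    rw [hQ.per] at this
    linarith
  have m5 : cr (Q q - Q p) x' - cr (Q q - Q p) x =
      t * (cr (Q q - Q p) (Q b) - cr (Q q - Q p) (Q 0)) := by
    rw [← Ln_cr_sub, ← Ln_cr_sub, ht, Ln_cr_smul]
  by_contra hcon
  have hcon := not_lt.1 hcon
  have : t * (cr (Q q - Q p) (Q b) - cr (Q q - Q p) (Q 0)) ≤ 0 :=
    mul_nonpos_of_nonpos_of_nonneg hcon (by linarith)
  linarith

/-- Proof. For `i < n` let `A i = Q i 0`, `B i = Q i (b i)`, `d i = B i - A i`, and let `δ i` be the number of `CC.sep`; `h i z = cr (d i) (z - A i)`.
(1) For every event `e = (i, j)` (`i < j < n`, `Wiring.evs_lt`), with `u = d i`, `v = d j`, `α = δ i + cr (d i) (A i)`, `β = δ j + cr (d j) (A j)`, the four points `P e a c` satisfy the hypotheses of `quad` (`P e a c` is a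
vertex of the upper or lower part of `Q i` according to `a` and of `Q j` according to `c`). So `cr (d i) (d j) ≠ 0` and there is a convex combination `x e` of the four points with `h i (x e) = δ i` and `h j (x e) = δ j`. Every pair
`i < j < n` has an event (`Wiring.exists_ev`), so `hd` of `stretchable_of_dirs` holds.
(2) Let `e < e'` be events which contain the wire `i`. `h i (x e) = h i (x e') = δ i`, so `x e' - x e = t • d i` for some real `t` (`eq_smul_of_cr`). Let `p` be the larger of the two numbers `pos i e true _` and `q` the smaller of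
the two numbers `pos i e false _`; `0 < p < b i < q < M i`. Let `m z = cr (Q i q - Q i p) (z - Q i p)`. By `CC.ord`, `m` is positive at the vertices in `(p, q)` and negative at the vertices in `(q, p + M)`, zero at `p` and `q`. The four
crossing points of `e` are at positions `≤ p` or `≥ q`, so `m ≤ 0` at these points and therefore `m (x e) ≤ 0` (for a vertex at `r ≤ p`, `r > 0`, if `r < p` use the number `r + M` in `(q, p + M)`). The four crossing points of `e'` are at positions
in `(p, q)` by `ordU`, `ordL`, so `m (x e') > 0`. `m (B i) > 0` (`b i` is in `(p, q)`) and `m (A i) < 0` (`M i` is in `(q, p + M)`). From `t * (m (B i) - m (A i)) = m (x e') - m (x e) > 0`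
we get `t > 0`. Now `stretchable_of_dirs`. -/
theorem Lens.stretchable {n : ℕ} {w : List ℕ} (hw : Wiring n w) (L : Lens n w) : Stretchable n w := by
  classical
  have hsep : ∀ i, ∃ δ : ℝ, i < n →
      (∀ p, 0 < p → p < L.b i → δ < cr (L.Q i (L.b i) - L.Q i 0) (L.Q i p - L.Q i 0)) ∧
      (∀ q, L.b i < q → q < L.M i → cr (L.Q i (L.b i) - L.Q i 0) (L.Q i q - L.Q i 0) < δ) := by
    intro i
    by_cases hi : i < n
    · obtain ⟨δ, h⟩ := (L.cc i hi).sep (L.hb i hi).1 (L.hb i hi).2 (L.s0 i hi) (L.sb i hi)
      exact ⟨δ, fun _ => h⟩
    · exact ⟨0, fun h => absurd h hi⟩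
  choose δ hδ using hsep
  have hlen : (evs (List.range n) w).length = w.length := length_evs _ _
  have hlt : ∀ e < w.length, ((evs (List.range n) w).getD e (0, 0)).1 <
      ((evs (List.range n) w).getD e (0, 0)).2 ∧ ((evs (List.range n) w).getD e (0, 0)).2 < n :=
    fun e he => hw.evs_lt (by rw [hlen]; exact he)
  -- the upper and the lower side
  have hup : ∀ i < n, ∀ e < w.length, (((evs (List.range n) w).getD e (0, 0)).1 = i ∨
      ((evs (List.range n) w).getD e (0, 0)).2 = i) → ∀ τ',
      δ i + cr (L.Q i (L.b i) - L.Q i 0) (L.Q i 0) <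
        cr (L.Q i (L.b i) - L.Q i 0) (L.Q i (L.pos i e true τ')) := by
    intro i hi e he h τ'
    have h1 := L.up i hi e he h τ'
    have h2 := (hδ i hi).1 _ h1.1 h1.2
    rw [Ln_cr_sub] at h2
    linarith
  have hdown : ∀ i < n, ∀ e < w.length, (((evs (List.range n) w).getD e (0, 0)).1 = i ∨
      ((evs (List.range n) w).getD e (0, 0)).2 = i) → ∀ τ',
      cr (L.Q i (L.b i) - L.Q i 0) (L.Q i (L.pos i e false τ')) <
        δ i + cr (L.Q i (L.b i) - L.Q i 0) (L.Q i 0) := by
    intro i hi e he h τ'
    have h1 := L.down i hi e he h τ'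
    have h2 := (hδ i hi).2 _ h1.1 h1.2
    rw [Ln_cr_sub] at h2
    linarith
  -- the crossing points
  have hq : ∀ e, ∃ (x : Pt) (l : Bool → Bool → ℝ), e < w.length →
      cr (L.Q ((evs (List.range n) w).getD e (0, 0)).1 (L.b ((evs (List.range n) w).getD e (0, 0)).1) -
          L.Q ((evs (List.range n) w).getD e (0, 0)).1 0)
        (L.Q ((evs (List.range n) w).getD e (0, 0)).2 (L.b ((evs (List.range n) w).getD e (0, 0)).2) -
          L.Q ((evs (List.range n) w).getD e (0, 0)).2 0) ≠ 0 ∧
      (∀ a b, 0 ≤ l a b) ∧ l true true + l true false + l false true + l false false = 1 ∧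
      x = l true true • L.P e true true + l true false • L.P e true false +
        l false true • L.P e false true + l false false • L.P e false false ∧
      cr (L.Q ((evs (List.range n) w).getD e (0, 0)).1 (L.b ((evs (List.range n) w).getD e (0, 0)).1) -
          L.Q ((evs (List.range n) w).getD e (0, 0)).1 0) x =
        δ ((evs (List.range n) w).getD e (0, 0)).1 +
          cr (L.Q ((evs (List.range n) w).getD e (0, 0)).1
            (L.b ((evs (List.range n) w).getD e (0, 0)).1) -
            L.Q ((evs (List.range n) w).getD e (0, 0)).1 0)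
            (L.Q ((evs (List.range n) w).getD e (0, 0)).1 0) ∧
      cr (L.Q ((evs (List.range n) w).getD e (0, 0)).2 (L.b ((evs (List.range n) w).getD e (0, 0)).2) -
          L.Q ((evs (List.range n) w).getD e (0, 0)).2 0) x =
        δ ((evs (List.range n) w).getD e (0, 0)).2 +
          cr (L.Q ((evs (List.range n) w).getD e (0, 0)).2
            (L.b ((evs (List.range n) w).getD e (0, 0)).2) -
            L.Q ((evs (List.range n) w).getD e (0, 0)).2 0)
            (L.Q ((evs (List.range n) w).getD e (0, 0)).2 0) := by
    intro e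
    by_cases he : e < w.length
    · obtain ⟨hij, hj⟩ := hlt e he
      have hi := hij.trans hj
      obtain ⟨i, hie⟩ : ∃ i, i = ((evs (List.range n) w).getD e (0, 0)).1 := ⟨_, rfl⟩
      obtain ⟨j, hje⟩ : ∃ j, j = ((evs (List.range n) w).getD e (0, 0)).2 := ⟨_, rfl⟩
      rw [← hie] at hi hij
      rw [← hje] at hj hij
      have q := @quad (L.Q i (L.b i) - L.Q i 0) (L.Q j (L.b j) - L.Q j 0)
        (δ i + cr (L.Q i (L.b i) - L.Q i 0) (L.Q i 0))
        (δ j + cr (L.Q j (L.b j) - L.Q j 0) (L.Q j 0)) (L.P e)
        (fun τ => by
          rw [← L.first i hi e he hie.symm]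
          exact hup i hi e he (Or.inl hie.symm) τ)
        (fun τ => by
          rw [← L.first i hi e he hie.symm]
          exact hdown i hi e he (Or.inl hie.symm) τ)
        (fun τ => by
          rw [← L.second j hj e he hje.symm]
          exact hup j hj e he (Or.inr hje.symm) τ)
        (fun τ => by
          rw [← L.second j hj e he hje.symm]
          exact hdown j hj e he (Or.inr hje.symm) τ)
      obtain ⟨q1, l, q2, q3, q4, q5⟩ := q
      rw [← hie, ← hje]
      exact ⟨_, l, fun _ => ⟨q1, q2, q3, rfl, q4, q5⟩⟩
    · exact ⟨0, fun _ _ => 0, fun h => absurd h he⟩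
  choose x l hx using hq
  refine stretchable_of_dirs hw (fun i => L.Q i (L.b i) - L.Q i 0) x ?_ ?_
  · intro i j hij hj
    obtain ⟨e, he, h, -⟩ := hw.exists_ev hij hj
    have := (hx e he).1
    rw [h] at this
    exact this
  · intro e e' hee he' i h h'
    have he := hee.trans he'
    have hi : i < n := by
      obtain ⟨hij, hj⟩ := hlt e he
      rcases h with h | h
      · rw [← h]; exact hij.trans hj
      · rw [← h]; exact hj
    obtain ⟨-, x1, x2, x3, x4, x5⟩ := hx e he
    obtain ⟨-, y1, y2, y3, y4, y5⟩ := hx e' he'
    have hP : ∀ e < w.length, (((evs (List.range n) w).getD e (0, 0)).1 = i ∨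
        ((evs (List.range n) w).getD e (0, 0)).2 = i) →
        ∀ a c, ∃ τ τ', L.P e a c = L.Q i (L.pos i e τ τ') := by
      intro e he h a c
      rcases h with h | h
      · exact ⟨a, c, (L.first i hi e he h a c).symm⟩
      · exact ⟨c, a, (L.second i hi e he h c a).symm⟩
    have hc : cr (L.Q i (L.b i) - L.Q i 0) (x e) =
        δ i + cr (L.Q i (L.b i) - L.Q i 0) (L.Q i 0) := by
      rcases h with h | h
      · rw [h] at x4; exact x4
      · rw [h] at x5; exact x5
    have hc' : cr (L.Q i (L.b i) - L.Q i 0) (x e') =
        δ i + cr (L.Q i (L.b i) - L.Q i 0) (L.Q i 0) := by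
      rcases h' with h' | h'
      · rw [h'] at y4; exact y4
      · rw [h'] at y5; exact y5
    exact Ln_lens (L.cc i hi) (L.hb i hi).1 (L.hb i hi).2 (L.s0 i hi) (L.sb i hi) x3 y3 x1 x2 y1 y2
      (hP e he h) (hP e' he' h') (L.up i hi e he h) (L.down i hi e he h)
      (L.up i hi e' he' h') (L.down i hi e' he' h')
      (L.ordU i hi e e' hee he' h h') (L.ordL i hi e e' hee he' h h') (hc.trans hc'.symm)

end Pool.Agent.SO
end

section

/-!
# Task Ld: the lenses of a clockwise drawing
-/

set_option autoImplicit false

namespace Pool.Agent.SO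

variable {n : ℕ} {w : List ℕ} {V : Poly}

private theorem Ld_cr_smul (u z : Pt) (t : ℝ) : cr (t • u) z = t * cr u z := by
  simp only [cr, Prod.smul_fst, Prod.smul_snd, smul_eq_mul]
  ring

private theorem Ld_cr_swap (u z : Pt) : cr u z = -cr z u := by
  simp only [cr]
  ring

/-- Two vertices with the same label coincide. -/
private theorem Ld_vertex {c : Code} (hV : Draws c V) {j k a : ℕ} {s s' : Bool} (hj : j < V.length)
    (hk : k < V.length) (h1 : mark V j = some (a, s)) (h2 : mark V k = some (a, s')) : vtx V j = vtx V k := by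
  rcases Nat.lt_trichotomy j k with h | h | h
  · exact (hV.vertex j k h hk).2 ⟨a, s, s', h1, h2⟩
  · rw [h]
  · exact ((hV.vertex k j h hj).2 ⟨a, s', s, h2, h1⟩).symm

/-- The turn at a joint. -/
private theorem Ld_turn {c : Code} (hV : Draws c V) {j k a : ℕ} (h0 : 0 < j) (hj : j < V.length)
    (hk : k < V.length) (h1 : mark V j = some (a, false)) (h2 : mark V k = some (a, true)) :
    cr (vtx V j - vtx V (j - 1)) (vtx V (k + 1) - vtx V k) < 0 := by
  have hjk : j ≠ k := by
    rintro rfl
    rw [h1] at h2
    simp at h2
  have e1 : j - 1 + 1 = j := by omega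
  have h3 : Same (dir V (j - 1)) (dir V j) := by
    have := hV.flat (j - 1) (by rw [e1, h1]; simp)
    rwa [e1] at this
  have h4 : dir V (j - 1) = vtx V j - vtx V (j - 1) := by
    unfold dir
    rw [e1]
  have h5 : cr (dir V j) (dir V k) < 0 := by
    rcases Nat.lt_or_gt_of_ne hjk with h | h
    · exact (hV.sign j k h hk a false true h1 h2).2.2.1 rfl
    · have := (hV.sign k j h hj a true false h2 h1).2.1.1 rfl
      rw [Ld_cr_swap] at this
      linarith
  obtain ⟨t, ht, h6⟩ := h3
  rw [h6, Ld_cr_smul] at h5
  rw [← h4]
  change cr (dir V (j - 1)) (dir V k) < 0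
  by_contra hc
  rw [not_lt] at hc
  have := mul_nonneg ht.le hc
  linarith

/-- The polygon of the lens of the wire `i` is a convex polygon with real corners at the two joints. -/
theorem cc_lens (hw : Wiring n w) (hV : Draws (red n w) V) (hR : AllRight V)
    (S : Strands n (evs (List.range n) w) V) {i : ℕ} (hi : i < n) :
    CC (blockQ (vtx V) (S.s i true) (S.t i true) (S.s i false) (S.t i false))
      ((S.t i true - S.s i true) + (S.t i false - S.s i false)) ∧
    StrictAt (blockQ (vtx V) (S.s i true) (S.t i true) (S.s i false) (S.t i false)) 0 ∧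
    StrictAt (blockQ (vtx V) (S.s i true) (S.t i true) (S.s i false) (S.t i false))
      ((S.t i true - S.s i true : ℕ) : ℤ) := by
  have hp := S.st i hi true
  have hq := S.st i hi false
  have lp := S.tl i hi true
  have lq := S.tl i hi false
  have hsep := S.sep i hi
  have hB : vtx V (S.t i true) = vtx V (S.s i false) := Ld_vertex hV lp (by omega) (S.mB i hi) (S.mB' i hi)
  have hA : vtx V (S.t i false) = vtx V (S.s i true) := Ld_vertex hV lq (by omega) (S.mA' i hi) (S.mA i hi)
  have tB : cr (vtx V (S.t i true) - vtx V (S.t i true - 1)) (vtx V (S.s i false + 1) - vtx V (S.s i false)) < 0 :=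
    Ld_turn hV (by omega) lp (by omega) (S.mB i hi) (S.mB' i hi)
  have tA : cr (vtx V (S.t i false) - vtx V (S.t i false - 1)) (vtx V (S.s i true + 1) - vtx V (S.s i true)) < 0 :=
    Ld_turn hV (by omega) lq (by omega) (S.mA' i hi) (S.mA i hi)
  refine ⟨?_, strictAt_blockQ_zero hp hq hB hA tA, strictAt_blockQ_mid hp hq hB hA tB⟩
  have hlen : ∀ j, ((S.s i true ≤ j ∧ j < S.t i true) ∨ (S.s i false ≤ j ∧ j < S.t i false)) → j < V.length := by
    intro j hj
    omega
  -- the labels
  have hin : ∀ τ, ∀ j, S.s i τ < j → j < S.t i τ → ∀ a b, mark V j = some (a, b) → 2 * n < a := by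
    intro τ j h1 h2 a b h
    obtain ⟨e, τ', he, h | h⟩ := S.inner i hi τ j h1 h2 a b h
    · rw [h.2]; exact lab_gt _ _ _ _
    · rw [h.2]; exact lab_gt _ _ _ _
  have hdiff : ∀ j k, S.s i true < j → j < S.t i true → S.s i false < k → k < S.t i false → ∀ a b b',
      mark V j = some (a, b) → mark V k = some (a, b') → False := by
    intro j k h1 h2 h3 h4 a b b' hj hk
    obtain ⟨e, τ, he, h⟩ := S.inner i hi true j h1 h2 a b hj
    obtain ⟨e', τ', he', h'⟩ := S.inner i hi false k h3 h4 a b' hk
    have hne := (hw.evs_lt he).1
    rcases h with ⟨h5, h6⟩ | ⟨h5, h6⟩ <;> rcases h' with ⟨h7, h8⟩ | ⟨h7, h8⟩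
    · have := lab_inj.1 (h6.symm.trans h8)
      simp at this
    · have := lab_inj.1 (h6.symm.trans h8)
      rw [← this.1] at h7
      omega
    · have := lab_inj.1 (h6.symm.trans h8)
      rw [← this.1] at h7
      omega
    · have := lab_inj.1 (h6.symm.trans h8)
      simp at this
  have hinj : ∀ j k, j < k → ((S.s i true ≤ j ∧ j < S.t i true) ∨ (S.s i false ≤ j ∧ j < S.t i false)) →
      ((S.s i true ≤ k ∧ k < S.t i true) ∨ (S.s i false ≤ k ∧ k < S.t i false)) → vtx V j ≠ vtx V k := by
    intro j k hjk hj hk heq
    obtain ⟨a, s, s', h1, h2⟩ := (hV.vertex j k hjk (hlen k hk)).1 heq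
    have mA := S.mA i hi
    have mB := S.mB' i hi
    rcases Nat.lt_trichotomy j (S.s i true) with hjA | hjA | hjA
    · -- `j` in the lower strand
      rcases Nat.lt_trichotomy j (S.s i false) with hjB | hjB | hjB
      · omega
      · rw [← hjB, h1] at mB
        have ea : a = 2 + 2 * i := by
          have := Option.some.inj mB
          exact congrArg Prod.fst this
        rcases Nat.lt_trichotomy k (S.s i true) with hkA | hkA | hkA
        · have := hin false k (by omega) (by omega) a s' h2
          omega
        · rw [← hkA, h2] at mA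
          have := congrArg Prod.fst (Option.some.inj mA)
          simp only at this
          omega
        · rcases hk with hk | hk
          · have := hin true k (by omega) (by omega) a s' h2
            omega
          · have := hin false k (by omega) (by omega) a s' h2
            omega
      · rcases Nat.lt_trichotomy k (S.s i true) with hkA | hkA | hkA
        · exact S.inner_ne i hi false j k hjB hjk (by omega) a s s' h1 h2
        · rw [← hkA, h2] at mA
          have := congrArg Prod.fst (Option.some.inj mA)
          simp only at this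
          have := hin false j (by omega) (by omega) a s h1
          omega
        · rcases hk with hk | hk
          · exact hdiff k j hkA hk.2 hjB (by omega) a s' s h2 h1
          · exact S.inner_ne i hi false j k hjB hjk (by omega) a s s' h1 h2
    · rw [← hjA, h1] at mA
      have ea : a = 1 + 2 * i := congrArg Prod.fst (Option.some.inj mA)
      rcases Nat.lt_trichotomy k (S.s i false) with hkB | hkB | hkB
      · have := hin true k (by omega) (by omega) a s' h2
        omega
      · rw [← hkB, h2] at mB
        have := congrArg Prod.fst (Option.some.inj mB)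
        simp only at this
        omega
      · rcases hk with hk | hk
        · have := hin true k (by omega) (by omega) a s' h2
          omega
        · have := hin false k (by omega) (by omega) a s' h2
          omega
    · rcases Nat.lt_or_ge j (S.t i true) with hjT | hjT
      · rcases Nat.lt_trichotomy k (S.s i false) with hkB | hkB | hkB
        · exact S.inner_ne i hi true j k hjA hjk (by omega) a s s' h1 h2
        · rw [← hkB, h2] at mB
          have := congrArg Prod.fst (Option.some.inj mB)
          simp only at this
          have := hin true j (by omega) (by omega) a s h1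
          omega
        · rcases hk with hk | hk
          · exact S.inner_ne i hi true j k hjA hjk (by omega) a s s' h1 h2
          · exact hdiff j k hjA hjT hkB hk.2 a s s' h1 h2
      · -- `j` in the lower strand, which is to the right
        have hjF : S.s i false ≤ j ∧ j < S.t i false := by omega
        rcases Nat.lt_trichotomy j (S.s i false) with hjB | hjB | hjB
        · omega
        · rw [← hjB, h1] at mB
          have ea : a = 2 + 2 * i := congrArg Prod.fst (Option.some.inj mB)
          have := hin false k (by omega) (by omega) a s' h2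
          omega
        · exact S.inner_ne i hi false j k hjB hjk (by omega) a s s' h1 h2
  refine cc_of_blocks hp hq (by omega) hB hA ?_ (Or.inr tB) (Or.inr tA) ?_ ?_
  · intro j hj
    have e1 : j - 1 + 1 = j := by omega
    have := hR (j - 1)
    rw [e1] at this
    have h4 : dir V (j - 1) = vtx V j - vtx V (j - 1) := by
      unfold dir
      rw [e1]
    rw [h4] at this
    exact this
  · intro j k hjk hj hk
    rcases Nat.lt_or_gt_of_ne hjk with h | h
    · exact hinj j k h hj hk
    · exact (hinj k j h hk hj).symm
  · intro j k hjk hj hk s t h1 h2 h3 h4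
    exact hV.edge j k (hlen j hj) (hlen k hk) hjk s t h1 h2 h3 h4

theorem exists_lens (hw : Wiring n w) (hV : Draws (red n w) V) (hR : AllRight V) : Nonempty (Lens n w) := by
  obtain ⟨S⟩ := exists_strands (n := n) (E := evs (List.range n) w) (V := V)
    (fun q hq => (hw.lt q hq).ne) hV.word
  have hlen : (evs (List.range n) w).length = w.length := length_evs _ _
  have hev : ∀ e < w.length, ((evs (List.range n) w).getD e (0, 0)).1 < n ∧
      ((evs (List.range n) w).getD e (0, 0)).2 < n := by
    intro e he
    have := hw.evs_lt (e := e) (by rw [hlen]; exact he)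
    exact ⟨by omega, this.2⟩
  have hB : ∀ i < n, vtx V (S.t i true) = vtx V (S.s i false) := fun i hi =>
    Ld_vertex hV (S.tl i hi true) (lt_trans (S.st i hi false) (S.tl i hi false)) (S.mB i hi) (S.mB' i hi)
  have hA : ∀ i < n, vtx V (S.t i false) = vtx V (S.s i true) := fun i hi =>
    Ld_vertex hV (S.tl i hi false) (lt_trans (S.st i hi true) (S.tl i hi true)) (S.mA' i hi) (S.mA i hi)
  have hval : ∀ i < n, ∀ e < w.length, (((evs (List.range n) w).getD e (0, 0)).1 = i ∨
      ((evs (List.range n) w).getD e (0, 0)).2 = i) → ∀ τ τ',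
      blockQ (vtx V) (S.s i true) (S.t i true) (S.s i false) (S.t i false)
        ((if τ then (S.c i true e τ' - S.s i true) else
          (S.t i true - S.s i true + (S.c i false e τ' - S.s i false)) : ℕ) : ℤ) = vtx V (S.c i τ e τ') := by
    intro i hi e he h τ τ'
    have h1 := S.c_lt i hi e (by rw [hlen]; exact he) h τ τ'
    cases τ
    · simp only [Bool.false_eq_true, if_false]
      have h2 : S.c i false e τ' - S.s i false ≤ S.t i false - S.s i false := by omega
      rw [blockQ_right (S.st i hi true) (S.st i hi false) (hA i hi) h2]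
      congr 1
      omega
    · simp only [if_true]
      have h2 : S.c i true e τ' - S.s i true ≤ S.t i true - S.s i true := by omega
      rw [blockQ_left (S.st i hi true) (S.st i hi false) (hB i hi) h2]
      congr 1
      omega
  refine ⟨{
    Q := fun i => blockQ (vtx V) (S.s i true) (S.t i true) (S.s i false) (S.t i false)
    M := fun i => (S.t i true - S.s i true) + (S.t i false - S.s i false)
    b := fun i => ((S.t i true - S.s i true : ℕ) : ℤ)
    P := fun e a c => vtx V (S.c ((evs (List.range n) w).getD e (0, 0)).1 a e c)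
    pos := fun i e τ τ' => ((if τ then (S.c i true e τ' - S.s i true) else
          (S.t i true - S.s i true + (S.c i false e τ' - S.s i false)) : ℕ) : ℤ)
    cc := fun i hi => (cc_lens hw hV hR S hi).1
    hb := ?_
    s0 := fun i hi => (cc_lens hw hV hR S hi).2.1
    sb := fun i hi => (cc_lens hw hV hR S hi).2.2
    up := ?_
    down := ?_
    first := ?_
    second := ?_
    ordU := ?_
    ordL := ?_ }⟩
  · intro i hi
    have h1 := S.st i hi true
    have h2 := S.st i hi false
    constructor
    · omega
    · omega
  · intro i hi e he h τ'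
    have h1 := S.c_lt i hi e (by rw [hlen]; exact he) h true τ'
    simp only [if_true]
    omega
  · intro i hi e he h τ'
    have h1 := S.c_lt i hi e (by rw [hlen]; exact he) h false τ'
    simp only [Bool.false_eq_true, if_false]
    omega
  · intro i hi e he h τ τ'
    rw [h]
    exact hval i hi e he (Or.inl h) τ τ'
  · intro i hi e he h τ τ'
    have h0 := hev e he
    have he' : e < (evs (List.range n) w).length := by rw [hlen]; exact he
    have h1 := S.c_lt i hi e he' (Or.inr h) τ τ'
    have h2 := S.c_lt _ h0.1 e he' (Or.inl rfl) τ' τ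
    obtain ⟨b, hb⟩ := S.c_snd i hi e he' h τ τ'
    obtain ⟨b', hb'⟩ := S.c_fst _ h0.1 e he' rfl τ' τ
    have h3 := S.tl i hi τ
    have h4 := S.tl _ h0.1 τ'
    refine (hval i hi e he (Or.inr h) τ τ').trans ?_
    exact Ld_vertex hV (by omega) (by omega) hb hb'
  · intro i hi e e' hee he' h h' τ' τ''
    have h1 := S.c_lt i hi e (by rw [hlen]; omega) h true τ'
    have h2 := S.c_lt i hi e' (by rw [hlen]; omega) h' true τ''
    have h3 := S.c_up i hi e e' hee (by rw [hlen]; omega) h h' τ' τ''
    simp only [if_true]
    omega
  · intro i hi e e' hee he' h h' τ' τ''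
    have h1 := S.c_lt i hi e (by rw [hlen]; omega) h false τ'
    have h2 := S.c_lt i hi e' (by rw [hlen]; omega) h' false τ''
    have h3 := S.c_down i hi e e' hee (by rw [hlen]; omega) h h' τ' τ''
    simp only [Bool.false_eq_true, if_false]
    omega

end Pool.Agent.SO
end
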