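import Pool.Agent.Lib.MP_2f17d2_lc.SO.Cx
import Pool.Agent.Lib.MP_2f17d2_lc.SO.Bk
import Pool.Agent.Lib.MP_2f17d2_lc.Mg.G009
import Pool.Agent.Lib.MP_2f17d2_lc.SO.Wd
import Pool.Agent.Lib.MP_2f17d2_lc.Mg.G011

section

/-!
# Task Nl: the drawings of the code `redE` are not counterclockwise
-/

set_option autoImplicit false

namespace Pool.Agent.SO

private theorem Nl_cr_neg (a b : Pt) : cr (-b) (-a) = -cr a b := by
  simp only [cr, Prod.fst_neg, Prod.snd_neg]
  ring

private theorem Nl_cr_smul (t : ℝ) (a b : Pt) : cr a (t • b) = t * cr a b := by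
  simp only [cr, Prod.smul_fst, Prod.smul_snd, smul_eq_mul]
  ring

private theorem Nl_nrm (d : Pt) : nrm false (-d) = nrm true d := by
  simp [nrm]

private theorem Nl_same {a b : Pt} (h : Same a b) : Same (-b) (-a) := by
  obtain ⟨t, ht, rfl⟩ := h
  refine ⟨t⁻¹, inv_pos.2 ht, ?_⟩
  rw [smul_neg, smul_smul, inv_mul_cancel₀ ht.ne', one_smul]

private theorem Nl_pt (a b : Pt) (s : ℝ) : b + s • (a - b) = a + (1 - s) • (b - a) := by
  ext
  · simp only [Prod.fst_add, Prod.smul_fst, Prod.fst_sub, smul_eq_mul]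
    ring
  · simp only [Prod.snd_add, Prod.smul_snd, Prod.snd_sub, smul_eq_mul]
    ring

private theorem Nl_mod (v : ℕ → Pt) (p0 p1 q0 q1 : ℕ) (j c : ℤ) :
    blockQ v p0 p1 q0 q1 (j % (((p1 - p0) + (q1 - q0) : ℕ) : ℤ) + c) = blockQ v p0 p1 q0 q1 (j + c) := by
  simp only [blockQ, Int.emod_add_emod]

/-- Proof. Let `ix` be the function of `exists_ix`, `o = (part1 n E).length`, `g1 = ix o`, `g2 = ix (o + 1)` (`redE_zero`; marks `(0, false)`, `(0, true)`), `g1 < g2 < V.length`, and there is no marked vertex between `g1` and `g2`.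
`vtx V g1 = vtx V g2` (`Draws.vertex`), `g1 + 1 < g2` (`Draws.ne`). The loop is traversed backwards: `v j = vtx V (g1 + g2 - j)`. Apply `cc_of_blocks` to `v` with `p0 = g1`, `p1 = q0 = g1 + 1`, `q1 = g2`. The turn conditions: at the vertex
`j' = g1 + g2 - j` of `V` the curve goes straight on or turns to the left, so the reversed curve goes straight on or turns to the right (`cr (-b) (-a) = -cr a b`). At the joint (`q1`/`p0`): the edge arriving at the end of the reversed loop is
`-dir V g1`, the next edge is `-(vtx V g2 - vtx V (g2 - 1))`, `cr (-dir V g1) (-dir V (g2 - 1)) = cr (dir V g1) (dir V (g2 - 1))`, a positive multiple of `cr (dir V g1) (dir V g2) < 0` (`Draws.flat`, `Draws.sign`). `hinj`: no marks in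
`(g1, g2)`, so the vertices are different (`Draws.vertex`). Let `Q` be this polygon, `M = g2 - g1`.
The number `k` of `Draws.outer`: the number of marks up to `k` is `≡ o + 1` modulo `W.length ≥ o + 2` and at most `W.length`, so it is `o + 1`, i.e. `g1 ≤ k < g2` (last part of `exists_ix`). The point `pt V k s` is the point with the parameter
`1 - s` of the edge number `g2 - 1 - k` of `Q` (an edge of `Q` has the direction `-dir V k`), and `nrm true (dir V k) = nrm false (-dir V k)`. By `CC.inside_near`, for small `t` the point `pt V k s + t • nrm true (dir V k)` is to the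
right of all edges of `Q`; by `CC.not_outside` with `C = curve V` it is not `Outside V`. Contradiction to `Draws.outer`. -/
theorem no_left {n : ℕ} {E : List (ℕ × ℕ)} {V : Poly} (hV : Draws (redE n E) V) (hL : AllLeft V) : False := by
  obtain ⟨ix, h1, h2, h3, h4⟩ := exists_ix V
  rw [hV.word] at h1 h2 h3 h4
  obtain ⟨z1, z2, z3⟩ := redE_zero n E
  obtain ⟨o, ho⟩ : ∃ o, o = (part1 n E).length := ⟨_, rfl⟩
  rw [← ho] at z1 z2 z3
  obtain ⟨g1, hg1⟩ : ∃ g, g = ix o := ⟨_, rfl⟩
  obtain ⟨g2, hg2⟩ : ∃ g, g = ix (o + 1) := ⟨_, rfl⟩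
  have m1 : mark V g1 = some (0, false) := by rw [hg1, (h1 o (by omega)).2, z1]
  have m2 : mark V g2 = some (0, true) := by rw [hg2, (h1 (o + 1) (by omega)).2, z2]
  have g2V : g2 < V.length := by rw [hg2]; exact (h1 (o + 1) (by omega)).1
  have g12 : g1 < g2 := by rw [hg1, hg2]; exact h2 _ _ (by omega) (by omega)
  have hno : ∀ j, g1 < j → j < g2 → mark V j = none := by
    intro j hj1 hj2
    by_contra hc
    obtain ⟨k, hk, rfl⟩ := h3 j (by omega) hc
    have k1 : o < k := by
      by_contra hk'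
      rcases Nat.lt_or_ge k o with h | h
      · have := h2 k o h (by omega)
        omega
      · have : k = o := by omega
        subst this
        omega
    have k2 : k < o + 1 := by
      by_contra hk'
      rcases Nat.lt_or_ge (o + 1) k with h | h
      · have := h2 (o + 1) k h hk
        omega
      · have : k = o + 1 := by omega
        subst this
        omega
    omega
  have hvv : vtx V g1 = vtx V g2 := (hV.vertex g1 g2 g12 g2V).2 ⟨0, false, true, m1, m2⟩
  have g12' : g1 + 1 < g2 := by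
    rcases Nat.lt_or_ge (g1 + 1) g2 with h | h
    · exact h
    · exfalso
      have : g2 = g1 + 1 := by omega
      exact hV.ne g1 (by rw [← this]; exact hvv)
  -- the reversed loop
  obtain ⟨v, hv⟩ : ∃ v : ℕ → Pt, ∀ m j, j + m = g1 + g2 → v j = vtx V m := by
    refine ⟨fun j => vtx V (g1 + g2 - j), ?_⟩
    intro m j hjm
    have : g1 + g2 - j = m := by omega
    simp only [this]
  have hedge0 : ∀ m j, j + 1 + m = g1 + g2 → v (j + 1) - v j = -dir V m := by
    intro m j hjm
    rw [hv m (j + 1) (by omega), hv (m + 1) j (by omega), dir, neg_sub]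
  have hturn0 : ∀ j, g1 < j → j < g2 →
      Same (v j - v (j - 1)) (v (j + 1) - v j) ∨ cr (v j - v (j - 1)) (v (j + 1) - v j) < 0 := by
    intro j hj1 hj2
    obtain ⟨i, rfl⟩ : ∃ i, j = i + 1 := ⟨j - 1, by omega⟩
    rw [Nat.add_sub_cancel]
    have e1 := hedge0 (g1 + g2 - (i + 1)) i (by omega)
    have e2 := hedge0 (g1 + g2 - (i + 2)) (i + 1) (by omega)
    rw [e1, e2]
    have e3 : g1 + g2 - (i + 1) = g1 + g2 - (i + 2) + 1 := by omega
    rw [e3]
    rcases hL (g1 + g2 - (i + 2)) with h | h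
    · exact Or.inl (Nl_same h)
    · right
      rw [Nl_cr_neg]
      linarith
  have hpt : ∀ m j, j + 1 + m = g1 + g2 → ∀ s : ℝ, v j + s • (v (j + 1) - v j) = pt V m (1 - s) := by
    intro m j hjm s
    rw [hv m (j + 1) (by omega), hv (m + 1) j (by omega), pt, dir, Nl_pt]
  have hA : v g2 = v g1 := by rw [hv g1 g2 (by omega), hv g2 g1 rfl]; exact hvv
  have hcc : CC (blockQ v g1 (g1 + 1) (g1 + 1) g2) ((g1 + 1 - g1) + (g2 - (g1 + 1))) := by
    refine cc_of_blocks (Nat.lt_succ_self g1) g12' (Or.inl le_rfl) rfl hA ?_ ?_ ?_ ?_ ?_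
    · rintro j (⟨a, b⟩ | ⟨a, b⟩)
      · omega
      · exact hturn0 j (by omega) b
    · exact hturn0 (g1 + 1) (by omega) g12'
    · right
      obtain ⟨i, hi⟩ : ∃ i, g2 = i + 1 := ⟨g2 - 1, by omega⟩
      have e1 := hedge0 g1 (g2 - 1) (by omega)
      have e2 := hedge0 (g2 - 1) g1 (by omega)
      rw [Nat.sub_add_cancel (by omega)] at e1
      rw [e1, e2, Nl_cr_neg]
      have hs := (hV.sign g1 g2 g12 g2V 0 false true m1 m2).2.2.1 rfl
      have hf := hV.flat (g2 - 1) (by rw [Nat.sub_add_cancel (by omega), m2]; simp)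
      rw [Nat.sub_add_cancel (by omega)] at hf
      obtain ⟨t, ht, hf⟩ := hf
      rw [hf, Nl_cr_smul] at hs
      have h5 : cr (dir V g1) (dir V (g2 - 1)) < 0 := by
        by_contra hc
        push Not at hc
        have := mul_nonneg ht.le hc
        linarith
      have h6 : cr (dir V (g2 - 1)) (dir V g1) = -cr (dir V g1) (dir V (g2 - 1)) := by
        simp only [cr]; ring
      rw [h6]
      linarith
    · intro j k hjk hj hk he
      have hj' : g1 ≤ j ∧ j < g2 := by omega
      have hk' : g1 ≤ k ∧ k < g2 := by omega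
      have ej := hv (g1 + g2 - j) j (by omega)
      have ek := hv (g1 + g2 - k) k (by omega)
      rw [ej, ek] at he
      rcases Nat.lt_or_ge j k with h | h
      · obtain ⟨a, s, s', hm, -⟩ := (hV.vertex (g1 + g2 - k) (g1 + g2 - j) (by omega) (by omega)).1 he.symm
        rw [hno _ (by omega) (by omega)] at hm
        exact absurd hm (by simp)
      · obtain ⟨a, s, s', hm, -⟩ := (hV.vertex (g1 + g2 - j) (g1 + g2 - k) (by omega) (by omega)).1 he
        rw [hno _ (by omega) (by omega)] at hm
        exact absurd hm (by simp)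
    · intro j k hjk hj hk s t s0 s1 t0 t1
      have hj' : g1 ≤ j ∧ j < g2 := by omega
      have hk' : g1 ≤ k ∧ k < g2 := by omega
      rw [hpt (g1 + g2 - (j + 1)) j (by omega), hpt (g1 + g2 - (k + 1)) k (by omega)]
      exact hV.edge _ _ (by omega) (by omega) (by omega) _ _ (by linarith) (by linarith) (by linarith) (by linarith)
  -- the vertices of the polygon
  have hq : ∀ r : ℕ, r ≤ g2 - g1 → blockQ v g1 (g1 + 1) (g1 + 1) g2 (r : ℤ) = v (g1 + r) := by
    intro r hr
    rcases Nat.lt_or_ge 1 r with h | h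
    · have := blockQ_right (v := v) (p0 := g1) (p1 := g1 + 1) (q0 := g1 + 1) (q1 := g2) (Nat.lt_succ_self g1) g12' hA
        (r := r - 1) (by omega)
      have e1 : g1 + 1 - g1 + (r - 1) = r := by omega
      have e2 : g1 + 1 + (r - 1) = g1 + r := by omega
      rw [e1, e2] at this
      exact this
    · exact blockQ_left (Nat.lt_succ_self g1) g12' rfl (by omega)
  have hq1 : ∀ r : ℕ, r < g2 - g1 → blockQ v g1 (g1 + 1) (g1 + 1) g2 ((r : ℤ) + 1) = v (g1 + r + 1) := by
    intro r hr
    have := hq (r + 1) (by omega)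
    rw [Nat.cast_add, Nat.cast_one] at this
    rw [this, Nat.add_assoc]
  -- all points of the polygon are points of the curve
  have hC : ∀ j : ℤ, ∀ t : ℝ, 0 ≤ t → t ≤ 1 → blockQ v g1 (g1 + 1) (g1 + 1) g2 j +
      t • (blockQ v g1 (g1 + 1) (g1 + 1) g2 (j + 1) - blockQ v g1 (g1 + 1) (g1 + 1) g2 j) ∈ curve V := by
    intro j t t0 t1
    have e0 := Nl_mod v g1 (g1 + 1) (g1 + 1) g2 j 0
    have e1 := Nl_mod v g1 (g1 + 1) (g1 + 1) g2 j 1
    have hM : (((g1 + 1 - g1) + (g2 - (g1 + 1)) : ℕ) : ℤ) = ((g2 - g1 : ℕ) : ℤ) := by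
      congr 1
      omega
    rw [hM] at e0 e1
    have hpos : (0 : ℤ) < ((g2 - g1 : ℕ) : ℤ) := by
      have : 0 < g2 - g1 := by omega
      exact_mod_cast this
    have hr0 := Int.emod_nonneg j hpos.ne'
    have hr1 := Int.emod_lt_of_pos j hpos
    obtain ⟨r, hr⟩ : ∃ r : ℕ, j % ((g2 - g1 : ℕ) : ℤ) = (r : ℤ) := ⟨(j % ((g2 - g1 : ℕ) : ℤ)).toNat, by
      rw [Int.toNat_of_nonneg hr0]⟩
    rw [hr] at e0 e1 hr1
    have hr2 : r < g2 - g1 := by exact_mod_cast hr1
    rw [add_zero, add_zero] at e0
    rw [← e0, ← e1, hq r hr2.le, hq1 r hr2, hpt (g1 + g2 - (g1 + r + 1)) (g1 + r) (by omega)]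
    exact ⟨_, _, by linarith, by linarith, rfl⟩
  -- the place of the unbounded region
  obtain ⟨k, hkV, hmod, s, ε, s0, s1, ε0, hout⟩ := hV.outer
  have hk : g1 ≤ k ∧ k < g2 := by
    have hle : ((V.take (k + 1)).filterMap Prod.snd).length ≤ (redE n E).w.length := by
      rw [← hV.word]
      exact ((List.take_sublist (k + 1) V).filterMap Prod.snd).length_le
    have heq : ((V.take (k + 1)).filterMap Prod.snd).length = o + 1 := by
      have hoo : (redE n E).o = o + 1 := by rw [ho]; rfl
      rw [hoo] at hmod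
      rcases Nat.lt_or_ge ((V.take (k + 1)).filterMap Prod.snd).length (redE n E).w.length with h | h
      · exact Nat.ModEq.eq_of_lt_of_lt hmod h (by omega)
      · exfalso
        have h5 : ((V.take (k + 1)).filterMap Prod.snd).length = (redE n E).w.length := le_antisymm hle h
        rw [h5, Nat.ModEq, Nat.mod_self, Nat.mod_eq_of_lt (by omega : o + 1 < (redE n E).w.length)] at hmod
        omega
    have h5 := (h4 k hkV o (by omega)).1 heq
    exact ⟨by rw [hg1]; exact h5.1, by rw [hg2]; exact h5.2 (by omega)⟩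
  obtain ⟨δ, δ0, hδ⟩ := CC.inside_near hcc ((g2 - 1 - k : ℕ) : ℤ) (s := 1 - s) (by linarith) (by linarith)
  have hmin : 0 < min ε δ / 2 := by
    have := lt_min ε0 δ0
    linarith
  have hout' := hout (min ε δ / 2) hmin (by
    have := min_le_left ε δ
    linarith)
  have hin := hδ (min ε δ / 2) hmin (by
    have := min_le_right ε δ
    linarith)
  rw [hq (g2 - 1 - k) (by omega), hq1 (g2 - 1 - k) (by omega), hpt k (g1 + (g2 - 1 - k)) (by omega),
    hedge0 k (g1 + (g2 - 1 - k)) (by omega), Nl_nrm, sub_sub_cancel] at hin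
  exact CC.not_outside hcc hC hin hout'

end Pool.Agent.SO
end

section

/-!
# The hard direction
-/

set_option autoImplicit false

namespace Pool.Agent.SO

theorem stretchable_of_clockwise {n : ℕ} {w : List ℕ} (hw : Wiring n w) (h : Clockwise (red n w)) :
    Stretchable n w := by
  obtain ⟨V, hV, hR | hL⟩ := h
  · obtain ⟨L⟩ := exists_lens hw hV hR
    exact L.stretchable hw
  · exact (no_left hV hL).elim

end Pool.Agent.SO
end
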